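import Pool.Agent.Gen.F5.X1C2D13m3.S000
import Pool.Agent.Gen.F5.X1C2D13m3.S001
import Pool.Agent.Gen.F5.X1C2D13m3.S002

set_option autoImplicit false
set_option maxRecDepth 100000

namespace Pool.Agent.Gen.F5.X1C2D13m3

open Pool.Agent.Helper72.F5

def n0 : Cl (O (nat_lit 3)) (R (nat_lit 104577))
    (p (nat_lit 0x119) (nat_lit 0) (p (nat_lit 0x20000c) (nat_lit 0) (p (nat_lit 0xb0014) (nat_lit 0) (p (nat_lit 0x200004) (nat_lit 1) (p (nat_lit 0xc9) (nat_lit 0) (p (nat_lit 0x89) (nat_lit 1) (p (nat_lit 0x101) (nat_lit 1) (p (nat_lit 0x111) (nat_lit 0) (p (nat_lit 0xd1) (nat_lit 1) (p (nat_lit 0x81) (nat_lit 0) (p (nat_lit 0x41) (nat_lit 1) (p (nat_lit 0x8a090b098a9a) (nat_lit 0) (p (nat_lit 0x9888a890a1a) (nat_lit 0) (p (nat_lit 0x89080a08879a) (nat_lit 0) (p (nat_lit 0x8878988071a) (nat_lit 0) (p (nat_lit 0x80000800080907888a) (nat_lit 0) (p (nat_lit 0x80000800078887060a) (nat_lit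 0) (p (nat_lit 0x8608068782) (nat_lit 0) (p (nat_lit 0x587860702) (nat_lit 0) (p (nat_lit 0x8507058482) (nat_lit 0) (p (nat_lit 0x486850402) (nat_lit 0) (p (nat_lit 0x160014) (nat_lit 0) (p (nat_lit 0x50612) (nat_lit 0) (p (nat_lit 0x38592) (nat_lit 0) (p (nat_lit 0x40492) (nat_lit 0) (p (nat_lit 0x28412) (nat_lit 0) (p (nat_lit 0x30292) (nat_lit 0) (p (nat_lit 0x18212) (nat_lit 0) (p (nat_lit 0x20092) (nat_lit 0) (p (nat_lit 0x8012) (nat_lit 0) pn)))))))))))))))))))))))))))))) :=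
  Cl.node (nat_lit 0x101) (nat_lit 2) (by decide +kernel) (ClAll.succ (ClAll.succ ClAll.zero s140) s141)

def n1 : Cl (O (nat_lit 3)) (R (nat_lit 104577))
    (p (nat_lit 0xb0014) (nat_lit 0) (p (nat_lit 0x20000c) (nat_lit 1) (p (nat_lit 0x200004) (nat_lit 0) (p (nat_lit 0xc9) (nat_lit 1) (p (nat_lit 0x109) (nat_lit 1) (p (nat_lit 0x101) (nat_lit 0) (p (nat_lit 0x119) (nat_lit 0) (p (nat_lit 0xd1) (nat_lit 0) (p (nat_lit 0x89) (nat_lit 0) (p (nat_lit 0x41) (nat_lit 0) (p (nat_lit 0x8a090b098a9a) (nat_lit 0) (p (nat_lit 0x9888a890a1a) (nat_lit 0) (p (nat_lit 0x89080a08879a) (nat_lit 0) (p (nat_lit 0x8878988071a) (nat_lit 0) (p (nat_lit 0x80000800080907888a) (nat_lit 0) (p (nat_lit 0x80000800078887060a) (nat_lit 0) (p (nat_lit 0x8608068782) (nat_lit 0) (p (nat_lit 0x587860702) (nat_lit 0) (p (nat_lit 0x8507058482) (nat_lit 0) (p (nat_lit 0x486850402) (nat_lit 0) (p (nat_lit 0x160014)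 (nat_lit 0) (p (nat_lit 0x50612) (nat_lit 0) (p (nat_lit 0x38592) (nat_lit 0) (p (nat_lit 0x40492) (nat_lit 0) (p (nat_lit 0x28412) (nat_lit 0) (p (nat_lit 0x30292) (nat_lit 0) (p (nat_lit 0x18212) (nat_lit 0) (p (nat_lit 0x20092) (nat_lit 0) (p (nat_lit 0x8012) (nat_lit 0) pn))))))))))))))))))))))))))))) :=
  Cl.node (nat_lit 0x81) (nat_lit 2) (by decide +kernel) (ClAll.succ (ClAll.succ ClAll.zero s3) s4)

def n2 : Cl (O (nat_lit 3)) (R (nat_lit 104577))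
    (p (nat_lit 0x20000c) (nat_lit 0) (p (nat_lit 0xb0014) (nat_lit 0) (p (nat_lit 0x200004) (nat_lit 1) (p (nat_lit 0xc9) (nat_lit 1) (p (nat_lit 0x109) (nat_lit 1) (p (nat_lit 0x101) (nat_lit 0) (p (nat_lit 0x119) (nat_lit 0) (p (nat_lit 0xd1) (nat_lit 0) (p (nat_lit 0x89) (nat_lit 0) (p (nat_lit 0x41) (nat_lit 0) (p (nat_lit 0x8a090b098a9a) (nat_lit 0) (p (nat_lit 0x9888a890a1a) (nat_lit 0) (p (nat_lit 0x89080a08879a) (nat_lit 0) (p (nat_lit 0x8878988071a) (nat_lit 0) (p (nat_lit 0x80000800080907888a) (nat_lit 0) (p (nat_lit 0x80000800078887060a) (nat_lit 0) (p (nat_lit 0x8608068782) (nat_lit 0) (p (nat_lit 0x587860702) (nat_lit 0) (p (nat_lit 0x8507058482) (nat_lit 0) (p (nat_lit 0x486850402) (nat_lit 0) (p (nat_lit 0x160014) (nat_lit 0) (p (nat_lit 0x50612) (nat_lit 0) (p (nat_lit 0x38592) (nat_lit 0) (p (nat_lit 0x40492) (nat_lit 0) (p (nat_lit 0x28412) (nat_lit 0) (p (nat_lit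 0x30292) (nat_lit 0) (p (nat_lit 0x18212) (nat_lit 0) (p (nat_lit 0x20092) (nat_lit 0) (p (nat_lit 0x8012) (nat_lit 0) pn))))))))))))))))))))))))))))) :=
  Cl.node (nat_lit 0x81) (nat_lit 2) (by decide +kernel) (ClAll.succ (ClAll.succ ClAll.zero s6) s7)

def n3 : Cl (O (nat_lit 3)) (R (nat_lit 104577))
    (p (nat_lit 0xc1) (nat_lit 1) (p (nat_lit 0xb0014) (nat_lit 0) (p (nat_lit 0x20000c) (nat_lit 1) (p (nat_lit 0x200004) (nat_lit 0) (p (nat_lit 0x109) (nat_lit 1) (p (nat_lit 0x101) (nat_lit 0) (p (nat_lit 0x111) (nat_lit 0) (p (nat_lit 0xd1) (nat_lit 1) (p (nat_lit 0x89) (nat_lit 0) (p (nat_lit 0x41) (nat_lit 0) (p (nat_lit 0x8a090b098a9a) (nat_lit 0) (p (nat_lit 0x9888a890a1a) (nat_lit 0) (p (nat_lit 0x89080a08879a) (nat_lit 0) (p (nat_lit 0x8878988071a) (nat_lit 0) (p (nat_lit 0x80000800080907888a) (nat_lit 0) (p (nat_lit 0x80000800078887060a) (nat_lit 0) (p (nat_lit 0x8608068782)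 (nat_lit 0) (p (nat_lit 0x587860702) (nat_lit 0) (p (nat_lit 0x8507058482) (nat_lit 0) (p (nat_lit 0x486850402) (nat_lit 0) (p (nat_lit 0x160014) (nat_lit 0) (p (nat_lit 0x50612) (nat_lit 0) (p (nat_lit 0x38592) (nat_lit 0) (p (nat_lit 0x40492) (nat_lit 0) (p (nat_lit 0x28412) (nat_lit 0) (p (nat_lit 0x30292) (nat_lit 0) (p (nat_lit 0x18212) (nat_lit 0) (p (nat_lit 0x20092) (nat_lit 0) (p (nat_lit 0x8012) (nat_lit 0) pn))))))))))))))))))))))))))))) :=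
  Cl.node (nat_lit 0x41) (nat_lit 2) (by decide +kernel) (ClAll.succ (ClAll.succ ClAll.zero s36) s37)

def n4 : Cl (O (nat_lit 3)) (R (nat_lit 104577))
    (p (nat_lit 0xc1) (nat_lit 1) (p (nat_lit 0x20000c) (nat_lit 0) (p (nat_lit 0xb0014) (nat_lit 0) (p (nat_lit 0x200004) (nat_lit 1) (p (nat_lit 0x109) (nat_lit 1) (p (nat_lit 0x101) (nat_lit 0) (p (nat_lit 0x111) (nat_lit 0) (p (nat_lit 0xd1) (nat_lit 1) (p (nat_lit 0x89) (nat_lit 0) (p (nat_lit 0x41) (nat_lit 0) (p (nat_lit 0x8a090b098a9a) (nat_lit 0) (p (nat_lit 0x9888a890a1a) (nat_lit 0) (p (nat_lit 0x89080a08879a) (nat_lit 0) (p (nat_lit 0x8878988071a) (nat_lit 0) (p (nat_lit 0x80000800080907888a) (nat_lit 0) (p (nat_lit 0x80000800078887060a) (nat_lit 0) (p (nat_lit 0x8608068782) (nat_lit 0) (p (nat_lit 0x587860702) (nat_lit 0) (p (nat_lit 0x8507058482) (nat_lit 0) (p (nat_lit 0x486850402) (nat_lit 0) (p (nat_lit 0x160014)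 (nat_lit 0) (p (nat_lit 0x50612) (nat_lit 0) (p (nat_lit 0x38592) (nat_lit 0) (p (nat_lit 0x40492) (nat_lit 0) (p (nat_lit 0x28412) (nat_lit 0) (p (nat_lit 0x30292) (nat_lit 0) (p (nat_lit 0x18212) (nat_lit 0) (p (nat_lit 0x20092) (nat_lit 0) (p (nat_lit 0x8012) (nat_lit 0) pn))))))))))))))))))))))))))))) :=
  Cl.node (nat_lit 0x41) (nat_lit 2) (by decide +kernel) (ClAll.succ (ClAll.succ ClAll.zero s40) s41)

def n5 : Cl (O (nat_lit 3)) (R (nat_lit 104577))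
    (p (nat_lit 0x20000c) (nat_lit 1) (p (nat_lit 0xb0014) (nat_lit 0) (p (nat_lit 0x200004) (nat_lit 1) (p (nat_lit 0xc1) (nat_lit 0) (p (nat_lit 0x81) (nat_lit 1) (p (nat_lit 0x101) (nat_lit 1) (p (nat_lit 0x111) (nat_lit 0) (p (nat_lit 0xd1) (nat_lit 1) (p (nat_lit 0x89) (nat_lit 0) (p (nat_lit 0x41) (nat_lit 0) (p (nat_lit 0x8a090b098a9a) (nat_lit 0) (p (nat_lit 0x9888a890a1a) (nat_lit 0) (p (nat_lit 0x89080a08879a) (nat_lit 0) (p (nat_lit 0x8878988071a) (nat_lit 0) (p (nat_lit 0x80000800080907888a) (nat_lit 0) (p (nat_lit 0x80000800078887060a) (nat_lit 0) (p (nat_lit 0x8608068782) (nat_lit 0) (p (nat_lit 0x587860702) (nat_lit 0) (p (nat_lit 0x8507058482) (nat_lit 0) (p (nat_lit 0x486850402) (nat_lit 0) (p (nat_lit 0x160014) (nat_lit 0) (p (nat_lit 0x50612) (nat_lit 0) (p (nat_lit 0x38592) (nat_lit 0) (p (nat_lit 0x40492) (nat_lit 0) (p (nat_lit 0x28412) (nat_lit 0) (p (nat_lit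 0x30292) (nat_lit 0) (p (nat_lit 0x18212) (nat_lit 0) (p (nat_lit 0x20092) (nat_lit 0) (p (nat_lit 0x8012) (nat_lit 0) pn))))))))))))))))))))))))))))) :=
  Cl.node (nat_lit 0x119) (nat_lit 2) (by decide +kernel) (ClAll.succ (ClAll.succ ClAll.zero s53) s54)

def n6 : Cl (O (nat_lit 3)) (R (nat_lit 104577))
    (p (nat_lit 0xb0014) (nat_lit 0) (p (nat_lit 0x200004) (nat_lit 1) (p (nat_lit 0xd1) (nat_lit 1) (p (nat_lit 0x111) (nat_lit 1) (p (nat_lit 0x109) (nat_lit 0) (p (nat_lit 0x101) (nat_lit 0) (p (nat_lit 0x119) (nat_lit 0) (p (nat_lit 0xc9) (nat_lit 0) (p (nat_lit 0x89) (nat_lit 1) (p (nat_lit 0x41) (nat_lit 0) (p (nat_lit 0x8a090b098a9a) (nat_lit 0) (p (nat_lit 0x9888a890a1a) (nat_lit 0) (p (nat_lit 0x89080a08879a) (nat_lit 0) (p (nat_lit 0x8878988071a) (nat_lit 0) (p (nat_lit 0x80000800080907888a) (nat_lit 0) (p (nat_lit 0x80000800078887060a) (nat_lit 0) (p (nat_lit 0x8608068782)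 (nat_lit 0) (p (nat_lit 0x587860702) (nat_lit 0) (p (nat_lit 0x8507058482) (nat_lit 0) (p (nat_lit 0x486850402) (nat_lit 0) (p (nat_lit 0x160014) (nat_lit 0) (p (nat_lit 0x50612) (nat_lit 0) (p (nat_lit 0x38592) (nat_lit 0) (p (nat_lit 0x40492) (nat_lit 0) (p (nat_lit 0x28412) (nat_lit 0) (p (nat_lit 0x30292) (nat_lit 0) (p (nat_lit 0x18212) (nat_lit 0) (p (nat_lit 0x20092) (nat_lit 0) (p (nat_lit 0x8012) (nat_lit 0) pn))))))))))))))))))))))))))))) :=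
  Cl.node (nat_lit 0x20000c) (nat_lit 2) (by decide +kernel) (ClAll.succ (ClAll.succ ClAll.zero s68) s69)

def n7 : Cl (O (nat_lit 3)) (R (nat_lit 104577))
    (p (nat_lit 0xb0014) (nat_lit 0) (p (nat_lit 0x20000c) (nat_lit 1) (p (nat_lit 0x200004) (nat_lit 0) (p (nat_lit 0xd1) (nat_lit 1) (p (nat_lit 0x109) (nat_lit 1) (p (nat_lit 0x101) (nat_lit 0) (p (nat_lit 0x119) (nat_lit 0) (p (nat_lit 0xc9) (nat_lit 0) (p (nat_lit 0x89) (nat_lit 1) (p (nat_lit 0x41) (nat_lit 0) (p (nat_lit 0x8a090b098a9a) (nat_lit 0) (p (nat_lit 0x9888a890a1a) (nat_lit 0) (p (nat_lit 0x89080a08879a) (nat_lit 0) (p (nat_lit 0x8878988071a) (nat_lit 0) (p (nat_lit 0x80000800080907888a) (nat_lit 0) (p (nat_lit 0x80000800078887060a) (nat_lit 0) (p (nat_lit 0x8608068782) (nat_lit 0) (p (nat_lit 0x587860702) (nat_lit 0) (p (nat_lit 0x8507058482) (nat_lit 0) (p (nat_lit 0x486850402) (nat_lit 0) (p (nat_lit 0x160014)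 (nat_lit 0) (p (nat_lit 0x50612) (nat_lit 0) (p (nat_lit 0x38592) (nat_lit 0) (p (nat_lit 0x40492) (nat_lit 0) (p (nat_lit 0x28412) (nat_lit 0) (p (nat_lit 0x30292) (nat_lit 0) (p (nat_lit 0x18212) (nat_lit 0) (p (nat_lit 0x20092) (nat_lit 0) (p (nat_lit 0x8012) (nat_lit 0) pn))))))))))))))))))))))))))))) :=
  Cl.node (nat_lit 0x41) (nat_lit 2) (by decide +kernel) (ClAll.succ (ClAll.succ ClAll.zero s75) s76)

def n8 : Cl (O (nat_lit 3)) (R (nat_lit 104577))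
    (p (nat_lit 0x20000c) (nat_lit 1) (p (nat_lit 0xb0014) (nat_lit 0) (p (nat_lit 0x200004) (nat_lit 1) (p (nat_lit 0xd1) (nat_lit 1) (p (nat_lit 0x109) (nat_lit 1) (p (nat_lit 0x101) (nat_lit 0) (p (nat_lit 0x119) (nat_lit 0) (p (nat_lit 0xc9) (nat_lit 0) (p (nat_lit 0x89) (nat_lit 1) (p (nat_lit 0x41) (nat_lit 0) (p (nat_lit 0x8a090b098a9a) (nat_lit 0) (p (nat_lit 0x9888a890a1a) (nat_lit 0) (p (nat_lit 0x89080a08879a) (nat_lit 0) (p (nat_lit 0x8878988071a) (nat_lit 0) (p (nat_lit 0x80000800080907888a) (nat_lit 0) (p (nat_lit 0x80000800078887060a) (nat_lit 0) (p (nat_lit 0x8608068782) (nat_lit 0) (p (nat_lit 0x587860702) (nat_lit 0) (p (nat_lit 0x8507058482) (nat_lit 0) (p (nat_lit 0x486850402) (nat_lit 0) (p (nat_lit 0x160014) (nat_lit 0) (p (nat_lit 0x50612) (nat_lit 0) (p (nat_lit 0x38592) (nat_lit 0) (p (nat_lit 0x40492) (nat_lit 0) (p (nat_lit 0x28412) (nat_lit 0) (p (nat_lit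 0x30292) (nat_lit 0) (p (nat_lit 0x18212) (nat_lit 0) (p (nat_lit 0x20092) (nat_lit 0) (p (nat_lit 0x8012) (nat_lit 0) pn))))))))))))))))))))))))))))) :=
  Cl.node (nat_lit 0x41) (nat_lit 2) (by decide +kernel) (ClAll.succ (ClAll.succ ClAll.zero s79) s80)

def n9 : Cl (O (nat_lit 3)) (R (nat_lit 104577))
    (p (nat_lit 0xb0014) (nat_lit 0) (p (nat_lit 0x20000c) (nat_lit 1) (p (nat_lit 0x200004) (nat_lit 0) (p (nat_lit 0x111) (nat_lit 1) (p (nat_lit 0x101) (nat_lit 0) (p (nat_lit 0xc1) (nat_lit 1) (p (nat_lit 0x119) (nat_lit 1) (p (nat_lit 0xc9) (nat_lit 0) (p (nat_lit 0x89) (nat_lit 1) (p (nat_lit 0x41) (nat_lit 0) (p (nat_lit 0x8a090b098a9a) (nat_lit 0) (p (nat_lit 0x9888a890a1a) (nat_lit 0) (p (nat_lit 0x89080a08879a) (nat_lit 0) (p (nat_lit 0x8878988071a) (nat_lit 0) (p (nat_lit 0x80000800080907888a) (nat_lit 0) (p (nat_lit 0x80000800078887060a) (nat_lit 0) (p (nat_lit 0x8608068782)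 (nat_lit 0) (p (nat_lit 0x587860702) (nat_lit 0) (p (nat_lit 0x8507058482) (nat_lit 0) (p (nat_lit 0x486850402) (nat_lit 0) (p (nat_lit 0x160014) (nat_lit 0) (p (nat_lit 0x50612) (nat_lit 0) (p (nat_lit 0x38592) (nat_lit 0) (p (nat_lit 0x40492) (nat_lit 0) (p (nat_lit 0x28412) (nat_lit 0) (p (nat_lit 0x30292) (nat_lit 0) (p (nat_lit 0x18212) (nat_lit 0) (p (nat_lit 0x20092) (nat_lit 0) (p (nat_lit 0x8012) (nat_lit 0) pn))))))))))))))))))))))))))))) :=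
  Cl.node (nat_lit 0xd1) (nat_lit 2) (by decide +kernel) (ClAll.succ (ClAll.succ ClAll.zero s95) s96)

def n10 : Cl (O (nat_lit 3)) (R (nat_lit 104577))
    (p (nat_lit 0x20000c) (nat_lit 0) (p (nat_lit 0xb0014) (nat_lit 0) (p (nat_lit 0x200004) (nat_lit 1) (p (nat_lit 0xc9) (nat_lit 0) (p (nat_lit 0x89) (nat_lit 1) (p (nat_lit 0x101) (nat_lit 1) (p (nat_lit 0x111) (nat_lit 0) (p (nat_lit 0xd1) (nat_lit 1) (p (nat_lit 0x81) (nat_lit 0) (p (nat_lit 0x41) (nat_lit 1) (p (nat_lit 0x8a090b098a9a) (nat_lit 0) (p (nat_lit 0x9888a890a1a) (nat_lit 0) (p (nat_lit 0x89080a08879a) (nat_lit 0) (p (nat_lit 0x8878988071a) (nat_lit 0) (p (nat_lit 0x80000800080907888a) (nat_lit 0) (p (nat_lit 0x80000800078887060a) (nat_lit 0) (p (nat_lit 0x8608068782) (nat_lit 0) (p (nat_lit 0x587860702) (nat_lit 0) (p (nat_lit 0x8507058482) (nat_lit 0) (p (nat_lit 0x486850402) (nat_lit 0) (p (nat_lit 0x160014)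 (nat_lit 0) (p (nat_lit 0x50612) (nat_lit 0) (p (nat_lit 0x38592) (nat_lit 0) (p (nat_lit 0x40492) (nat_lit 0) (p (nat_lit 0x28412) (nat_lit 0) (p (nat_lit 0x30292) (nat_lit 0) (p (nat_lit 0x18212) (nat_lit 0) (p (nat_lit 0x20092) (nat_lit 0) (p (nat_lit 0x8012) (nat_lit 0) pn))))))))))))))))))))))))))))) :=
  Cl.node (nat_lit 0x119) (nat_lit 2) (by decide +kernel) (ClAll.succ (ClAll.succ ClAll.zero n0) s142)

def n11 : Cl (O (nat_lit 3)) (R (nat_lit 104577))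
    (p (nat_lit 0x20000c) (nat_lit 0) (p (nat_lit 0xb0014) (nat_lit 0) (p (nat_lit 0x200004) (nat_lit 1) (p (nat_lit 0x109) (nat_lit 0) (p (nat_lit 0xc9) (nat_lit 1) (p (nat_lit 0x89) (nat_lit 1) (p (nat_lit 0x111) (nat_lit 1) (p (nat_lit 0xd1) (nat_lit 1) (p (nat_lit 0x81) (nat_lit 0) (p (nat_lit 0x41) (nat_lit 1) (p (nat_lit 0x8a090b098a9a) (nat_lit 0) (p (nat_lit 0x9888a890a1a) (nat_lit 0) (p (nat_lit 0x89080a08879a) (nat_lit 0) (p (nat_lit 0x8878988071a) (nat_lit 0) (p (nat_lit 0x80000800080907888a) (nat_lit 0) (p (nat_lit 0x80000800078887060a) (nat_lit 0) (p (nat_lit 0x8608068782) (nat_lit 0) (p (nat_lit 0x587860702) (nat_lit 0) (p (nat_lit 0x8507058482) (nat_lit 0) (p (nat_lit 0x486850402) (nat_lit 0) (p (nat_lit 0x160014) (nat_lit 0) (p (nat_lit 0x50612) (nat_lit 0) (p (nat_lit 0x38592) (nat_lit 0) (p (nat_lit 0x40492) (nat_lit 0) (p (nat_lit 0x28412) (nat_lit 0) (p (nat_lit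 0x30292) (nat_lit 0) (p (nat_lit 0x18212) (nat_lit 0) (p (nat_lit 0x20092) (nat_lit 0) (p (nat_lit 0x8012) (nat_lit 0) pn))))))))))))))))))))))))))))) :=
  Cl.node (nat_lit 0x101) (nat_lit 2) (by decide +kernel) (ClAll.succ (ClAll.succ ClAll.zero s149) s150)

def n12 : Cl (O (nat_lit 3)) (R (nat_lit 104577))
    (p (nat_lit 0x20000c) (nat_lit 1) (p (nat_lit 0x200004) (nat_lit 0) (p (nat_lit 0xc9) (nat_lit 1) (p (nat_lit 0x109) (nat_lit 1) (p (nat_lit 0x101) (nat_lit 0) (p (nat_lit 0x119) (nat_lit 0) (p (nat_lit 0xd1) (nat_lit 0) (p (nat_lit 0x89) (nat_lit 0) (p (nat_lit 0x41) (nat_lit 0) (p (nat_lit 0x8a090b098a9a) (nat_lit 0) (p (nat_lit 0x9888a890a1a) (nat_lit 0) (p (nat_lit 0x89080a08879a) (nat_lit 0) (p (nat_lit 0x8878988071a) (nat_lit 0) (p (nat_lit 0x80000800080907888a) (nat_lit 0) (p (nat_lit 0x80000800078887060a) (nat_lit 0) (p (nat_lit 0x8608068782) (nat_lit 0) (p (nat_lit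 0x587860702) (nat_lit 0) (p (nat_lit 0x8507058482) (nat_lit 0) (p (nat_lit 0x486850402) (nat_lit 0) (p (nat_lit 0x160014) (nat_lit 0) (p (nat_lit 0x50612) (nat_lit 0) (p (nat_lit 0x38592) (nat_lit 0) (p (nat_lit 0x40492) (nat_lit 0) (p (nat_lit 0x28412) (nat_lit 0) (p (nat_lit 0x30292) (nat_lit 0) (p (nat_lit 0x18212) (nat_lit 0) (p (nat_lit 0x20092) (nat_lit 0) (p (nat_lit 0x8012) (nat_lit 0) pn)))))))))))))))))))))))))))) :=
  Cl.node (nat_lit 0xb0014) (nat_lit 2) (by decide +kernel) (ClAll.succ (ClAll.succ ClAll.zero n1) s5)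

def n13 : Cl (O (nat_lit 3)) (R (nat_lit 104577))
    (p (nat_lit 0xb0014) (nat_lit 0) (p (nat_lit 0x200004) (nat_lit 1) (p (nat_lit 0xc9) (nat_lit 1) (p (nat_lit 0x109) (nat_lit 1) (p (nat_lit 0x101) (nat_lit 0) (p (nat_lit 0x119) (nat_lit 0) (p (nat_lit 0xd1) (nat_lit 0) (p (nat_lit 0x89) (nat_lit 0) (p (nat_lit 0x41) (nat_lit 0) (p (nat_lit 0x8a090b098a9a) (nat_lit 0) (p (nat_lit 0x9888a890a1a) (nat_lit 0) (p (nat_lit 0x89080a08879a) (nat_lit 0) (p (nat_lit 0x8878988071a) (nat_lit 0) (p (nat_lit 0x80000800080907888a) (nat_lit 0) (p (nat_lit 0x80000800078887060a) (nat_lit 0) (p (nat_lit 0x8608068782) (nat_lit 0) (p (nat_lit 0x587860702) (nat_lit 0) (p (nat_lit 0x8507058482) (nat_lit 0) (p (nat_lit 0x486850402) (nat_lit 0) (p (nat_lit 0x160014) (nat_lit 0) (p (nat_lit 0x50612) (nat_lit 0) (p (nat_lit 0x38592) (nat_lit 0) (p (nat_lit 0x40492) (nat_lit 0) (p (nat_lit 0x28412) (nat_lit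 0) (p (nat_lit 0x30292) (nat_lit 0) (p (nat_lit 0x18212) (nat_lit 0) (p (nat_lit 0x20092) (nat_lit 0) (p (nat_lit 0x8012) (nat_lit 0) pn)))))))))))))))))))))))))))) :=
  Cl.node (nat_lit 0x20000c) (nat_lit 2) (by decide +kernel) (ClAll.succ (ClAll.succ ClAll.zero n2) s8)

def n14 : Cl (O (nat_lit 3)) (R (nat_lit 104577))
    (p (nat_lit 0xb0014) (nat_lit 0) (p (nat_lit 0x200004) (nat_lit 1) (p (nat_lit 0xc9) (nat_lit 1) (p (nat_lit 0x81) (nat_lit 0) (p (nat_lit 0x101) (nat_lit 1) (p (nat_lit 0x119) (nat_lit 0) (p (nat_lit 0xd1) (nat_lit 0) (p (nat_lit 0x89) (nat_lit 0) (p (nat_lit 0x41) (nat_lit 0) (p (nat_lit 0x8a090b098a9a) (nat_lit 0) (p (nat_lit 0x9888a890a1a) (nat_lit 0) (p (nat_lit 0x89080a08879a) (nat_lit 0) (p (nat_lit 0x8878988071a) (nat_lit 0) (p (nat_lit 0x80000800080907888a) (nat_lit 0) (p (nat_lit 0x80000800078887060a) (nat_lit 0) (p (nat_lit 0x8608068782) (nat_lit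 0) (p (nat_lit 0x587860702) (nat_lit 0) (p (nat_lit 0x8507058482) (nat_lit 0) (p (nat_lit 0x486850402) (nat_lit 0) (p (nat_lit 0x160014) (nat_lit 0) (p (nat_lit 0x50612) (nat_lit 0) (p (nat_lit 0x38592) (nat_lit 0) (p (nat_lit 0x40492) (nat_lit 0) (p (nat_lit 0x28412) (nat_lit 0) (p (nat_lit 0x30292) (nat_lit 0) (p (nat_lit 0x18212) (nat_lit 0) (p (nat_lit 0x20092) (nat_lit 0) (p (nat_lit 0x8012) (nat_lit 0) pn)))))))))))))))))))))))))))) :=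
  Cl.node (nat_lit 0x20000c) (nat_lit 2) (by decide +kernel) (ClAll.succ (ClAll.succ ClAll.zero s14) s15)

def n15 : Cl (O (nat_lit 3)) (R (nat_lit 104577))
    (p (nat_lit 0x200004) (nat_lit 0) (p (nat_lit 0x109) (nat_lit 1) (p (nat_lit 0x101) (nat_lit 0) (p (nat_lit 0x81) (nat_lit 1) (p (nat_lit 0xc1) (nat_lit 1) (p (nat_lit 0x119) (nat_lit 1) (p (nat_lit 0xd1) (nat_lit 0) (p (nat_lit 0x89) (nat_lit 0) (p (nat_lit 0x41) (nat_lit 0) (p (nat_lit 0x8a090b098a9a) (nat_lit 0) (p (nat_lit 0x9888a890a1a) (nat_lit 0) (p (nat_lit 0x89080a08879a) (nat_lit 0) (p (nat_lit 0x8878988071a) (nat_lit 0) (p (nat_lit 0x80000800080907888a) (nat_lit 0) (p (nat_lit 0x80000800078887060a) (nat_lit 0) (p (nat_lit 0x8608068782) (nat_lit 0) (p (nat_lit 0x587860702) (nat_lit 0) (p (nat_lit 0x8507058482) (nat_lit 0) (p (nat_lit 0x486850402) (nat_lit 0) (p (nat_lit 0x160014) (nat_lit 0) (p (nat_lit 0x50612)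 (nat_lit 0) (p (nat_lit 0x38592) (nat_lit 0) (p (nat_lit 0x40492) (nat_lit 0) (p (nat_lit 0x28412) (nat_lit 0) (p (nat_lit 0x30292) (nat_lit 0) (p (nat_lit 0x18212) (nat_lit 0) (p (nat_lit 0x20092) (nat_lit 0) (p (nat_lit 0x8012) (nat_lit 0) pn)))))))))))))))))))))))))))) :=
  Cl.node (nat_lit 0x20000c) (nat_lit 2) (by decide +kernel) (ClAll.succ (ClAll.succ ClAll.zero s29) s30)

def n16 : Cl (O (nat_lit 3)) (R (nat_lit 104577))
    (p (nat_lit 0xb0014) (nat_lit 0) (p (nat_lit 0x20000c) (nat_lit 1) (p (nat_lit 0x200004) (nat_lit 0) (p (nat_lit 0x109) (nat_lit 1) (p (nat_lit 0x101) (nat_lit 0) (p (nat_lit 0x111) (nat_lit 0) (p (nat_lit 0xd1) (nat_lit 1) (p (nat_lit 0x89) (nat_lit 0) (p (nat_lit 0x41) (nat_lit 0) (p (nat_lit 0x8a090b098a9a) (nat_lit 0) (p (nat_lit 0x9888a890a1a) (nat_lit 0) (p (nat_lit 0x89080a08879a) (nat_lit 0) (p (nat_lit 0x8878988071a) (nat_lit 0) (p (nat_lit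 0x80000800080907888a) (nat_lit 0) (p (nat_lit 0x80000800078887060a) (nat_lit 0) (p (nat_lit 0x8608068782) (nat_lit 0) (p (nat_lit 0x587860702) (nat_lit 0) (p (nat_lit 0x8507058482) (nat_lit 0) (p (nat_lit 0x486850402) (nat_lit 0) (p (nat_lit 0x160014) (nat_lit 0) (p (nat_lit 0x50612) (nat_lit 0) (p (nat_lit 0x38592) (nat_lit 0) (p (nat_lit 0x40492) (nat_lit 0) (p (nat_lit 0x28412) (nat_lit 0) (p (nat_lit 0x30292) (nat_lit 0) (p (nat_lit 0x18212) (nat_lit 0) (p (nat_lit 0x20092) (nat_lit 0) (p (nat_lit 0x8012) (nat_lit 0) pn)))))))))))))))))))))))))))) :=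
  Cl.node (nat_lit 0xc1) (nat_lit 2) (by decide +kernel) (ClAll.succ (ClAll.succ ClAll.zero s35) n3)

def n17 : Cl (O (nat_lit 3)) (R (nat_lit 104577))
    (p (nat_lit 0x20000c) (nat_lit 0) (p (nat_lit 0xb0014) (nat_lit 0) (p (nat_lit 0x200004) (nat_lit 1) (p (nat_lit 0x109) (nat_lit 1) (p (nat_lit 0x101) (nat_lit 0) (p (nat_lit 0x111) (nat_lit 0) (p (nat_lit 0xd1) (nat_lit 1) (p (nat_lit 0x89) (nat_lit 0) (p (nat_lit 0x41) (nat_lit 0) (p (nat_lit 0x8a090b098a9a) (nat_lit 0) (p (nat_lit 0x9888a890a1a) (nat_lit 0) (p (nat_lit 0x89080a08879a) (nat_lit 0) (p (nat_lit 0x8878988071a) (nat_lit 0) (p (nat_lit 0x80000800080907888a) (nat_lit 0) (p (nat_lit 0x80000800078887060a) (nat_lit 0) (p (nat_lit 0x8608068782) (nat_lit 0) (p (nat_lit 0x587860702) (nat_lit 0) (p (nat_lit 0x8507058482) (nat_lit 0) (p (nat_lit 0x486850402) (nat_lit 0) (p (nat_lit 0x160014) (nat_lit 0) (p (nat_lit 0x50612)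 (nat_lit 0) (p (nat_lit 0x38592) (nat_lit 0) (p (nat_lit 0x40492) (nat_lit 0) (p (nat_lit 0x28412) (nat_lit 0) (p (nat_lit 0x30292) (nat_lit 0) (p (nat_lit 0x18212) (nat_lit 0) (p (nat_lit 0x20092) (nat_lit 0) (p (nat_lit 0x8012) (nat_lit 0) pn)))))))))))))))))))))))))))) :=
  Cl.node (nat_lit 0xc1) (nat_lit 2) (by decide +kernel) (ClAll.succ (ClAll.succ ClAll.zero s39) n4)

def n18 : Cl (O (nat_lit 3)) (R (nat_lit 104577))
    (p (nat_lit 0x20000c) (nat_lit 0) (p (nat_lit 0xb0014) (nat_lit 0) (p (nat_lit 0x200004) (nat_lit 1) (p (nat_lit 0x81) (nat_lit 0) (p (nat_lit 0x101) (nat_lit 1) (p (nat_lit 0x111) (nat_lit 0) (p (nat_lit 0xd1) (nat_lit 1) (p (nat_lit 0x89) (nat_lit 0) (p (nat_lit 0x41) (nat_lit 0) (p (nat_lit 0x8a090b098a9a) (nat_lit 0) (p (nat_lit 0x9888a890a1a) (nat_lit 0) (p (nat_lit 0x89080a08879a) (nat_lit 0) (p (nat_lit 0x8878988071a) (nat_lit 0) (p (nat_lit 0x80000800080907888a)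 (nat_lit 0) (p (nat_lit 0x80000800078887060a) (nat_lit 0) (p (nat_lit 0x8608068782) (nat_lit 0) (p (nat_lit 0x587860702) (nat_lit 0) (p (nat_lit 0x8507058482) (nat_lit 0) (p (nat_lit 0x486850402) (nat_lit 0) (p (nat_lit 0x160014) (nat_lit 0) (p (nat_lit 0x50612) (nat_lit 0) (p (nat_lit 0x38592) (nat_lit 0) (p (nat_lit 0x40492) (nat_lit 0) (p (nat_lit 0x28412) (nat_lit 0) (p (nat_lit 0x30292) (nat_lit 0) (p (nat_lit 0x18212) (nat_lit 0) (p (nat_lit 0x20092) (nat_lit 0) (p (nat_lit 0x8012) (nat_lit 0) pn)))))))))))))))))))))))))))) :=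
  Cl.node (nat_lit 0x119) (nat_lit 2) (by decide +kernel) (ClAll.succ (ClAll.succ ClAll.zero s46) s47)

def n19 : Cl (O (nat_lit 3)) (R (nat_lit 104577))
    (p (nat_lit 0xb0014) (nat_lit 0) (p (nat_lit 0x200004) (nat_lit 1) (p (nat_lit 0xc1) (nat_lit 0) (p (nat_lit 0x81) (nat_lit 1) (p (nat_lit 0x101) (nat_lit 1) (p (nat_lit 0x111) (nat_lit 0) (p (nat_lit 0xd1) (nat_lit 1) (p (nat_lit 0x89) (nat_lit 0) (p (nat_lit 0x41) (nat_lit 0) (p (nat_lit 0x8a090b098a9a) (nat_lit 0) (p (nat_lit 0x9888a890a1a) (nat_lit 0) (p (nat_lit 0x89080a08879a) (nat_lit 0) (p (nat_lit 0x8878988071a) (nat_lit 0) (p (nat_lit 0x80000800080907888a) (nat_lit 0) (p (nat_lit 0x80000800078887060a) (nat_lit 0) (p (nat_lit 0x8608068782) (nat_lit 0) (p (nat_lit 0x587860702) (nat_lit 0) (p (nat_lit 0x8507058482) (nat_lit 0) (p (nat_lit 0x486850402) (nat_lit 0) (p (nat_lit 0x160014) (nat_lit 0) (p (nat_lit 0x50612)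 (nat_lit 0) (p (nat_lit 0x38592) (nat_lit 0) (p (nat_lit 0x40492) (nat_lit 0) (p (nat_lit 0x28412) (nat_lit 0) (p (nat_lit 0x30292) (nat_lit 0) (p (nat_lit 0x18212) (nat_lit 0) (p (nat_lit 0x20092) (nat_lit 0) (p (nat_lit 0x8012) (nat_lit 0) pn)))))))))))))))))))))))))))) :=
  Cl.node (nat_lit 0x20000c) (nat_lit 2) (by decide +kernel) (ClAll.succ (ClAll.succ ClAll.zero s52) n5)

def n20 : Cl (O (nat_lit 3)) (R (nat_lit 104577))
    (p (nat_lit 0xb0014) (nat_lit 0) (p (nat_lit 0x200004) (nat_lit 1) (p (nat_lit 0x101) (nat_lit 0) (p (nat_lit 0xc1) (nat_lit 1) (p (nat_lit 0x81) (nat_lit 1) (p (nat_lit 0x111) (nat_lit 1) (p (nat_lit 0xd1) (nat_lit 1) (p (nat_lit 0x89) (nat_lit 0) (p (nat_lit 0x41) (nat_lit 0) (p (nat_lit 0x8a090b098a9a) (nat_lit 0) (p (nat_lit 0x9888a890a1a) (nat_lit 0) (p (nat_lit 0x89080a08879a) (nat_lit 0) (p (nat_lit 0x8878988071a) (nat_lit 0) (p (nat_lit 0x80000800080907888a)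 (nat_lit 0) (p (nat_lit 0x80000800078887060a) (nat_lit 0) (p (nat_lit 0x8608068782) (nat_lit 0) (p (nat_lit 0x587860702) (nat_lit 0) (p (nat_lit 0x8507058482) (nat_lit 0) (p (nat_lit 0x486850402) (nat_lit 0) (p (nat_lit 0x160014) (nat_lit 0) (p (nat_lit 0x50612) (nat_lit 0) (p (nat_lit 0x38592) (nat_lit 0) (p (nat_lit 0x40492) (nat_lit 0) (p (nat_lit 0x28412) (nat_lit 0) (p (nat_lit 0x30292) (nat_lit 0) (p (nat_lit 0x18212) (nat_lit 0) (p (nat_lit 0x20092) (nat_lit 0) (p (nat_lit 0x8012) (nat_lit 0) pn)))))))))))))))))))))))))))) :=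
  Cl.node (nat_lit 0x20000c) (nat_lit 2) (by decide +kernel) (ClAll.succ (ClAll.succ ClAll.zero s60) s61)

def n21 : Cl (O (nat_lit 3)) (R (nat_lit 104577))
    (p (nat_lit 0x200004) (nat_lit 0) (p (nat_lit 0xd1) (nat_lit 1) (p (nat_lit 0x111) (nat_lit 1) (p (nat_lit 0x109) (nat_lit 0) (p (nat_lit 0x101) (nat_lit 0) (p (nat_lit 0x119) (nat_lit 0) (p (nat_lit 0xc9) (nat_lit 0) (p (nat_lit 0x89) (nat_lit 1) (p (nat_lit 0x41) (nat_lit 0) (p (nat_lit 0x8a090b098a9a) (nat_lit 0) (p (nat_lit 0x9888a890a1a) (nat_lit 0) (p (nat_lit 0x89080a08879a) (nat_lit 0) (p (nat_lit 0x8878988071a) (nat_lit 0) (p (nat_lit 0x80000800080907888a) (nat_lit 0) (p (nat_lit 0x80000800078887060a) (nat_lit 0) (p (nat_lit 0x8608068782) (nat_lit 0) (p (nat_lit 0x587860702) (nat_lit 0) (p (nat_lit 0x8507058482) (nat_lit 0) (p (nat_lit 0x486850402) (nat_lit 0) (p (nat_lit 0x160014) (nat_lit 0) (p (nat_lit 0x50612)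 (nat_lit 0) (p (nat_lit 0x38592) (nat_lit 0) (p (nat_lit 0x40492) (nat_lit 0) (p (nat_lit 0x28412) (nat_lit 0) (p (nat_lit 0x30292) (nat_lit 0) (p (nat_lit 0x18212) (nat_lit 0) (p (nat_lit 0x20092) (nat_lit 0) (p (nat_lit 0x8012) (nat_lit 0) pn)))))))))))))))))))))))))))) :=
  Cl.node (nat_lit 0x20000c) (nat_lit 2) (by decide +kernel) (ClAll.succ (ClAll.succ ClAll.zero s66) s67)

def n22 : Cl (O (nat_lit 3)) (R (nat_lit 104577))
    (p (nat_lit 0x200004) (nat_lit 1) (p (nat_lit 0xd1) (nat_lit 1) (p (nat_lit 0x111) (nat_lit 1) (p (nat_lit 0x109) (nat_lit 0) (p (nat_lit 0x101) (nat_lit 0) (p (nat_lit 0x119) (nat_lit 0) (p (nat_lit 0xc9) (nat_lit 0) (p (nat_lit 0x89) (nat_lit 1) (p (nat_lit 0x41) (nat_lit 0) (p (nat_lit 0x8a090b098a9a) (nat_lit 0) (p (nat_lit 0x9888a890a1a) (nat_lit 0) (p (nat_lit 0x89080a08879a) (nat_lit 0) (p (nat_lit 0x8878988071a) (nat_lit 0) (p (nat_lit 0x80000800080907888a)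 (nat_lit 0) (p (nat_lit 0x80000800078887060a) (nat_lit 0) (p (nat_lit 0x8608068782) (nat_lit 0) (p (nat_lit 0x587860702) (nat_lit 0) (p (nat_lit 0x8507058482) (nat_lit 0) (p (nat_lit 0x486850402) (nat_lit 0) (p (nat_lit 0x160014) (nat_lit 0) (p (nat_lit 0x50612) (nat_lit 0) (p (nat_lit 0x38592) (nat_lit 0) (p (nat_lit 0x40492) (nat_lit 0) (p (nat_lit 0x28412) (nat_lit 0) (p (nat_lit 0x30292) (nat_lit 0) (p (nat_lit 0x18212) (nat_lit 0) (p (nat_lit 0x20092) (nat_lit 0) (p (nat_lit 0x8012) (nat_lit 0) pn)))))))))))))))))))))))))))) :=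
  Cl.node (nat_lit 0xb0014) (nat_lit 2) (by decide +kernel) (ClAll.succ (ClAll.succ ClAll.zero n6) s70)

def n23 : Cl (O (nat_lit 3)) (R (nat_lit 104577))
    (p (nat_lit 0x20000c) (nat_lit 1) (p (nat_lit 0x200004) (nat_lit 0) (p (nat_lit 0xd1) (nat_lit 1) (p (nat_lit 0x109) (nat_lit 1) (p (nat_lit 0x101) (nat_lit 0) (p (nat_lit 0x119) (nat_lit 0) (p (nat_lit 0xc9) (nat_lit 0) (p (nat_lit 0x89) (nat_lit 1) (p (nat_lit 0x41) (nat_lit 0) (p (nat_lit 0x8a090b098a9a) (nat_lit 0) (p (nat_lit 0x9888a890a1a) (nat_lit 0) (p (nat_lit 0x89080a08879a) (nat_lit 0) (p (nat_lit 0x8878988071a) (nat_lit 0) (p (nat_lit 0x80000800080907888a) (nat_lit 0) (p (nat_lit 0x80000800078887060a) (nat_lit 0) (p (nat_lit 0x8608068782) (nat_lit 0) (p (nat_lit 0x587860702) (nat_lit 0) (p (nat_lit 0x8507058482) (nat_lit 0) (p (nat_lit 0x486850402) (nat_lit 0) (p (nat_lit 0x160014) (nat_lit 0) (p (nat_lit 0x50612)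 (nat_lit 0) (p (nat_lit 0x38592) (nat_lit 0) (p (nat_lit 0x40492) (nat_lit 0) (p (nat_lit 0x28412) (nat_lit 0) (p (nat_lit 0x30292) (nat_lit 0) (p (nat_lit 0x18212) (nat_lit 0) (p (nat_lit 0x20092) (nat_lit 0) (p (nat_lit 0x8012) (nat_lit 0) pn)))))))))))))))))))))))))))) :=
  Cl.node (nat_lit 0xb0014) (nat_lit 2) (by decide +kernel) (ClAll.succ (ClAll.succ ClAll.zero n7) s77)

def n24 : Cl (O (nat_lit 3)) (R (nat_lit 104577))
    (p (nat_lit 0xb0014) (nat_lit 0) (p (nat_lit 0x200004) (nat_lit 1) (p (nat_lit 0xd1) (nat_lit 1) (p (nat_lit 0x109) (nat_lit 1) (p (nat_lit 0x101) (nat_lit 0) (p (nat_lit 0x119) (nat_lit 0) (p (nat_lit 0xc9) (nat_lit 0) (p (nat_lit 0x89) (nat_lit 1) (p (nat_lit 0x41) (nat_lit 0) (p (nat_lit 0x8a090b098a9a) (nat_lit 0) (p (nat_lit 0x9888a890a1a) (nat_lit 0) (p (nat_lit 0x89080a08879a) (nat_lit 0) (p (nat_lit 0x8878988071a) (nat_lit 0) (p (nat_lit 0x80000800080907888a)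 (nat_lit 0) (p (nat_lit 0x80000800078887060a) (nat_lit 0) (p (nat_lit 0x8608068782) (nat_lit 0) (p (nat_lit 0x587860702) (nat_lit 0) (p (nat_lit 0x8507058482) (nat_lit 0) (p (nat_lit 0x486850402) (nat_lit 0) (p (nat_lit 0x160014) (nat_lit 0) (p (nat_lit 0x50612) (nat_lit 0) (p (nat_lit 0x38592) (nat_lit 0) (p (nat_lit 0x40492) (nat_lit 0) (p (nat_lit 0x28412) (nat_lit 0) (p (nat_lit 0x30292) (nat_lit 0) (p (nat_lit 0x18212) (nat_lit 0) (p (nat_lit 0x20092) (nat_lit 0) (p (nat_lit 0x8012) (nat_lit 0) pn)))))))))))))))))))))))))))) :=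
  Cl.node (nat_lit 0x20000c) (nat_lit 2) (by decide +kernel) (ClAll.succ (ClAll.succ ClAll.zero s78) n8)

def n25 : Cl (O (nat_lit 3)) (R (nat_lit 104577))
    (p (nat_lit 0x20000c) (nat_lit 1) (p (nat_lit 0x200004) (nat_lit 0) (p (nat_lit 0x111) (nat_lit 1) (p (nat_lit 0x101) (nat_lit 0) (p (nat_lit 0xc1) (nat_lit 1) (p (nat_lit 0x119) (nat_lit 1) (p (nat_lit 0xc9) (nat_lit 0) (p (nat_lit 0x89) (nat_lit 1) (p (nat_lit 0x41) (nat_lit 0) (p (nat_lit 0x8a090b098a9a) (nat_lit 0) (p (nat_lit 0x9888a890a1a) (nat_lit 0) (p (nat_lit 0x89080a08879a) (nat_lit 0) (p (nat_lit 0x8878988071a) (nat_lit 0) (p (nat_lit 0x80000800080907888a) (nat_lit 0) (p (nat_lit 0x80000800078887060a) (nat_lit 0) (p (nat_lit 0x8608068782) (nat_lit 0) (p (nat_lit 0x587860702) (nat_lit 0) (p (nat_lit 0x8507058482) (nat_lit 0) (p (nat_lit 0x486850402) (nat_lit 0) (p (nat_lit 0x160014) (nat_lit 0) (p (nat_lit 0x50612)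 (nat_lit 0) (p (nat_lit 0x38592) (nat_lit 0) (p (nat_lit 0x40492) (nat_lit 0) (p (nat_lit 0x28412) (nat_lit 0) (p (nat_lit 0x30292) (nat_lit 0) (p (nat_lit 0x18212) (nat_lit 0) (p (nat_lit 0x20092) (nat_lit 0) (p (nat_lit 0x8012) (nat_lit 0) pn)))))))))))))))))))))))))))) :=
  Cl.node (nat_lit 0xb0014) (nat_lit 2) (by decide +kernel) (ClAll.succ (ClAll.succ ClAll.zero n9) s97)

def n26 : Cl (O (nat_lit 3)) (R (nat_lit 104577))
    (p (nat_lit 0xb0014) (nat_lit 0) (p (nat_lit 0x200004) (nat_lit 1) (p (nat_lit 0x89) (nat_lit 1) (p (nat_lit 0xc1) (nat_lit 1) (p (nat_lit 0x101) (nat_lit 1) (p (nat_lit 0x119) (nat_lit 0) (p (nat_lit 0xd1) (nat_lit 0) (p (nat_lit 0x81) (nat_lit 0) (p (nat_lit 0x41) (nat_lit 1) (p (nat_lit 0x8a090b098a9a) (nat_lit 0) (p (nat_lit 0x9888a890a1a) (nat_lit 0) (p (nat_lit 0x89080a08879a) (nat_lit 0) (p (nat_lit 0x8878988071a) (nat_lit 0) (p (nat_lit 0x80000800080907888a)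 (nat_lit 0) (p (nat_lit 0x80000800078887060a) (nat_lit 0) (p (nat_lit 0x8608068782) (nat_lit 0) (p (nat_lit 0x587860702) (nat_lit 0) (p (nat_lit 0x8507058482) (nat_lit 0) (p (nat_lit 0x486850402) (nat_lit 0) (p (nat_lit 0x160014) (nat_lit 0) (p (nat_lit 0x50612) (nat_lit 0) (p (nat_lit 0x38592) (nat_lit 0) (p (nat_lit 0x40492) (nat_lit 0) (p (nat_lit 0x28412) (nat_lit 0) (p (nat_lit 0x30292) (nat_lit 0) (p (nat_lit 0x18212) (nat_lit 0) (p (nat_lit 0x20092) (nat_lit 0) (p (nat_lit 0x8012) (nat_lit 0) pn)))))))))))))))))))))))))))) :=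
  Cl.node (nat_lit 0x20000c) (nat_lit 2) (by decide +kernel) (ClAll.succ (ClAll.succ ClAll.zero s118) s119)

def n27 : Cl (O (nat_lit 3)) (R (nat_lit 104577))
    (p (nat_lit 0x20000c) (nat_lit 0) (p (nat_lit 0xb0014) (nat_lit 0) (p (nat_lit 0x200004) (nat_lit 1) (p (nat_lit 0x89) (nat_lit 0) (p (nat_lit 0x101) (nat_lit 1) (p (nat_lit 0x111) (nat_lit 0) (p (nat_lit 0xd1) (nat_lit 1) (p (nat_lit 0x81) (nat_lit 0) (p (nat_lit 0x41) (nat_lit 1) (p (nat_lit 0x8a090b098a9a) (nat_lit 0) (p (nat_lit 0x9888a890a1a) (nat_lit 0) (p (nat_lit 0x89080a08879a) (nat_lit 0) (p (nat_lit 0x8878988071a) (nat_lit 0) (p (nat_lit 0x80000800080907888a) (nat_lit 0) (p (nat_lit 0x80000800078887060a) (nat_lit 0) (p (nat_lit 0x8608068782) (nat_lit 0) (p (nat_lit 0x587860702) (nat_lit 0) (p (nat_lit 0x8507058482) (nat_lit 0) (p (nat_lit 0x486850402) (nat_lit 0) (p (nat_lit 0x160014) (nat_lit 0) (p (nat_lit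 0x50612) (nat_lit 0) (p (nat_lit 0x38592) (nat_lit 0) (p (nat_lit 0x40492) (nat_lit 0) (p (nat_lit 0x28412) (nat_lit 0) (p (nat_lit 0x30292) (nat_lit 0) (p (nat_lit 0x18212) (nat_lit 0) (p (nat_lit 0x20092) (nat_lit 0) (p (nat_lit 0x8012) (nat_lit 0) pn)))))))))))))))))))))))))))) :=
  Cl.node (nat_lit 0x119) (nat_lit 2) (by decide +kernel) (ClAll.succ (ClAll.succ ClAll.zero s135) s136)

def n28 : Cl (O (nat_lit 3)) (R (nat_lit 104577))
    (p (nat_lit 0xb0014) (nat_lit 0) (p (nat_lit 0x200004) (nat_lit 1) (p (nat_lit 0xc9) (nat_lit 0) (p (nat_lit 0x89) (nat_lit 1) (p (nat_lit 0x101) (nat_lit 1) (p (nat_lit 0x111) (nat_lit 0) (p (nat_lit 0xd1) (nat_lit 1) (p (nat_lit 0x81) (nat_lit 0) (p (nat_lit 0x41) (nat_lit 1) (p (nat_lit 0x8a090b098a9a) (nat_lit 0) (p (nat_lit 0x9888a890a1a) (nat_lit 0) (p (nat_lit 0x89080a08879a) (nat_lit 0) (p (nat_lit 0x8878988071a) (nat_lit 0) (p (nat_lit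 0x80000800080907888a) (nat_lit 0) (p (nat_lit 0x80000800078887060a) (nat_lit 0) (p (nat_lit 0x8608068782) (nat_lit 0) (p (nat_lit 0x587860702) (nat_lit 0) (p (nat_lit 0x8507058482) (nat_lit 0) (p (nat_lit 0x486850402) (nat_lit 0) (p (nat_lit 0x160014) (nat_lit 0) (p (nat_lit 0x50612) (nat_lit 0) (p (nat_lit 0x38592) (nat_lit 0) (p (nat_lit 0x40492) (nat_lit 0) (p (nat_lit 0x28412) (nat_lit 0) (p (nat_lit 0x30292) (nat_lit 0) (p (nat_lit 0x18212) (nat_lit 0) (p (nat_lit 0x20092) (nat_lit 0) (p (nat_lit 0x8012) (nat_lit 0) pn)))))))))))))))))))))))))))) :=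
  Cl.node (nat_lit 0x20000c) (nat_lit 2) (by decide +kernel) (ClAll.succ (ClAll.succ ClAll.zero n10) s143)

def n29 : Cl (O (nat_lit 3)) (R (nat_lit 104577))
    (p (nat_lit 0xb0014) (nat_lit 0) (p (nat_lit 0x200004) (nat_lit 1) (p (nat_lit 0x109) (nat_lit 0) (p (nat_lit 0xc9) (nat_lit 1) (p (nat_lit 0x89) (nat_lit 1) (p (nat_lit 0x111) (nat_lit 1) (p (nat_lit 0xd1) (nat_lit 1) (p (nat_lit 0x81) (nat_lit 0) (p (nat_lit 0x41) (nat_lit 1) (p (nat_lit 0x8a090b098a9a) (nat_lit 0) (p (nat_lit 0x9888a890a1a) (nat_lit 0) (p (nat_lit 0x89080a08879a) (nat_lit 0) (p (nat_lit 0x8878988071a) (nat_lit 0) (p (nat_lit 0x80000800080907888a) (nat_lit 0) (p (nat_lit 0x80000800078887060a) (nat_lit 0) (p (nat_lit 0x8608068782) (nat_lit 0) (p (nat_lit 0x587860702) (nat_lit 0) (p (nat_lit 0x8507058482) (nat_lit 0) (p (nat_lit 0x486850402) (nat_lit 0) (p (nat_lit 0x160014) (nat_lit 0) (p (nat_lit 0x50612)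 (nat_lit 0) (p (nat_lit 0x38592) (nat_lit 0) (p (nat_lit 0x40492) (nat_lit 0) (p (nat_lit 0x28412) (nat_lit 0) (p (nat_lit 0x30292) (nat_lit 0) (p (nat_lit 0x18212) (nat_lit 0) (p (nat_lit 0x20092) (nat_lit 0) (p (nat_lit 0x8012) (nat_lit 0) pn)))))))))))))))))))))))))))) :=
  Cl.node (nat_lit 0x20000c) (nat_lit 2) (by decide +kernel) (ClAll.succ (ClAll.succ ClAll.zero n11) s151)

def n30 : Cl (O (nat_lit 3)) (R (nat_lit 104577))
    (p (nat_lit 0x200004) (nat_lit 0) (p (nat_lit 0xc9) (nat_lit 1) (p (nat_lit 0x109) (nat_lit 1) (p (nat_lit 0x101) (nat_lit 0) (p (nat_lit 0x119) (nat_lit 0) (p (nat_lit 0xd1) (nat_lit 0) (p (nat_lit 0x89) (nat_lit 0) (p (nat_lit 0x41) (nat_lit 0) (p (nat_lit 0x8a090b098a9a) (nat_lit 0) (p (nat_lit 0x9888a890a1a) (nat_lit 0) (p (nat_lit 0x89080a08879a) (nat_lit 0) (p (nat_lit 0x8878988071a) (nat_lit 0) (p (nat_lit 0x80000800080907888a) (nat_lit 0) (p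 (nat_lit 0x80000800078887060a) (nat_lit 0) (p (nat_lit 0x8608068782) (nat_lit 0) (p (nat_lit 0x587860702) (nat_lit 0) (p (nat_lit 0x8507058482) (nat_lit 0) (p (nat_lit 0x486850402) (nat_lit 0) (p (nat_lit 0x160014) (nat_lit 0) (p (nat_lit 0x50612) (nat_lit 0) (p (nat_lit 0x38592) (nat_lit 0) (p (nat_lit 0x40492) (nat_lit 0) (p (nat_lit 0x28412) (nat_lit 0) (p (nat_lit 0x30292) (nat_lit 0) (p (nat_lit 0x18212) (nat_lit 0) (p (nat_lit 0x20092) (nat_lit 0) (p (nat_lit 0x8012) (nat_lit 0) pn))))))))))))))))))))))))))) :=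
  Cl.node (nat_lit 0x20000c) (nat_lit 2) (by decide +kernel) (ClAll.succ (ClAll.succ ClAll.zero s2) n12)

def n31 : Cl (O (nat_lit 3)) (R (nat_lit 104577))
    (p (nat_lit 0x200004) (nat_lit 1) (p (nat_lit 0xc9) (nat_lit 1) (p (nat_lit 0x109) (nat_lit 1) (p (nat_lit 0x101) (nat_lit 0) (p (nat_lit 0x119) (nat_lit 0) (p (nat_lit 0xd1) (nat_lit 0) (p (nat_lit 0x89) (nat_lit 0) (p (nat_lit 0x41) (nat_lit 0) (p (nat_lit 0x8a090b098a9a) (nat_lit 0) (p (nat_lit 0x9888a890a1a) (nat_lit 0) (p (nat_lit 0x89080a08879a) (nat_lit 0) (p (nat_lit 0x8878988071a) (nat_lit 0) (p (nat_lit 0x80000800080907888a) (nat_lit 0) (p (nat_lit 0x80000800078887060a) (nat_lit 0) (p (nat_lit 0x8608068782) (nat_lit 0) (p (nat_lit 0x587860702) (nat_lit 0) (p (nat_lit 0x8507058482) (nat_lit 0) (p (nat_lit 0x486850402) (nat_lit 0) (p (nat_lit 0x160014) (nat_lit 0) (p (nat_lit 0x50612) (nat_lit 0) (p (nat_lit 0x38592)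 (nat_lit 0) (p (nat_lit 0x40492) (nat_lit 0) (p (nat_lit 0x28412) (nat_lit 0) (p (nat_lit 0x30292) (nat_lit 0) (p (nat_lit 0x18212) (nat_lit 0) (p (nat_lit 0x20092) (nat_lit 0) (p (nat_lit 0x8012) (nat_lit 0) pn))))))))))))))))))))))))))) :=
  Cl.node (nat_lit 0xb0014) (nat_lit 2) (by decide +kernel) (ClAll.succ (ClAll.succ ClAll.zero n13) s9)

def n32 : Cl (O (nat_lit 3)) (R (nat_lit 104577))
    (p (nat_lit 0x200004) (nat_lit 0) (p (nat_lit 0xc9) (nat_lit 1) (p (nat_lit 0x81) (nat_lit 0) (p (nat_lit 0x101) (nat_lit 1) (p (nat_lit 0x119) (nat_lit 0) (p (nat_lit 0xd1) (nat_lit 0) (p (nat_lit 0x89) (nat_lit 0) (p (nat_lit 0x41) (nat_lit 0) (p (nat_lit 0x8a090b098a9a) (nat_lit 0) (p (nat_lit 0x9888a890a1a) (nat_lit 0) (p (nat_lit 0x89080a08879a) (nat_lit 0) (p (nat_lit 0x8878988071a) (nat_lit 0) (p (nat_lit 0x80000800080907888a) (nat_lit 0) (p (nat_lit 0x80000800078887060a) (nat_lit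 0) (p (nat_lit 0x8608068782) (nat_lit 0) (p (nat_lit 0x587860702) (nat_lit 0) (p (nat_lit 0x8507058482) (nat_lit 0) (p (nat_lit 0x486850402) (nat_lit 0) (p (nat_lit 0x160014) (nat_lit 0) (p (nat_lit 0x50612) (nat_lit 0) (p (nat_lit 0x38592) (nat_lit 0) (p (nat_lit 0x40492) (nat_lit 0) (p (nat_lit 0x28412) (nat_lit 0) (p (nat_lit 0x30292) (nat_lit 0) (p (nat_lit 0x18212) (nat_lit 0) (p (nat_lit 0x20092) (nat_lit 0) (p (nat_lit 0x8012) (nat_lit 0) pn))))))))))))))))))))))))))) :=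
  Cl.node (nat_lit 0x20000c) (nat_lit 2) (by decide +kernel) (ClAll.succ (ClAll.succ ClAll.zero s12) s13)

def n33 : Cl (O (nat_lit 3)) (R (nat_lit 104577))
    (p (nat_lit 0x200004) (nat_lit 1) (p (nat_lit 0xc9) (nat_lit 1) (p (nat_lit 0x81) (nat_lit 0) (p (nat_lit 0x101) (nat_lit 1) (p (nat_lit 0x119) (nat_lit 0) (p (nat_lit 0xd1) (nat_lit 0) (p (nat_lit 0x89) (nat_lit 0) (p (nat_lit 0x41) (nat_lit 0) (p (nat_lit 0x8a090b098a9a) (nat_lit 0) (p (nat_lit 0x9888a890a1a) (nat_lit 0) (p (nat_lit 0x89080a08879a) (nat_lit 0) (p (nat_lit 0x8878988071a) (nat_lit 0) (p (nat_lit 0x80000800080907888a) (nat_lit 0) (p (nat_lit 0x80000800078887060a) (nat_lit 0) (p (nat_lit 0x8608068782) (nat_lit 0) (p (nat_lit 0x587860702) (nat_lit 0) (p (nat_lit 0x8507058482) (nat_lit 0) (p (nat_lit 0x486850402) (nat_lit 0) (p (nat_lit 0x160014) (nat_lit 0) (p (nat_lit 0x50612) (nat_lit 0) (p (nat_lit 0x38592)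 (nat_lit 0) (p (nat_lit 0x40492) (nat_lit 0) (p (nat_lit 0x28412) (nat_lit 0) (p (nat_lit 0x30292) (nat_lit 0) (p (nat_lit 0x18212) (nat_lit 0) (p (nat_lit 0x20092) (nat_lit 0) (p (nat_lit 0x8012) (nat_lit 0) pn))))))))))))))))))))))))))) :=
  Cl.node (nat_lit 0xb0014) (nat_lit 2) (by decide +kernel) (ClAll.succ (ClAll.succ ClAll.zero n14) s16)

def n34 : Cl (O (nat_lit 3)) (R (nat_lit 104577))
    (p (nat_lit 0xc9) (nat_lit 1) (p (nat_lit 0xc1) (nat_lit 0) (p (nat_lit 0x81) (nat_lit 1) (p (nat_lit 0x101) (nat_lit 1) (p (nat_lit 0x119) (nat_lit 0) (p (nat_lit 0xd1) (nat_lit 0) (p (nat_lit 0x89) (nat_lit 0) (p (nat_lit 0x41) (nat_lit 0) (p (nat_lit 0x8a090b098a9a) (nat_lit 0) (p (nat_lit 0x9888a890a1a) (nat_lit 0) (p (nat_lit 0x89080a08879a) (nat_lit 0) (p (nat_lit 0x8878988071a) (nat_lit 0) (p (nat_lit 0x80000800080907888a) (nat_lit 0) (p (nat_lit 0x80000800078887060a) (nat_lit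 0) (p (nat_lit 0x8608068782) (nat_lit 0) (p (nat_lit 0x587860702) (nat_lit 0) (p (nat_lit 0x8507058482) (nat_lit 0) (p (nat_lit 0x486850402) (nat_lit 0) (p (nat_lit 0x160014) (nat_lit 0) (p (nat_lit 0x50612) (nat_lit 0) (p (nat_lit 0x38592) (nat_lit 0) (p (nat_lit 0x40492) (nat_lit 0) (p (nat_lit 0x28412) (nat_lit 0) (p (nat_lit 0x30292) (nat_lit 0) (p (nat_lit 0x18212) (nat_lit 0) (p (nat_lit 0x20092) (nat_lit 0) (p (nat_lit 0x8012) (nat_lit 0) pn))))))))))))))))))))))))))) :=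
  Cl.node (nat_lit 0x200004) (nat_lit 2) (by decide +kernel) (ClAll.succ (ClAll.succ ClAll.zero s18) s19)

def n35 : Cl (O (nat_lit 3)) (R (nat_lit 104577))
    (p (nat_lit 0x109) (nat_lit 1) (p (nat_lit 0x101) (nat_lit 0) (p (nat_lit 0x81) (nat_lit 1) (p (nat_lit 0xc1) (nat_lit 1) (p (nat_lit 0x119) (nat_lit 1) (p (nat_lit 0xd1) (nat_lit 0) (p (nat_lit 0x89) (nat_lit 0) (p (nat_lit 0x41) (nat_lit 0) (p (nat_lit 0x8a090b098a9a) (nat_lit 0) (p (nat_lit 0x9888a890a1a) (nat_lit 0) (p (nat_lit 0x89080a08879a) (nat_lit 0) (p (nat_lit 0x8878988071a) (nat_lit 0) (p (nat_lit 0x80000800080907888a) (nat_lit 0) (p (nat_lit 0x80000800078887060a) (nat_lit 0) (p (nat_lit 0x8608068782) (nat_lit 0) (p (nat_lit 0x587860702) (nat_lit 0) (p (nat_lit 0x8507058482) (nat_lit 0) (p (nat_lit 0x486850402) (nat_lit 0) (p (nat_lit 0x160014) (nat_lit 0) (p (nat_lit 0x50612) (nat_lit 0) (p (nat_lit 0x38592)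 (nat_lit 0) (p (nat_lit 0x40492) (nat_lit 0) (p (nat_lit 0x28412) (nat_lit 0) (p (nat_lit 0x30292) (nat_lit 0) (p (nat_lit 0x18212) (nat_lit 0) (p (nat_lit 0x20092) (nat_lit 0) (p (nat_lit 0x8012) (nat_lit 0) pn))))))))))))))))))))))))))) :=
  Cl.node (nat_lit 0x200004) (nat_lit 2) (by decide +kernel) (ClAll.succ (ClAll.succ ClAll.zero n15) s31)

def n36 : Cl (O (nat_lit 3)) (R (nat_lit 104577))
    (p (nat_lit 0x20000c) (nat_lit 1) (p (nat_lit 0x200004) (nat_lit 0) (p (nat_lit 0x109) (nat_lit 1) (p (nat_lit 0x101) (nat_lit 0) (p (nat_lit 0x111) (nat_lit 0) (p (nat_lit 0xd1) (nat_lit 1) (p (nat_lit 0x89) (nat_lit 0) (p (nat_lit 0x41) (nat_lit 0) (p (nat_lit 0x8a090b098a9a) (nat_lit 0) (p (nat_lit 0x9888a890a1a) (nat_lit 0) (p (nat_lit 0x89080a08879a) (nat_lit 0) (p (nat_lit 0x8878988071a) (nat_lit 0) (p (nat_lit 0x80000800080907888a) (nat_lit 0) (p (nat_lit 0x80000800078887060a)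 (nat_lit 0) (p (nat_lit 0x8608068782) (nat_lit 0) (p (nat_lit 0x587860702) (nat_lit 0) (p (nat_lit 0x8507058482) (nat_lit 0) (p (nat_lit 0x486850402) (nat_lit 0) (p (nat_lit 0x160014) (nat_lit 0) (p (nat_lit 0x50612) (nat_lit 0) (p (nat_lit 0x38592) (nat_lit 0) (p (nat_lit 0x40492) (nat_lit 0) (p (nat_lit 0x28412) (nat_lit 0) (p (nat_lit 0x30292) (nat_lit 0) (p (nat_lit 0x18212) (nat_lit 0) (p (nat_lit 0x20092) (nat_lit 0) (p (nat_lit 0x8012) (nat_lit 0) pn))))))))))))))))))))))))))) :=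
  Cl.node (nat_lit 0xb0014) (nat_lit 2) (by decide +kernel) (ClAll.succ (ClAll.succ ClAll.zero n16) s38)

def n37 : Cl (O (nat_lit 3)) (R (nat_lit 104577))
    (p (nat_lit 0xb0014) (nat_lit 0) (p (nat_lit 0x200004) (nat_lit 1) (p (nat_lit 0x109) (nat_lit 1) (p (nat_lit 0x101) (nat_lit 0) (p (nat_lit 0x111) (nat_lit 0) (p (nat_lit 0xd1) (nat_lit 1) (p (nat_lit 0x89) (nat_lit 0) (p (nat_lit 0x41) (nat_lit 0) (p (nat_lit 0x8a090b098a9a) (nat_lit 0) (p (nat_lit 0x9888a890a1a) (nat_lit 0) (p (nat_lit 0x89080a08879a) (nat_lit 0) (p (nat_lit 0x8878988071a) (nat_lit 0) (p (nat_lit 0x80000800080907888a) (nat_lit 0) (p (nat_lit 0x80000800078887060a) (nat_lit 0) (p (nat_lit 0x8608068782) (nat_lit 0) (p (nat_lit 0x587860702) (nat_lit 0) (p (nat_lit 0x8507058482) (nat_lit 0) (p (nat_lit 0x486850402) (nat_lit 0) (p (nat_lit 0x160014) (nat_lit 0) (p (nat_lit 0x50612) (nat_lit 0) (p (nat_lit 0x38592)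 (nat_lit 0) (p (nat_lit 0x40492) (nat_lit 0) (p (nat_lit 0x28412) (nat_lit 0) (p (nat_lit 0x30292) (nat_lit 0) (p (nat_lit 0x18212) (nat_lit 0) (p (nat_lit 0x20092) (nat_lit 0) (p (nat_lit 0x8012) (nat_lit 0) pn))))))))))))))))))))))))))) :=
  Cl.node (nat_lit 0x20000c) (nat_lit 2) (by decide +kernel) (ClAll.succ (ClAll.succ ClAll.zero n17) s42)

def n38 : Cl (O (nat_lit 3)) (R (nat_lit 104577))
    (p (nat_lit 0xb0014) (nat_lit 0) (p (nat_lit 0x200004) (nat_lit 1) (p (nat_lit 0x81) (nat_lit 0) (p (nat_lit 0x101) (nat_lit 1) (p (nat_lit 0x111) (nat_lit 0) (p (nat_lit 0xd1) (nat_lit 1) (p (nat_lit 0x89) (nat_lit 0) (p (nat_lit 0x41) (nat_lit 0) (p (nat_lit 0x8a090b098a9a) (nat_lit 0) (p (nat_lit 0x9888a890a1a) (nat_lit 0) (p (nat_lit 0x89080a08879a) (nat_lit 0) (p (nat_lit 0x8878988071a) (nat_lit 0) (p (nat_lit 0x80000800080907888a) (nat_lit 0) (p (nat_lit 0x80000800078887060a)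 (nat_lit 0) (p (nat_lit 0x8608068782) (nat_lit 0) (p (nat_lit 0x587860702) (nat_lit 0) (p (nat_lit 0x8507058482) (nat_lit 0) (p (nat_lit 0x486850402) (nat_lit 0) (p (nat_lit 0x160014) (nat_lit 0) (p (nat_lit 0x50612) (nat_lit 0) (p (nat_lit 0x38592) (nat_lit 0) (p (nat_lit 0x40492) (nat_lit 0) (p (nat_lit 0x28412) (nat_lit 0) (p (nat_lit 0x30292) (nat_lit 0) (p (nat_lit 0x18212) (nat_lit 0) (p (nat_lit 0x20092) (nat_lit 0) (p (nat_lit 0x8012) (nat_lit 0) pn))))))))))))))))))))))))))) :=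
  Cl.node (nat_lit 0x20000c) (nat_lit 2) (by decide +kernel) (ClAll.succ (ClAll.succ ClAll.zero n18) s48)

def n39 : Cl (O (nat_lit 3)) (R (nat_lit 104577))
    (p (nat_lit 0x200004) (nat_lit 0) (p (nat_lit 0xc1) (nat_lit 0) (p (nat_lit 0x81) (nat_lit 1) (p (nat_lit 0x101) (nat_lit 1) (p (nat_lit 0x111) (nat_lit 0) (p (nat_lit 0xd1) (nat_lit 1) (p (nat_lit 0x89) (nat_lit 0) (p (nat_lit 0x41) (nat_lit 0) (p (nat_lit 0x8a090b098a9a) (nat_lit 0) (p (nat_lit 0x9888a890a1a) (nat_lit 0) (p (nat_lit 0x89080a08879a) (nat_lit 0) (p (nat_lit 0x8878988071a) (nat_lit 0) (p (nat_lit 0x80000800080907888a) (nat_lit 0) (p (nat_lit 0x80000800078887060a) (nat_lit 0) (p (nat_lit 0x8608068782) (nat_lit 0) (p (nat_lit 0x587860702) (nat_lit 0) (p (nat_lit 0x8507058482) (nat_lit 0) (p (nat_lit 0x486850402) (nat_lit 0) (p (nat_lit 0x160014) (nat_lit 0) (p (nat_lit 0x50612) (nat_lit 0) (p (nat_lit 0x38592)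 (nat_lit 0) (p (nat_lit 0x40492) (nat_lit 0) (p (nat_lit 0x28412) (nat_lit 0) (p (nat_lit 0x30292) (nat_lit 0) (p (nat_lit 0x18212) (nat_lit 0) (p (nat_lit 0x20092) (nat_lit 0) (p (nat_lit 0x8012) (nat_lit 0) pn))))))))))))))))))))))))))) :=
  Cl.node (nat_lit 0x20000c) (nat_lit 2) (by decide +kernel) (ClAll.succ (ClAll.succ ClAll.zero s50) s51)

def n40 : Cl (O (nat_lit 3)) (R (nat_lit 104577))
    (p (nat_lit 0x200004) (nat_lit 1) (p (nat_lit 0xc1) (nat_lit 0) (p (nat_lit 0x81) (nat_lit 1) (p (nat_lit 0x101) (nat_lit 1) (p (nat_lit 0x111) (nat_lit 0) (p (nat_lit 0xd1) (nat_lit 1) (p (nat_lit 0x89) (nat_lit 0) (p (nat_lit 0x41) (nat_lit 0) (p (nat_lit 0x8a090b098a9a) (nat_lit 0) (p (nat_lit 0x9888a890a1a) (nat_lit 0) (p (nat_lit 0x89080a08879a) (nat_lit 0) (p (nat_lit 0x8878988071a) (nat_lit 0) (p (nat_lit 0x80000800080907888a) (nat_lit 0) (p (nat_lit 0x80000800078887060a) (nat_lit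 0) (p (nat_lit 0x8608068782) (nat_lit 0) (p (nat_lit 0x587860702) (nat_lit 0) (p (nat_lit 0x8507058482) (nat_lit 0) (p (nat_lit 0x486850402) (nat_lit 0) (p (nat_lit 0x160014) (nat_lit 0) (p (nat_lit 0x50612) (nat_lit 0) (p (nat_lit 0x38592) (nat_lit 0) (p (nat_lit 0x40492) (nat_lit 0) (p (nat_lit 0x28412) (nat_lit 0) (p (nat_lit 0x30292) (nat_lit 0) (p (nat_lit 0x18212) (nat_lit 0) (p (nat_lit 0x20092) (nat_lit 0) (p (nat_lit 0x8012) (nat_lit 0) pn))))))))))))))))))))))))))) :=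
  Cl.node (nat_lit 0xb0014) (nat_lit 2) (by decide +kernel) (ClAll.succ (ClAll.succ ClAll.zero n19) s55)

def n41 : Cl (O (nat_lit 3)) (R (nat_lit 104577))
    (p (nat_lit 0x200004) (nat_lit 1) (p (nat_lit 0x101) (nat_lit 0) (p (nat_lit 0xc1) (nat_lit 1) (p (nat_lit 0x81) (nat_lit 1) (p (nat_lit 0x111) (nat_lit 1) (p (nat_lit 0xd1) (nat_lit 1) (p (nat_lit 0x89) (nat_lit 0) (p (nat_lit 0x41) (nat_lit 0) (p (nat_lit 0x8a090b098a9a) (nat_lit 0) (p (nat_lit 0x9888a890a1a) (nat_lit 0) (p (nat_lit 0x89080a08879a) (nat_lit 0) (p (nat_lit 0x8878988071a) (nat_lit 0) (p (nat_lit 0x80000800080907888a) (nat_lit 0) (p (nat_lit 0x80000800078887060a) (nat_lit 0) (p (nat_lit 0x8608068782) (nat_lit 0) (p (nat_lit 0x587860702) (nat_lit 0) (p (nat_lit 0x8507058482) (nat_lit 0) (p (nat_lit 0x486850402) (nat_lit 0) (p (nat_lit 0x160014) (nat_lit 0) (p (nat_lit 0x50612) (nat_lit 0) (p (nat_lit 0x38592)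 (nat_lit 0) (p (nat_lit 0x40492) (nat_lit 0) (p (nat_lit 0x28412) (nat_lit 0) (p (nat_lit 0x30292) (nat_lit 0) (p (nat_lit 0x18212) (nat_lit 0) (p (nat_lit 0x20092) (nat_lit 0) (p (nat_lit 0x8012) (nat_lit 0) pn))))))))))))))))))))))))))) :=
  Cl.node (nat_lit 0xb0014) (nat_lit 2) (by decide +kernel) (ClAll.succ (ClAll.succ ClAll.zero n20) s62)

def n42 : Cl (O (nat_lit 3)) (R (nat_lit 104577))
    (p (nat_lit 0xd1) (nat_lit 1) (p (nat_lit 0x111) (nat_lit 1) (p (nat_lit 0x109) (nat_lit 0) (p (nat_lit 0x101) (nat_lit 0) (p (nat_lit 0x119) (nat_lit 0) (p (nat_lit 0xc9) (nat_lit 0) (p (nat_lit 0x89) (nat_lit 1) (p (nat_lit 0x41) (nat_lit 0) (p (nat_lit 0x8a090b098a9a) (nat_lit 0) (p (nat_lit 0x9888a890a1a) (nat_lit 0) (p (nat_lit 0x89080a08879a) (nat_lit 0) (p (nat_lit 0x8878988071a) (nat_lit 0) (p (nat_lit 0x80000800080907888a) (nat_lit 0) (p (nat_lit 0x80000800078887060a) (nat_lit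 0) (p (nat_lit 0x8608068782) (nat_lit 0) (p (nat_lit 0x587860702) (nat_lit 0) (p (nat_lit 0x8507058482) (nat_lit 0) (p (nat_lit 0x486850402) (nat_lit 0) (p (nat_lit 0x160014) (nat_lit 0) (p (nat_lit 0x50612) (nat_lit 0) (p (nat_lit 0x38592) (nat_lit 0) (p (nat_lit 0x40492) (nat_lit 0) (p (nat_lit 0x28412) (nat_lit 0) (p (nat_lit 0x30292) (nat_lit 0) (p (nat_lit 0x18212) (nat_lit 0) (p (nat_lit 0x20092) (nat_lit 0) (p (nat_lit 0x8012) (nat_lit 0) pn))))))))))))))))))))))))))) :=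
  Cl.node (nat_lit 0x200004) (nat_lit 2) (by decide +kernel) (ClAll.succ (ClAll.succ ClAll.zero n21) n22)

def n43 : Cl (O (nat_lit 3)) (R (nat_lit 104577))
    (p (nat_lit 0x200004) (nat_lit 0) (p (nat_lit 0xd1) (nat_lit 0) (p (nat_lit 0x109) (nat_lit 1) (p (nat_lit 0x101) (nat_lit 0) (p (nat_lit 0x119) (nat_lit 0) (p (nat_lit 0xc9) (nat_lit 0) (p (nat_lit 0x89) (nat_lit 1) (p (nat_lit 0x41) (nat_lit 0) (p (nat_lit 0x8a090b098a9a) (nat_lit 0) (p (nat_lit 0x9888a890a1a) (nat_lit 0) (p (nat_lit 0x89080a08879a) (nat_lit 0) (p (nat_lit 0x8878988071a) (nat_lit 0) (p (nat_lit 0x80000800080907888a) (nat_lit 0) (p (nat_lit 0x80000800078887060a) (nat_lit 0) (p (nat_lit 0x8608068782) (nat_lit 0) (p (nat_lit 0x587860702) (nat_lit 0) (p (nat_lit 0x8507058482) (nat_lit 0) (p (nat_lit 0x486850402) (nat_lit 0) (p (nat_lit 0x160014) (nat_lit 0) (p (nat_lit 0x50612) (nat_lit 0) (p (nat_lit 0x38592)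 (nat_lit 0) (p (nat_lit 0x40492) (nat_lit 0) (p (nat_lit 0x28412) (nat_lit 0) (p (nat_lit 0x30292) (nat_lit 0) (p (nat_lit 0x18212) (nat_lit 0) (p (nat_lit 0x20092) (nat_lit 0) (p (nat_lit 0x8012) (nat_lit 0) pn))))))))))))))))))))))))))) :=
  Cl.node (nat_lit 0x20000c) (nat_lit 2) (by decide +kernel) (ClAll.succ (ClAll.succ ClAll.zero s71) s72)

def n44 : Cl (O (nat_lit 3)) (R (nat_lit 104577))
    (p (nat_lit 0x200004) (nat_lit 0) (p (nat_lit 0xd1) (nat_lit 1) (p (nat_lit 0x109) (nat_lit 1) (p (nat_lit 0x101) (nat_lit 0) (p (nat_lit 0x119) (nat_lit 0) (p (nat_lit 0xc9) (nat_lit 0) (p (nat_lit 0x89) (nat_lit 1) (p (nat_lit 0x41) (nat_lit 0) (p (nat_lit 0x8a090b098a9a) (nat_lit 0) (p (nat_lit 0x9888a890a1a) (nat_lit 0) (p (nat_lit 0x89080a08879a) (nat_lit 0) (p (nat_lit 0x8878988071a) (nat_lit 0) (p (nat_lit 0x80000800080907888a) (nat_lit 0) (p (nat_lit 0x80000800078887060a) (nat_lit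 0) (p (nat_lit 0x8608068782) (nat_lit 0) (p (nat_lit 0x587860702) (nat_lit 0) (p (nat_lit 0x8507058482) (nat_lit 0) (p (nat_lit 0x486850402) (nat_lit 0) (p (nat_lit 0x160014) (nat_lit 0) (p (nat_lit 0x50612) (nat_lit 0) (p (nat_lit 0x38592) (nat_lit 0) (p (nat_lit 0x40492) (nat_lit 0) (p (nat_lit 0x28412) (nat_lit 0) (p (nat_lit 0x30292) (nat_lit 0) (p (nat_lit 0x18212) (nat_lit 0) (p (nat_lit 0x20092) (nat_lit 0) (p (nat_lit 0x8012) (nat_lit 0) pn))))))))))))))))))))))))))) :=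
  Cl.node (nat_lit 0x20000c) (nat_lit 2) (by decide +kernel) (ClAll.succ (ClAll.succ ClAll.zero s74) n23)

def n45 : Cl (O (nat_lit 3)) (R (nat_lit 104577))
    (p (nat_lit 0x200004) (nat_lit 1) (p (nat_lit 0xd1) (nat_lit 1) (p (nat_lit 0x109) (nat_lit 1) (p (nat_lit 0x101) (nat_lit 0) (p (nat_lit 0x119) (nat_lit 0) (p (nat_lit 0xc9) (nat_lit 0) (p (nat_lit 0x89) (nat_lit 1) (p (nat_lit 0x41) (nat_lit 0) (p (nat_lit 0x8a090b098a9a) (nat_lit 0) (p (nat_lit 0x9888a890a1a) (nat_lit 0) (p (nat_lit 0x89080a08879a) (nat_lit 0) (p (nat_lit 0x8878988071a) (nat_lit 0) (p (nat_lit 0x80000800080907888a) (nat_lit 0) (p (nat_lit 0x80000800078887060a) (nat_lit 0) (p (nat_lit 0x8608068782) (nat_lit 0) (p (nat_lit 0x587860702) (nat_lit 0) (p (nat_lit 0x8507058482) (nat_lit 0) (p (nat_lit 0x486850402) (nat_lit 0) (p (nat_lit 0x160014) (nat_lit 0) (p (nat_lit 0x50612) (nat_lit 0) (p (nat_lit 0x38592)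 (nat_lit 0) (p (nat_lit 0x40492) (nat_lit 0) (p (nat_lit 0x28412) (nat_lit 0) (p (nat_lit 0x30292) (nat_lit 0) (p (nat_lit 0x18212) (nat_lit 0) (p (nat_lit 0x20092) (nat_lit 0) (p (nat_lit 0x8012) (nat_lit 0) pn))))))))))))))))))))))))))) :=
  Cl.node (nat_lit 0xb0014) (nat_lit 2) (by decide +kernel) (ClAll.succ (ClAll.succ ClAll.zero n24) s81)

def n46 : Cl (O (nat_lit 3)) (R (nat_lit 104577))
    (p (nat_lit 0x200004) (nat_lit 0) (p (nat_lit 0xd1) (nat_lit 0) (p (nat_lit 0xc1) (nat_lit 0) (p (nat_lit 0x101) (nat_lit 1) (p (nat_lit 0x119) (nat_lit 0) (p (nat_lit 0xc9) (nat_lit 0) (p (nat_lit 0x89) (nat_lit 1) (p (nat_lit 0x41) (nat_lit 0) (p (nat_lit 0x8a090b098a9a) (nat_lit 0) (p (nat_lit 0x9888a890a1a) (nat_lit 0) (p (nat_lit 0x89080a08879a) (nat_lit 0) (p (nat_lit 0x8878988071a) (nat_lit 0) (p (nat_lit 0x80000800080907888a) (nat_lit 0) (p (nat_lit 0x80000800078887060a) (nat_lit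 0) (p (nat_lit 0x8608068782) (nat_lit 0) (p (nat_lit 0x587860702) (nat_lit 0) (p (nat_lit 0x8507058482) (nat_lit 0) (p (nat_lit 0x486850402) (nat_lit 0) (p (nat_lit 0x160014) (nat_lit 0) (p (nat_lit 0x50612) (nat_lit 0) (p (nat_lit 0x38592) (nat_lit 0) (p (nat_lit 0x40492) (nat_lit 0) (p (nat_lit 0x28412) (nat_lit 0) (p (nat_lit 0x30292) (nat_lit 0) (p (nat_lit 0x18212) (nat_lit 0) (p (nat_lit 0x20092) (nat_lit 0) (p (nat_lit 0x8012) (nat_lit 0) pn))))))))))))))))))))))))))) :=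
  Cl.node (nat_lit 0x20000c) (nat_lit 2) (by decide +kernel) (ClAll.succ (ClAll.succ ClAll.zero s82) s83)

def n47 : Cl (O (nat_lit 3)) (R (nat_lit 104577))
    (p (nat_lit 0x200004) (nat_lit 0) (p (nat_lit 0x111) (nat_lit 1) (p (nat_lit 0xd1) (nat_lit 1) (p (nat_lit 0xc1) (nat_lit 0) (p (nat_lit 0x119) (nat_lit 1) (p (nat_lit 0xc9) (nat_lit 0) (p (nat_lit 0x89) (nat_lit 1) (p (nat_lit 0x41) (nat_lit 0) (p (nat_lit 0x8a090b098a9a) (nat_lit 0) (p (nat_lit 0x9888a890a1a) (nat_lit 0) (p (nat_lit 0x89080a08879a) (nat_lit 0) (p (nat_lit 0x8878988071a) (nat_lit 0) (p (nat_lit 0x80000800080907888a) (nat_lit 0) (p (nat_lit 0x80000800078887060a) (nat_lit 0) (p (nat_lit 0x8608068782) (nat_lit 0) (p (nat_lit 0x587860702) (nat_lit 0) (p (nat_lit 0x8507058482) (nat_lit 0) (p (nat_lit 0x486850402) (nat_lit 0) (p (nat_lit 0x160014) (nat_lit 0) (p (nat_lit 0x50612) (nat_lit 0) (p (nat_lit 0x38592)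 (nat_lit 0) (p (nat_lit 0x40492) (nat_lit 0) (p (nat_lit 0x28412) (nat_lit 0) (p (nat_lit 0x30292) (nat_lit 0) (p (nat_lit 0x18212) (nat_lit 0) (p (nat_lit 0x20092) (nat_lit 0) (p (nat_lit 0x8012) (nat_lit 0) pn))))))))))))))))))))))))))) :=
  Cl.node (nat_lit 0x20000c) (nat_lit 2) (by decide +kernel) (ClAll.succ (ClAll.succ ClAll.zero s90) s91)

def n48 : Cl (O (nat_lit 3)) (R (nat_lit 104577))
    (p (nat_lit 0x200004) (nat_lit 0) (p (nat_lit 0x111) (nat_lit 1) (p (nat_lit 0x101) (nat_lit 0) (p (nat_lit 0xc1) (nat_lit 1) (p (nat_lit 0x119) (nat_lit 1) (p (nat_lit 0xc9) (nat_lit 0) (p (nat_lit 0x89) (nat_lit 1) (p (nat_lit 0x41) (nat_lit 0) (p (nat_lit 0x8a090b098a9a) (nat_lit 0) (p (nat_lit 0x9888a890a1a) (nat_lit 0) (p (nat_lit 0x89080a08879a) (nat_lit 0) (p (nat_lit 0x8878988071a) (nat_lit 0) (p (nat_lit 0x80000800080907888a) (nat_lit 0) (p (nat_lit 0x80000800078887060a) (nat_lit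 0) (p (nat_lit 0x8608068782) (nat_lit 0) (p (nat_lit 0x587860702) (nat_lit 0) (p (nat_lit 0x8507058482) (nat_lit 0) (p (nat_lit 0x486850402) (nat_lit 0) (p (nat_lit 0x160014) (nat_lit 0) (p (nat_lit 0x50612) (nat_lit 0) (p (nat_lit 0x38592) (nat_lit 0) (p (nat_lit 0x40492) (nat_lit 0) (p (nat_lit 0x28412) (nat_lit 0) (p (nat_lit 0x30292) (nat_lit 0) (p (nat_lit 0x18212) (nat_lit 0) (p (nat_lit 0x20092) (nat_lit 0) (p (nat_lit 0x8012) (nat_lit 0) pn))))))))))))))))))))))))))) :=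
  Cl.node (nat_lit 0x20000c) (nat_lit 2) (by decide +kernel) (ClAll.succ (ClAll.succ ClAll.zero s94) n25)

def n49 : Cl (O (nat_lit 3)) (R (nat_lit 104577))
    (p (nat_lit 0x200004) (nat_lit 0) (p (nat_lit 0x89) (nat_lit 0) (p (nat_lit 0x109) (nat_lit 1) (p (nat_lit 0x101) (nat_lit 0) (p (nat_lit 0x119) (nat_lit 0) (p (nat_lit 0xd1) (nat_lit 0) (p (nat_lit 0x81) (nat_lit 0) (p (nat_lit 0x41) (nat_lit 1) (p (nat_lit 0x8a090b098a9a) (nat_lit 0) (p (nat_lit 0x9888a890a1a) (nat_lit 0) (p (nat_lit 0x89080a08879a) (nat_lit 0) (p (nat_lit 0x8878988071a) (nat_lit 0) (p (nat_lit 0x80000800080907888a) (nat_lit 0) (p (nat_lit 0x80000800078887060a) (nat_lit 0) (p (nat_lit 0x8608068782) (nat_lit 0) (p (nat_lit 0x587860702) (nat_lit 0) (p (nat_lit 0x8507058482) (nat_lit 0) (p (nat_lit 0x486850402) (nat_lit 0) (p (nat_lit 0x160014) (nat_lit 0) (p (nat_lit 0x50612) (nat_lit 0) (p (nat_lit 0x38592)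 (nat_lit 0) (p (nat_lit 0x40492) (nat_lit 0) (p (nat_lit 0x28412) (nat_lit 0) (p (nat_lit 0x30292) (nat_lit 0) (p (nat_lit 0x18212) (nat_lit 0) (p (nat_lit 0x20092) (nat_lit 0) (p (nat_lit 0x8012) (nat_lit 0) pn))))))))))))))))))))))))))) :=
  Cl.node (nat_lit 0x20000c) (nat_lit 2) (by decide +kernel) (ClAll.succ (ClAll.succ ClAll.zero s107) s108)

def n50 : Cl (O (nat_lit 3)) (R (nat_lit 104577))
    (p (nat_lit 0x200004) (nat_lit 1) (p (nat_lit 0x89) (nat_lit 1) (p (nat_lit 0xc1) (nat_lit 1) (p (nat_lit 0x101) (nat_lit 1) (p (nat_lit 0x119) (nat_lit 0) (p (nat_lit 0xd1) (nat_lit 0) (p (nat_lit 0x81) (nat_lit 0) (p (nat_lit 0x41) (nat_lit 1) (p (nat_lit 0x8a090b098a9a) (nat_lit 0) (p (nat_lit 0x9888a890a1a) (nat_lit 0) (p (nat_lit 0x89080a08879a) (nat_lit 0) (p (nat_lit 0x8878988071a) (nat_lit 0) (p (nat_lit 0x80000800080907888a) (nat_lit 0) (p (nat_lit 0x80000800078887060a) (nat_lit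 0) (p (nat_lit 0x8608068782) (nat_lit 0) (p (nat_lit 0x587860702) (nat_lit 0) (p (nat_lit 0x8507058482) (nat_lit 0) (p (nat_lit 0x486850402) (nat_lit 0) (p (nat_lit 0x160014) (nat_lit 0) (p (nat_lit 0x50612) (nat_lit 0) (p (nat_lit 0x38592) (nat_lit 0) (p (nat_lit 0x40492) (nat_lit 0) (p (nat_lit 0x28412) (nat_lit 0) (p (nat_lit 0x30292) (nat_lit 0) (p (nat_lit 0x18212) (nat_lit 0) (p (nat_lit 0x20092) (nat_lit 0) (p (nat_lit 0x8012) (nat_lit 0) pn))))))))))))))))))))))))))) :=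
  Cl.node (nat_lit 0xb0014) (nat_lit 2) (by decide +kernel) (ClAll.succ (ClAll.succ ClAll.zero n26) s120)

def n51 : Cl (O (nat_lit 3)) (R (nat_lit 104577))
    (p (nat_lit 0xc9) (nat_lit 0) (p (nat_lit 0x89) (nat_lit 1) (p (nat_lit 0x109) (nat_lit 1) (p (nat_lit 0x101) (nat_lit 0) (p (nat_lit 0x111) (nat_lit 0) (p (nat_lit 0xd1) (nat_lit 1) (p (nat_lit 0x81) (nat_lit 0) (p (nat_lit 0x41) (nat_lit 1) (p (nat_lit 0x8a090b098a9a) (nat_lit 0) (p (nat_lit 0x9888a890a1a) (nat_lit 0) (p (nat_lit 0x89080a08879a) (nat_lit 0) (p (nat_lit 0x8878988071a) (nat_lit 0) (p (nat_lit 0x80000800080907888a) (nat_lit 0) (p (nat_lit 0x80000800078887060a) (nat_lit 0) (p (nat_lit 0x8608068782) (nat_lit 0) (p (nat_lit 0x587860702) (nat_lit 0) (p (nat_lit 0x8507058482) (nat_lit 0) (p (nat_lit 0x486850402) (nat_lit 0) (p (nat_lit 0x160014) (nat_lit 0) (p (nat_lit 0x50612) (nat_lit 0) (p (nat_lit 0x38592)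 (nat_lit 0) (p (nat_lit 0x40492) (nat_lit 0) (p (nat_lit 0x28412) (nat_lit 0) (p (nat_lit 0x30292) (nat_lit 0) (p (nat_lit 0x18212) (nat_lit 0) (p (nat_lit 0x20092) (nat_lit 0) (p (nat_lit 0x8012) (nat_lit 0) pn))))))))))))))))))))))))))) :=
  Cl.node (nat_lit 0x200004) (nat_lit 2) (by decide +kernel) (ClAll.succ (ClAll.succ ClAll.zero s130) s131)

def n52 : Cl (O (nat_lit 3)) (R (nat_lit 104577))
    (p (nat_lit 0xb0014) (nat_lit 0) (p (nat_lit 0x200004) (nat_lit 1) (p (nat_lit 0x89) (nat_lit 0) (p (nat_lit 0x101) (nat_lit 1) (p (nat_lit 0x111) (nat_lit 0) (p (nat_lit 0xd1) (nat_lit 1) (p (nat_lit 0x81) (nat_lit 0) (p (nat_lit 0x41) (nat_lit 1) (p (nat_lit 0x8a090b098a9a) (nat_lit 0) (p (nat_lit 0x9888a890a1a) (nat_lit 0) (p (nat_lit 0x89080a08879a) (nat_lit 0) (p (nat_lit 0x8878988071a) (nat_lit 0) (p (nat_lit 0x80000800080907888a) (nat_lit 0) (p (nat_lit 0x80000800078887060a)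 (nat_lit 0) (p (nat_lit 0x8608068782) (nat_lit 0) (p (nat_lit 0x587860702) (nat_lit 0) (p (nat_lit 0x8507058482) (nat_lit 0) (p (nat_lit 0x486850402) (nat_lit 0) (p (nat_lit 0x160014) (nat_lit 0) (p (nat_lit 0x50612) (nat_lit 0) (p (nat_lit 0x38592) (nat_lit 0) (p (nat_lit 0x40492) (nat_lit 0) (p (nat_lit 0x28412) (nat_lit 0) (p (nat_lit 0x30292) (nat_lit 0) (p (nat_lit 0x18212) (nat_lit 0) (p (nat_lit 0x20092) (nat_lit 0) (p (nat_lit 0x8012) (nat_lit 0) pn))))))))))))))))))))))))))) :=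
  Cl.node (nat_lit 0x20000c) (nat_lit 2) (by decide +kernel) (ClAll.succ (ClAll.succ ClAll.zero n27) s137)

def n53 : Cl (O (nat_lit 3)) (R (nat_lit 104577))
    (p (nat_lit 0x200004) (nat_lit 1) (p (nat_lit 0xc9) (nat_lit 0) (p (nat_lit 0x89) (nat_lit 1) (p (nat_lit 0x101) (nat_lit 1) (p (nat_lit 0x111) (nat_lit 0) (p (nat_lit 0xd1) (nat_lit 1) (p (nat_lit 0x81) (nat_lit 0) (p (nat_lit 0x41) (nat_lit 1) (p (nat_lit 0x8a090b098a9a) (nat_lit 0) (p (nat_lit 0x9888a890a1a) (nat_lit 0) (p (nat_lit 0x89080a08879a) (nat_lit 0) (p (nat_lit 0x8878988071a) (nat_lit 0) (p (nat_lit 0x80000800080907888a) (nat_lit 0) (p (nat_lit 0x80000800078887060a) (nat_lit 0) (p (nat_lit 0x8608068782) (nat_lit 0) (p (nat_lit 0x587860702) (nat_lit 0) (p (nat_lit 0x8507058482) (nat_lit 0) (p (nat_lit 0x486850402) (nat_lit 0) (p (nat_lit 0x160014) (nat_lit 0) (p (nat_lit 0x50612) (nat_lit 0) (p (nat_lit 0x38592)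 (nat_lit 0) (p (nat_lit 0x40492) (nat_lit 0) (p (nat_lit 0x28412) (nat_lit 0) (p (nat_lit 0x30292) (nat_lit 0) (p (nat_lit 0x18212) (nat_lit 0) (p (nat_lit 0x20092) (nat_lit 0) (p (nat_lit 0x8012) (nat_lit 0) pn))))))))))))))))))))))))))) :=
  Cl.node (nat_lit 0xb0014) (nat_lit 2) (by decide +kernel) (ClAll.succ (ClAll.succ ClAll.zero n28) s144)

def n54 : Cl (O (nat_lit 3)) (R (nat_lit 104577))
    (p (nat_lit 0x200004) (nat_lit 1) (p (nat_lit 0x109) (nat_lit 0) (p (nat_lit 0xc9) (nat_lit 1) (p (nat_lit 0x89) (nat_lit 1) (p (nat_lit 0x111) (nat_lit 1) (p (nat_lit 0xd1) (nat_lit 1) (p (nat_lit 0x81) (nat_lit 0) (p (nat_lit 0x41) (nat_lit 1) (p (nat_lit 0x8a090b098a9a) (nat_lit 0) (p (nat_lit 0x9888a890a1a) (nat_lit 0) (p (nat_lit 0x89080a08879a) (nat_lit 0) (p (nat_lit 0x8878988071a) (nat_lit 0) (p (nat_lit 0x80000800080907888a) (nat_lit 0) (p (nat_lit 0x80000800078887060a) (nat_lit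 0) (p (nat_lit 0x8608068782) (nat_lit 0) (p (nat_lit 0x587860702) (nat_lit 0) (p (nat_lit 0x8507058482) (nat_lit 0) (p (nat_lit 0x486850402) (nat_lit 0) (p (nat_lit 0x160014) (nat_lit 0) (p (nat_lit 0x50612) (nat_lit 0) (p (nat_lit 0x38592) (nat_lit 0) (p (nat_lit 0x40492) (nat_lit 0) (p (nat_lit 0x28412) (nat_lit 0) (p (nat_lit 0x30292) (nat_lit 0) (p (nat_lit 0x18212) (nat_lit 0) (p (nat_lit 0x20092) (nat_lit 0) (p (nat_lit 0x8012) (nat_lit 0) pn))))))))))))))))))))))))))) :=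
  Cl.node (nat_lit 0xb0014) (nat_lit 2) (by decide +kernel) (ClAll.succ (ClAll.succ ClAll.zero n29) s152)

def n55 : Cl (O (nat_lit 3)) (R (nat_lit 104577))
    (p (nat_lit 0xc9) (nat_lit 1) (p (nat_lit 0x109) (nat_lit 1) (p (nat_lit 0x101) (nat_lit 0) (p (nat_lit 0x119) (nat_lit 0) (p (nat_lit 0xd1) (nat_lit 0) (p (nat_lit 0x89) (nat_lit 0) (p (nat_lit 0x41) (nat_lit 0) (p (nat_lit 0x8a090b098a9a) (nat_lit 0) (p (nat_lit 0x9888a890a1a) (nat_lit 0) (p (nat_lit 0x89080a08879a) (nat_lit 0) (p (nat_lit 0x8878988071a) (nat_lit 0) (p (nat_lit 0x80000800080907888a) (nat_lit 0) (p (nat_lit 0x80000800078887060a) (nat_lit 0) (p (nat_lit 0x8608068782) (nat_lit 0) (p (nat_lit 0x587860702) (nat_lit 0) (p (nat_lit 0x8507058482) (nat_lit 0) (p (nat_lit 0x486850402) (nat_lit 0) (p (nat_lit 0x160014) (nat_lit 0) (p (nat_lit 0x50612) (nat_lit 0) (p (nat_lit 0x38592) (nat_lit 0) (p (nat_lit 0x40492)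 (nat_lit 0) (p (nat_lit 0x28412) (nat_lit 0) (p (nat_lit 0x30292) (nat_lit 0) (p (nat_lit 0x18212) (nat_lit 0) (p (nat_lit 0x20092) (nat_lit 0) (p (nat_lit 0x8012) (nat_lit 0) pn)))))))))))))))))))))))))) :=
  Cl.node (nat_lit 0x200004) (nat_lit 2) (by decide +kernel) (ClAll.succ (ClAll.succ ClAll.zero n30) n31)

def n56 : Cl (O (nat_lit 3)) (R (nat_lit 104577))
    (p (nat_lit 0xc9) (nat_lit 0) (p (nat_lit 0x81) (nat_lit 0) (p (nat_lit 0x101) (nat_lit 1) (p (nat_lit 0x119) (nat_lit 0) (p (nat_lit 0xd1) (nat_lit 0) (p (nat_lit 0x89) (nat_lit 0) (p (nat_lit 0x41) (nat_lit 0) (p (nat_lit 0x8a090b098a9a) (nat_lit 0) (p (nat_lit 0x9888a890a1a) (nat_lit 0) (p (nat_lit 0x89080a08879a) (nat_lit 0) (p (nat_lit 0x8878988071a) (nat_lit 0) (p (nat_lit 0x80000800080907888a) (nat_lit 0) (p (nat_lit 0x80000800078887060a) (nat_lit 0) (p (nat_lit 0x8608068782) (nat_lit 0) (p (nat_lit 0x587860702)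 (nat_lit 0) (p (nat_lit 0x8507058482) (nat_lit 0) (p (nat_lit 0x486850402) (nat_lit 0) (p (nat_lit 0x160014) (nat_lit 0) (p (nat_lit 0x50612) (nat_lit 0) (p (nat_lit 0x38592) (nat_lit 0) (p (nat_lit 0x40492) (nat_lit 0) (p (nat_lit 0x28412) (nat_lit 0) (p (nat_lit 0x30292) (nat_lit 0) (p (nat_lit 0x18212) (nat_lit 0) (p (nat_lit 0x20092) (nat_lit 0) (p (nat_lit 0x8012) (nat_lit 0) pn)))))))))))))))))))))))))) :=
  Cl.node (nat_lit 0x200004) (nat_lit 2) (by decide +kernel) (ClAll.succ (ClAll.succ ClAll.zero s10) s11)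

def n57 : Cl (O (nat_lit 3)) (R (nat_lit 104577))
    (p (nat_lit 0xc9) (nat_lit 1) (p (nat_lit 0x81) (nat_lit 0) (p (nat_lit 0x101) (nat_lit 1) (p (nat_lit 0x119) (nat_lit 0) (p (nat_lit 0xd1) (nat_lit 0) (p (nat_lit 0x89) (nat_lit 0) (p (nat_lit 0x41) (nat_lit 0) (p (nat_lit 0x8a090b098a9a) (nat_lit 0) (p (nat_lit 0x9888a890a1a) (nat_lit 0) (p (nat_lit 0x89080a08879a) (nat_lit 0) (p (nat_lit 0x8878988071a) (nat_lit 0) (p (nat_lit 0x80000800080907888a) (nat_lit 0) (p (nat_lit 0x80000800078887060a) (nat_lit 0) (p (nat_lit 0x8608068782) (nat_lit 0) (p (nat_lit 0x587860702) (nat_lit 0) (p (nat_lit 0x8507058482) (nat_lit 0) (p (nat_lit 0x486850402) (nat_lit 0) (p (nat_lit 0x160014) (nat_lit 0) (p (nat_lit 0x50612) (nat_lit 0) (p (nat_lit 0x38592) (nat_lit 0) (p (nat_lit 0x40492) (nat_lit 0) (p (nat_lit 0x28412) (nat_lit 0) (p (nat_lit 0x30292) (nat_lit 0) (p (nat_lit 0x18212) (nat_lit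 0) (p (nat_lit 0x20092) (nat_lit 0) (p (nat_lit 0x8012) (nat_lit 0) pn)))))))))))))))))))))))))) :=
  Cl.node (nat_lit 0x200004) (nat_lit 2) (by decide +kernel) (ClAll.succ (ClAll.succ ClAll.zero n32) n33)

def n58 : Cl (O (nat_lit 3)) (R (nat_lit 104577))
    (p (nat_lit 0xc1) (nat_lit 0) (p (nat_lit 0x81) (nat_lit 1) (p (nat_lit 0x101) (nat_lit 1) (p (nat_lit 0x119) (nat_lit 0) (p (nat_lit 0xd1) (nat_lit 0) (p (nat_lit 0x89) (nat_lit 0) (p (nat_lit 0x41) (nat_lit 0) (p (nat_lit 0x8a090b098a9a) (nat_lit 0) (p (nat_lit 0x9888a890a1a) (nat_lit 0) (p (nat_lit 0x89080a08879a) (nat_lit 0) (p (nat_lit 0x8878988071a) (nat_lit 0) (p (nat_lit 0x80000800080907888a) (nat_lit 0) (p (nat_lit 0x80000800078887060a) (nat_lit 0) (p (nat_lit 0x8608068782) (nat_lit 0) (p (nat_lit 0x587860702) (nat_lit 0) (p (nat_lit 0x8507058482) (nat_lit 0) (p (nat_lit 0x486850402) (nat_lit 0) (p (nat_lit 0x160014)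 (nat_lit 0) (p (nat_lit 0x50612) (nat_lit 0) (p (nat_lit 0x38592) (nat_lit 0) (p (nat_lit 0x40492) (nat_lit 0) (p (nat_lit 0x28412) (nat_lit 0) (p (nat_lit 0x30292) (nat_lit 0) (p (nat_lit 0x18212) (nat_lit 0) (p (nat_lit 0x20092) (nat_lit 0) (p (nat_lit 0x8012) (nat_lit 0) pn)))))))))))))))))))))))))) :=
  Cl.node (nat_lit 0xc9) (nat_lit 2) (by decide +kernel) (ClAll.succ (ClAll.succ ClAll.zero s17) n34)

def n59 : Cl (O (nat_lit 3)) (R (nat_lit 104577))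
    (p (nat_lit 0x109) (nat_lit 1) (p (nat_lit 0xc9) (nat_lit 1) (p (nat_lit 0xc1) (nat_lit 0) (p (nat_lit 0x119) (nat_lit 1) (p (nat_lit 0xd1) (nat_lit 0) (p (nat_lit 0x89) (nat_lit 0) (p (nat_lit 0x41) (nat_lit 0) (p (nat_lit 0x8a090b098a9a) (nat_lit 0) (p (nat_lit 0x9888a890a1a) (nat_lit 0) (p (nat_lit 0x89080a08879a) (nat_lit 0) (p (nat_lit 0x8878988071a) (nat_lit 0) (p (nat_lit 0x80000800080907888a) (nat_lit 0) (p (nat_lit 0x80000800078887060a) (nat_lit 0) (p (nat_lit 0x8608068782) (nat_lit 0) (p (nat_lit 0x587860702) (nat_lit 0) (p (nat_lit 0x8507058482) (nat_lit 0) (p (nat_lit 0x486850402) (nat_lit 0) (p (nat_lit 0x160014) (nat_lit 0) (p (nat_lit 0x50612) (nat_lit 0) (p (nat_lit 0x38592) (nat_lit 0) (p (nat_lit 0x40492) (nat_lit 0) (p (nat_lit 0x28412) (nat_lit 0) (p (nat_lit 0x30292) (nat_lit 0) (p (nat_lit 0x18212) (nat_lit 0) (p (nat_lit 0x20092) (nat_lit 0) (p (nat_lit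 0x8012) (nat_lit 0) pn)))))))))))))))))))))))))) :=
  Cl.node (nat_lit 0x200004) (nat_lit 2) (by decide +kernel) (ClAll.succ (ClAll.succ ClAll.zero s23) s24)

def n60 : Cl (O (nat_lit 3)) (R (nat_lit 104577))
    (p (nat_lit 0x109) (nat_lit 1) (p (nat_lit 0x81) (nat_lit 0) (p (nat_lit 0xc1) (nat_lit 1) (p (nat_lit 0x119) (nat_lit 1) (p (nat_lit 0xd1) (nat_lit 0) (p (nat_lit 0x89) (nat_lit 0) (p (nat_lit 0x41) (nat_lit 0) (p (nat_lit 0x8a090b098a9a) (nat_lit 0) (p (nat_lit 0x9888a890a1a) (nat_lit 0) (p (nat_lit 0x89080a08879a) (nat_lit 0) (p (nat_lit 0x8878988071a) (nat_lit 0) (p (nat_lit 0x80000800080907888a) (nat_lit 0) (p (nat_lit 0x80000800078887060a) (nat_lit 0) (p (nat_lit 0x8608068782) (nat_lit 0) (p (nat_lit 0x587860702) (nat_lit 0) (p (nat_lit 0x8507058482) (nat_lit 0) (p (nat_lit 0x486850402) (nat_lit 0) (p (nat_lit 0x160014) (nat_lit 0) (p (nat_lit 0x50612) (nat_lit 0)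 (p (nat_lit 0x38592) (nat_lit 0) (p (nat_lit 0x40492) (nat_lit 0) (p (nat_lit 0x28412) (nat_lit 0) (p (nat_lit 0x30292) (nat_lit 0) (p (nat_lit 0x18212) (nat_lit 0) (p (nat_lit 0x20092) (nat_lit 0) (p (nat_lit 0x8012) (nat_lit 0) pn)))))))))))))))))))))))))) :=
  Cl.node (nat_lit 0x200004) (nat_lit 2) (by decide +kernel) (ClAll.succ (ClAll.succ ClAll.zero s26) s27)

def n61 : Cl (O (nat_lit 3)) (R (nat_lit 104577))
    (p (nat_lit 0x101) (nat_lit 0) (p (nat_lit 0x81) (nat_lit 1) (p (nat_lit 0xc1) (nat_lit 1) (p (nat_lit 0x119) (nat_lit 1) (p (nat_lit 0xd1) (nat_lit 0) (p (nat_lit 0x89) (nat_lit 0) (p (nat_lit 0x41) (nat_lit 0) (p (nat_lit 0x8a090b098a9a) (nat_lit 0) (p (nat_lit 0x9888a890a1a) (nat_lit 0) (p (nat_lit 0x89080a08879a) (nat_lit 0) (p (nat_lit 0x8878988071a) (nat_lit 0) (p (nat_lit 0x80000800080907888a) (nat_lit 0) (p (nat_lit 0x80000800078887060a) (nat_lit 0) (p (nat_lit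 0x8608068782) (nat_lit 0) (p (nat_lit 0x587860702) (nat_lit 0) (p (nat_lit 0x8507058482) (nat_lit 0) (p (nat_lit 0x486850402) (nat_lit 0) (p (nat_lit 0x160014) (nat_lit 0) (p (nat_lit 0x50612) (nat_lit 0) (p (nat_lit 0x38592) (nat_lit 0) (p (nat_lit 0x40492) (nat_lit 0) (p (nat_lit 0x28412) (nat_lit 0) (p (nat_lit 0x30292) (nat_lit 0) (p (nat_lit 0x18212) (nat_lit 0) (p (nat_lit 0x20092) (nat_lit 0) (p (nat_lit 0x8012) (nat_lit 0) pn)))))))))))))))))))))))))) :=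
  Cl.node (nat_lit 0x109) (nat_lit 2) (by decide +kernel) (ClAll.succ (ClAll.succ ClAll.zero s28) n35)

def n62 : Cl (O (nat_lit 3)) (R (nat_lit 104577))
    (p (nat_lit 0x200004) (nat_lit 0) (p (nat_lit 0x109) (nat_lit 1) (p (nat_lit 0x101) (nat_lit 0) (p (nat_lit 0x111) (nat_lit 0) (p (nat_lit 0xd1) (nat_lit 1) (p (nat_lit 0x89) (nat_lit 0) (p (nat_lit 0x41) (nat_lit 0) (p (nat_lit 0x8a090b098a9a) (nat_lit 0) (p (nat_lit 0x9888a890a1a) (nat_lit 0) (p (nat_lit 0x89080a08879a) (nat_lit 0) (p (nat_lit 0x8878988071a) (nat_lit 0) (p (nat_lit 0x80000800080907888a) (nat_lit 0) (p (nat_lit 0x80000800078887060a) (nat_lit 0) (p (nat_lit 0x8608068782) (nat_lit 0) (p (nat_lit 0x587860702) (nat_lit 0) (p (nat_lit 0x8507058482) (nat_lit 0) (p (nat_lit 0x486850402) (nat_lit 0) (p (nat_lit 0x160014) (nat_lit 0) (p (nat_lit 0x50612) (nat_lit 0) (p (nat_lit 0x38592) (nat_lit 0) (p (nat_lit 0x40492)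 (nat_lit 0) (p (nat_lit 0x28412) (nat_lit 0) (p (nat_lit 0x30292) (nat_lit 0) (p (nat_lit 0x18212) (nat_lit 0) (p (nat_lit 0x20092) (nat_lit 0) (p (nat_lit 0x8012) (nat_lit 0) pn)))))))))))))))))))))))))) :=
  Cl.node (nat_lit 0x20000c) (nat_lit 2) (by decide +kernel) (ClAll.succ (ClAll.succ ClAll.zero s34) n36)

def n63 : Cl (O (nat_lit 3)) (R (nat_lit 104577))
    (p (nat_lit 0x200004) (nat_lit 1) (p (nat_lit 0x109) (nat_lit 1) (p (nat_lit 0x101) (nat_lit 0) (p (nat_lit 0x111) (nat_lit 0) (p (nat_lit 0xd1) (nat_lit 1) (p (nat_lit 0x89) (nat_lit 0) (p (nat_lit 0x41) (nat_lit 0) (p (nat_lit 0x8a090b098a9a) (nat_lit 0) (p (nat_lit 0x9888a890a1a) (nat_lit 0) (p (nat_lit 0x89080a08879a) (nat_lit 0) (p (nat_lit 0x8878988071a) (nat_lit 0) (p (nat_lit 0x80000800080907888a) (nat_lit 0) (p (nat_lit 0x80000800078887060a) (nat_lit 0) (p (nat_lit 0x8608068782) (nat_lit 0) (p (nat_lit 0x587860702)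 (nat_lit 0) (p (nat_lit 0x8507058482) (nat_lit 0) (p (nat_lit 0x486850402) (nat_lit 0) (p (nat_lit 0x160014) (nat_lit 0) (p (nat_lit 0x50612) (nat_lit 0) (p (nat_lit 0x38592) (nat_lit 0) (p (nat_lit 0x40492) (nat_lit 0) (p (nat_lit 0x28412) (nat_lit 0) (p (nat_lit 0x30292) (nat_lit 0) (p (nat_lit 0x18212) (nat_lit 0) (p (nat_lit 0x20092) (nat_lit 0) (p (nat_lit 0x8012) (nat_lit 0) pn)))))))))))))))))))))))))) :=
  Cl.node (nat_lit 0xb0014) (nat_lit 2) (by decide +kernel) (ClAll.succ (ClAll.succ ClAll.zero n37) s43)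

def n64 : Cl (O (nat_lit 3)) (R (nat_lit 104577))
    (p (nat_lit 0x200004) (nat_lit 0) (p (nat_lit 0x81) (nat_lit 0) (p (nat_lit 0x101) (nat_lit 1) (p (nat_lit 0x111) (nat_lit 0) (p (nat_lit 0xd1) (nat_lit 1) (p (nat_lit 0x89) (nat_lit 0) (p (nat_lit 0x41) (nat_lit 0) (p (nat_lit 0x8a090b098a9a) (nat_lit 0) (p (nat_lit 0x9888a890a1a) (nat_lit 0) (p (nat_lit 0x89080a08879a) (nat_lit 0) (p (nat_lit 0x8878988071a) (nat_lit 0) (p (nat_lit 0x80000800080907888a) (nat_lit 0) (p (nat_lit 0x80000800078887060a) (nat_lit 0) (p (nat_lit 0x8608068782) (nat_lit 0) (p (nat_lit 0x587860702) (nat_lit 0) (p (nat_lit 0x8507058482) (nat_lit 0) (p (nat_lit 0x486850402) (nat_lit 0) (p (nat_lit 0x160014) (nat_lit 0) (p (nat_lit 0x50612) (nat_lit 0) (p (nat_lit 0x38592) (nat_lit 0) (p (nat_lit 0x40492) (nat_lit 0) (p (nat_lit 0x28412) (nat_lit 0) (p (nat_lit 0x30292) (nat_lit 0) (p (nat_lit 0x18212)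 (nat_lit 0) (p (nat_lit 0x20092) (nat_lit 0) (p (nat_lit 0x8012) (nat_lit 0) pn)))))))))))))))))))))))))) :=
  Cl.node (nat_lit 0x20000c) (nat_lit 2) (by decide +kernel) (ClAll.succ (ClAll.succ ClAll.zero s44) s45)

def n65 : Cl (O (nat_lit 3)) (R (nat_lit 104577))
    (p (nat_lit 0x200004) (nat_lit 1) (p (nat_lit 0x81) (nat_lit 0) (p (nat_lit 0x101) (nat_lit 1) (p (nat_lit 0x111) (nat_lit 0) (p (nat_lit 0xd1) (nat_lit 1) (p (nat_lit 0x89) (nat_lit 0) (p (nat_lit 0x41) (nat_lit 0) (p (nat_lit 0x8a090b098a9a) (nat_lit 0) (p (nat_lit 0x9888a890a1a) (nat_lit 0) (p (nat_lit 0x89080a08879a) (nat_lit 0) (p (nat_lit 0x8878988071a) (nat_lit 0) (p (nat_lit 0x80000800080907888a) (nat_lit 0) (p (nat_lit 0x80000800078887060a) (nat_lit 0) (p (nat_lit 0x8608068782) (nat_lit 0) (p (nat_lit 0x587860702) (nat_lit 0) (p (nat_lit 0x8507058482) (nat_lit 0) (p (nat_lit 0x486850402) (nat_lit 0) (p (nat_lit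 0x160014) (nat_lit 0) (p (nat_lit 0x50612) (nat_lit 0) (p (nat_lit 0x38592) (nat_lit 0) (p (nat_lit 0x40492) (nat_lit 0) (p (nat_lit 0x28412) (nat_lit 0) (p (nat_lit 0x30292) (nat_lit 0) (p (nat_lit 0x18212) (nat_lit 0) (p (nat_lit 0x20092) (nat_lit 0) (p (nat_lit 0x8012) (nat_lit 0) pn)))))))))))))))))))))))))) :=
  Cl.node (nat_lit 0xb0014) (nat_lit 2) (by decide +kernel) (ClAll.succ (ClAll.succ ClAll.zero n38) s49)

def n66 : Cl (O (nat_lit 3)) (R (nat_lit 104577))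
    (p (nat_lit 0xc1) (nat_lit 0) (p (nat_lit 0x81) (nat_lit 1) (p (nat_lit 0x101) (nat_lit 1) (p (nat_lit 0x111) (nat_lit 0) (p (nat_lit 0xd1) (nat_lit 1) (p (nat_lit 0x89) (nat_lit 0) (p (nat_lit 0x41) (nat_lit 0) (p (nat_lit 0x8a090b098a9a) (nat_lit 0) (p (nat_lit 0x9888a890a1a) (nat_lit 0) (p (nat_lit 0x89080a08879a) (nat_lit 0) (p (nat_lit 0x8878988071a) (nat_lit 0) (p (nat_lit 0x80000800080907888a) (nat_lit 0) (p (nat_lit 0x80000800078887060a) (nat_lit 0) (p (nat_lit 0x8608068782) (nat_lit 0) (p (nat_lit 0x587860702) (nat_lit 0) (p (nat_lit 0x8507058482) (nat_lit 0) (p (nat_lit 0x486850402) (nat_lit 0) (p (nat_lit 0x160014) (nat_lit 0) (p (nat_lit 0x50612) (nat_lit 0) (p (nat_lit 0x38592) (nat_lit 0) (p (nat_lit 0x40492) (nat_lit 0) (p (nat_lit 0x28412) (nat_lit 0) (p (nat_lit 0x30292) (nat_lit 0) (p (nat_lit 0x18212) (nat_lit 0) (p (nat_lit 0x20092) (nat_lit 0) (p (nat_lit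 0x8012) (nat_lit 0) pn)))))))))))))))))))))))))) :=
  Cl.node (nat_lit 0x200004) (nat_lit 2) (by decide +kernel) (ClAll.succ (ClAll.succ ClAll.zero n39) n40)

def n67 : Cl (O (nat_lit 3)) (R (nat_lit 104577))
    (p (nat_lit 0x101) (nat_lit 0) (p (nat_lit 0xc1) (nat_lit 1) (p (nat_lit 0x81) (nat_lit 1) (p (nat_lit 0x111) (nat_lit 1) (p (nat_lit 0xd1) (nat_lit 1) (p (nat_lit 0x89) (nat_lit 0) (p (nat_lit 0x41) (nat_lit 0) (p (nat_lit 0x8a090b098a9a) (nat_lit 0) (p (nat_lit 0x9888a890a1a) (nat_lit 0) (p (nat_lit 0x89080a08879a) (nat_lit 0) (p (nat_lit 0x8878988071a) (nat_lit 0) (p (nat_lit 0x80000800080907888a) (nat_lit 0) (p (nat_lit 0x80000800078887060a) (nat_lit 0) (p (nat_lit 0x8608068782) (nat_lit 0) (p (nat_lit 0x587860702) (nat_lit 0) (p (nat_lit 0x8507058482) (nat_lit 0) (p (nat_lit 0x486850402) (nat_lit 0) (p (nat_lit 0x160014) (nat_lit 0) (p (nat_lit 0x50612) (nat_lit 0)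 (p (nat_lit 0x38592) (nat_lit 0) (p (nat_lit 0x40492) (nat_lit 0) (p (nat_lit 0x28412) (nat_lit 0) (p (nat_lit 0x30292) (nat_lit 0) (p (nat_lit 0x18212) (nat_lit 0) (p (nat_lit 0x20092) (nat_lit 0) (p (nat_lit 0x8012) (nat_lit 0) pn)))))))))))))))))))))))))) :=
  Cl.node (nat_lit 0x200004) (nat_lit 2) (by decide +kernel) (ClAll.succ (ClAll.succ ClAll.zero s59) n41)

def n68 : Cl (O (nat_lit 3)) (R (nat_lit 104577))
    (p (nat_lit 0x111) (nat_lit 1) (p (nat_lit 0x109) (nat_lit 0) (p (nat_lit 0x101) (nat_lit 0) (p (nat_lit 0x119) (nat_lit 0) (p (nat_lit 0xc9) (nat_lit 0) (p (nat_lit 0x89) (nat_lit 1) (p (nat_lit 0x41) (nat_lit 0) (p (nat_lit 0x8a090b098a9a) (nat_lit 0) (p (nat_lit 0x9888a890a1a) (nat_lit 0) (p (nat_lit 0x89080a08879a) (nat_lit 0) (p (nat_lit 0x8878988071a) (nat_lit 0) (p (nat_lit 0x80000800080907888a) (nat_lit 0) (p (nat_lit 0x80000800078887060a) (nat_lit 0) (p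 (nat_lit 0x8608068782) (nat_lit 0) (p (nat_lit 0x587860702) (nat_lit 0) (p (nat_lit 0x8507058482) (nat_lit 0) (p (nat_lit 0x486850402) (nat_lit 0) (p (nat_lit 0x160014) (nat_lit 0) (p (nat_lit 0x50612) (nat_lit 0) (p (nat_lit 0x38592) (nat_lit 0) (p (nat_lit 0x40492) (nat_lit 0) (p (nat_lit 0x28412) (nat_lit 0) (p (nat_lit 0x30292) (nat_lit 0) (p (nat_lit 0x18212) (nat_lit 0) (p (nat_lit 0x20092) (nat_lit 0) (p (nat_lit 0x8012) (nat_lit 0) pn)))))))))))))))))))))))))) :=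
  Cl.node (nat_lit 0xd1) (nat_lit 2) (by decide +kernel) (ClAll.succ (ClAll.succ ClAll.zero s65) n42)

def n69 : Cl (O (nat_lit 3)) (R (nat_lit 104577))
    (p (nat_lit 0xd1) (nat_lit 0) (p (nat_lit 0x109) (nat_lit 1) (p (nat_lit 0x101) (nat_lit 0) (p (nat_lit 0x119) (nat_lit 0) (p (nat_lit 0xc9) (nat_lit 0) (p (nat_lit 0x89) (nat_lit 1) (p (nat_lit 0x41) (nat_lit 0) (p (nat_lit 0x8a090b098a9a) (nat_lit 0) (p (nat_lit 0x9888a890a1a) (nat_lit 0) (p (nat_lit 0x89080a08879a) (nat_lit 0) (p (nat_lit 0x8878988071a) (nat_lit 0) (p (nat_lit 0x80000800080907888a) (nat_lit 0) (p (nat_lit 0x80000800078887060a) (nat_lit 0) (p (nat_lit 0x8608068782) (nat_lit 0) (p (nat_lit 0x587860702) (nat_lit 0) (p (nat_lit 0x8507058482) (nat_lit 0) (p (nat_lit 0x486850402) (nat_lit 0) (p (nat_lit 0x160014) (nat_lit 0) (p (nat_lit 0x50612) (nat_lit 0) (p (nat_lit 0x38592) (nat_lit 0) (p (nat_lit 0x40492)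 (nat_lit 0) (p (nat_lit 0x28412) (nat_lit 0) (p (nat_lit 0x30292) (nat_lit 0) (p (nat_lit 0x18212) (nat_lit 0) (p (nat_lit 0x20092) (nat_lit 0) (p (nat_lit 0x8012) (nat_lit 0) pn)))))))))))))))))))))))))) :=
  Cl.node (nat_lit 0x200004) (nat_lit 2) (by decide +kernel) (ClAll.succ (ClAll.succ ClAll.zero n43) s73)

def n70 : Cl (O (nat_lit 3)) (R (nat_lit 104577))
    (p (nat_lit 0xd1) (nat_lit 1) (p (nat_lit 0x109) (nat_lit 1) (p (nat_lit 0x101) (nat_lit 0) (p (nat_lit 0x119) (nat_lit 0) (p (nat_lit 0xc9) (nat_lit 0) (p (nat_lit 0x89) (nat_lit 1) (p (nat_lit 0x41) (nat_lit 0) (p (nat_lit 0x8a090b098a9a) (nat_lit 0) (p (nat_lit 0x9888a890a1a) (nat_lit 0) (p (nat_lit 0x89080a08879a) (nat_lit 0) (p (nat_lit 0x8878988071a) (nat_lit 0) (p (nat_lit 0x80000800080907888a) (nat_lit 0) (p (nat_lit 0x80000800078887060a) (nat_lit 0) (p (nat_lit 0x8608068782) (nat_lit 0) (p (nat_lit 0x587860702)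 (nat_lit 0) (p (nat_lit 0x8507058482) (nat_lit 0) (p (nat_lit 0x486850402) (nat_lit 0) (p (nat_lit 0x160014) (nat_lit 0) (p (nat_lit 0x50612) (nat_lit 0) (p (nat_lit 0x38592) (nat_lit 0) (p (nat_lit 0x40492) (nat_lit 0) (p (nat_lit 0x28412) (nat_lit 0) (p (nat_lit 0x30292) (nat_lit 0) (p (nat_lit 0x18212) (nat_lit 0) (p (nat_lit 0x20092) (nat_lit 0) (p (nat_lit 0x8012) (nat_lit 0) pn)))))))))))))))))))))))))) :=
  Cl.node (nat_lit 0x200004) (nat_lit 2) (by decide +kernel) (ClAll.succ (ClAll.succ ClAll.zero n44) n45)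

def n71 : Cl (O (nat_lit 3)) (R (nat_lit 104577))
    (p (nat_lit 0xd1) (nat_lit 0) (p (nat_lit 0xc1) (nat_lit 0) (p (nat_lit 0x101) (nat_lit 1) (p (nat_lit 0x119) (nat_lit 0) (p (nat_lit 0xc9) (nat_lit 0) (p (nat_lit 0x89) (nat_lit 1) (p (nat_lit 0x41) (nat_lit 0) (p (nat_lit 0x8a090b098a9a) (nat_lit 0) (p (nat_lit 0x9888a890a1a) (nat_lit 0) (p (nat_lit 0x89080a08879a) (nat_lit 0) (p (nat_lit 0x8878988071a) (nat_lit 0) (p (nat_lit 0x80000800080907888a) (nat_lit 0) (p (nat_lit 0x80000800078887060a) (nat_lit 0) (p (nat_lit 0x8608068782) (nat_lit 0) (p (nat_lit 0x587860702) (nat_lit 0) (p (nat_lit 0x8507058482) (nat_lit 0) (p (nat_lit 0x486850402) (nat_lit 0) (p (nat_lit 0x160014) (nat_lit 0) (p (nat_lit 0x50612) (nat_lit 0) (p (nat_lit 0x38592) (nat_lit 0) (p (nat_lit 0x40492) (nat_lit 0) (p (nat_lit 0x28412) (nat_lit 0) (p (nat_lit 0x30292) (nat_lit 0) (p (nat_lit 0x18212) (nat_lit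 0) (p (nat_lit 0x20092) (nat_lit 0) (p (nat_lit 0x8012) (nat_lit 0) pn)))))))))))))))))))))))))) :=
  Cl.node (nat_lit 0x200004) (nat_lit 2) (by decide +kernel) (ClAll.succ (ClAll.succ ClAll.zero n46) s84)

def n72 : Cl (O (nat_lit 3)) (R (nat_lit 104577))
    (p (nat_lit 0xd1) (nat_lit 1) (p (nat_lit 0xc1) (nat_lit 0) (p (nat_lit 0x101) (nat_lit 1) (p (nat_lit 0x119) (nat_lit 0) (p (nat_lit 0xc9) (nat_lit 0) (p (nat_lit 0x89) (nat_lit 1) (p (nat_lit 0x41) (nat_lit 0) (p (nat_lit 0x8a090b098a9a) (nat_lit 0) (p (nat_lit 0x9888a890a1a) (nat_lit 0) (p (nat_lit 0x89080a08879a) (nat_lit 0) (p (nat_lit 0x8878988071a) (nat_lit 0) (p (nat_lit 0x80000800080907888a) (nat_lit 0) (p (nat_lit 0x80000800078887060a) (nat_lit 0) (p (nat_lit 0x8608068782) (nat_lit 0) (p (nat_lit 0x587860702) (nat_lit 0) (p (nat_lit 0x8507058482) (nat_lit 0) (p (nat_lit 0x486850402) (nat_lit 0) (p (nat_lit 0x160014)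 (nat_lit 0) (p (nat_lit 0x50612) (nat_lit 0) (p (nat_lit 0x38592) (nat_lit 0) (p (nat_lit 0x40492) (nat_lit 0) (p (nat_lit 0x28412) (nat_lit 0) (p (nat_lit 0x30292) (nat_lit 0) (p (nat_lit 0x18212) (nat_lit 0) (p (nat_lit 0x20092) (nat_lit 0) (p (nat_lit 0x8012) (nat_lit 0) pn)))))))))))))))))))))))))) :=
  Cl.node (nat_lit 0x200004) (nat_lit 2) (by decide +kernel) (ClAll.succ (ClAll.succ ClAll.zero s85) s86)

def n73 : Cl (O (nat_lit 3)) (R (nat_lit 104577))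
    (p (nat_lit 0x111) (nat_lit 1) (p (nat_lit 0xd1) (nat_lit 1) (p (nat_lit 0xc1) (nat_lit 0) (p (nat_lit 0x119) (nat_lit 1) (p (nat_lit 0xc9) (nat_lit 0) (p (nat_lit 0x89) (nat_lit 1) (p (nat_lit 0x41) (nat_lit 0) (p (nat_lit 0x8a090b098a9a) (nat_lit 0) (p (nat_lit 0x9888a890a1a) (nat_lit 0) (p (nat_lit 0x89080a08879a) (nat_lit 0) (p (nat_lit 0x8878988071a) (nat_lit 0) (p (nat_lit 0x80000800080907888a) (nat_lit 0) (p (nat_lit 0x80000800078887060a) (nat_lit 0) (p (nat_lit 0x8608068782) (nat_lit 0) (p (nat_lit 0x587860702) (nat_lit 0) (p (nat_lit 0x8507058482) (nat_lit 0) (p (nat_lit 0x486850402) (nat_lit 0) (p (nat_lit 0x160014) (nat_lit 0) (p (nat_lit 0x50612) (nat_lit 0) (p (nat_lit 0x38592) (nat_lit 0) (p (nat_lit 0x40492) (nat_lit 0) (p (nat_lit 0x28412) (nat_lit 0) (p (nat_lit 0x30292) (nat_lit 0) (p (nat_lit 0x18212) (nat_lit 0) (p (nat_lit 0x20092) (nat_lit 0) (p (nat_lit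 0x8012) (nat_lit 0) pn)))))))))))))))))))))))))) :=
  Cl.node (nat_lit 0x200004) (nat_lit 2) (by decide +kernel) (ClAll.succ (ClAll.succ ClAll.zero n47) s92)

def n74 : Cl (O (nat_lit 3)) (R (nat_lit 104577))
    (p (nat_lit 0x111) (nat_lit 1) (p (nat_lit 0x101) (nat_lit 0) (p (nat_lit 0xc1) (nat_lit 1) (p (nat_lit 0x119) (nat_lit 1) (p (nat_lit 0xc9) (nat_lit 0) (p (nat_lit 0x89) (nat_lit 1) (p (nat_lit 0x41) (nat_lit 0) (p (nat_lit 0x8a090b098a9a) (nat_lit 0) (p (nat_lit 0x9888a890a1a) (nat_lit 0) (p (nat_lit 0x89080a08879a) (nat_lit 0) (p (nat_lit 0x8878988071a) (nat_lit 0) (p (nat_lit 0x80000800080907888a) (nat_lit 0) (p (nat_lit 0x80000800078887060a) (nat_lit 0) (p (nat_lit 0x8608068782) (nat_lit 0) (p (nat_lit 0x587860702) (nat_lit 0) (p (nat_lit 0x8507058482) (nat_lit 0) (p (nat_lit 0x486850402) (nat_lit 0) (p (nat_lit 0x160014) (nat_lit 0) (p (nat_lit 0x50612) (nat_lit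 0) (p (nat_lit 0x38592) (nat_lit 0) (p (nat_lit 0x40492) (nat_lit 0) (p (nat_lit 0x28412) (nat_lit 0) (p (nat_lit 0x30292) (nat_lit 0) (p (nat_lit 0x18212) (nat_lit 0) (p (nat_lit 0x20092) (nat_lit 0) (p (nat_lit 0x8012) (nat_lit 0) pn)))))))))))))))))))))))))) :=
  Cl.node (nat_lit 0x200004) (nat_lit 2) (by decide +kernel) (ClAll.succ (ClAll.succ ClAll.zero n48) s98)

def n75 : Cl (O (nat_lit 3)) (R (nat_lit 104577))
    (p (nat_lit 0x119) (nat_lit 1) (p (nat_lit 0x111) (nat_lit 0) (p (nat_lit 0x101) (nat_lit 0) (p (nat_lit 0x109) (nat_lit 0) (p (nat_lit 0xc9) (nat_lit 1) (p (nat_lit 0x89) (nat_lit 1) (p (nat_lit 0x41) (nat_lit 0) (p (nat_lit 0x8a090b098a9a) (nat_lit 0) (p (nat_lit 0x9888a890a1a) (nat_lit 0) (p (nat_lit 0x89080a08879a) (nat_lit 0) (p (nat_lit 0x8878988071a) (nat_lit 0) (p (nat_lit 0x80000800080907888a) (nat_lit 0) (p (nat_lit 0x80000800078887060a) (nat_lit 0)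 (p (nat_lit 0x8608068782) (nat_lit 0) (p (nat_lit 0x587860702) (nat_lit 0) (p (nat_lit 0x8507058482) (nat_lit 0) (p (nat_lit 0x486850402) (nat_lit 0) (p (nat_lit 0x160014) (nat_lit 0) (p (nat_lit 0x50612) (nat_lit 0) (p (nat_lit 0x38592) (nat_lit 0) (p (nat_lit 0x40492) (nat_lit 0) (p (nat_lit 0x28412) (nat_lit 0) (p (nat_lit 0x30292) (nat_lit 0) (p (nat_lit 0x18212) (nat_lit 0) (p (nat_lit 0x20092) (nat_lit 0) (p (nat_lit 0x8012) (nat_lit 0) pn)))))))))))))))))))))))))) :=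
  Cl.node (nat_lit 0x200004) (nat_lit 2) (by decide +kernel) (ClAll.succ (ClAll.succ ClAll.zero s101) s102)

def n76 : Cl (O (nat_lit 3)) (R (nat_lit 104577))
    (p (nat_lit 0x89) (nat_lit 0) (p (nat_lit 0x109) (nat_lit 1) (p (nat_lit 0x101) (nat_lit 0) (p (nat_lit 0x119) (nat_lit 0) (p (nat_lit 0xd1) (nat_lit 0) (p (nat_lit 0x81) (nat_lit 0) (p (nat_lit 0x41) (nat_lit 1) (p (nat_lit 0x8a090b098a9a) (nat_lit 0) (p (nat_lit 0x9888a890a1a) (nat_lit 0) (p (nat_lit 0x89080a08879a) (nat_lit 0) (p (nat_lit 0x8878988071a) (nat_lit 0) (p (nat_lit 0x80000800080907888a) (nat_lit 0) (p (nat_lit 0x80000800078887060a) (nat_lit 0) (p (nat_lit 0x8608068782) (nat_lit 0) (p (nat_lit 0x587860702) (nat_lit 0) (p (nat_lit 0x8507058482) (nat_lit 0) (p (nat_lit 0x486850402) (nat_lit 0) (p (nat_lit 0x160014) (nat_lit 0) (p (nat_lit 0x50612) (nat_lit 0) (p (nat_lit 0x38592) (nat_lit 0) (p (nat_lit 0x40492)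 (nat_lit 0) (p (nat_lit 0x28412) (nat_lit 0) (p (nat_lit 0x30292) (nat_lit 0) (p (nat_lit 0x18212) (nat_lit 0) (p (nat_lit 0x20092) (nat_lit 0) (p (nat_lit 0x8012) (nat_lit 0) pn)))))))))))))))))))))))))) :=
  Cl.node (nat_lit 0x200004) (nat_lit 2) (by decide +kernel) (ClAll.succ (ClAll.succ ClAll.zero n49) s109)

def n77 : Cl (O (nat_lit 3)) (R (nat_lit 104577))
    (p (nat_lit 0x89) (nat_lit 1) (p (nat_lit 0x109) (nat_lit 1) (p (nat_lit 0x101) (nat_lit 0) (p (nat_lit 0x119) (nat_lit 0) (p (nat_lit 0xd1) (nat_lit 0) (p (nat_lit 0x81) (nat_lit 0) (p (nat_lit 0x41) (nat_lit 1) (p (nat_lit 0x8a090b098a9a) (nat_lit 0) (p (nat_lit 0x9888a890a1a) (nat_lit 0) (p (nat_lit 0x89080a08879a) (nat_lit 0) (p (nat_lit 0x8878988071a) (nat_lit 0) (p (nat_lit 0x80000800080907888a) (nat_lit 0) (p (nat_lit 0x80000800078887060a) (nat_lit 0) (p (nat_lit 0x8608068782) (nat_lit 0) (p (nat_lit 0x587860702)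 (nat_lit 0) (p (nat_lit 0x8507058482) (nat_lit 0) (p (nat_lit 0x486850402) (nat_lit 0) (p (nat_lit 0x160014) (nat_lit 0) (p (nat_lit 0x50612) (nat_lit 0) (p (nat_lit 0x38592) (nat_lit 0) (p (nat_lit 0x40492) (nat_lit 0) (p (nat_lit 0x28412) (nat_lit 0) (p (nat_lit 0x30292) (nat_lit 0) (p (nat_lit 0x18212) (nat_lit 0) (p (nat_lit 0x20092) (nat_lit 0) (p (nat_lit 0x8012) (nat_lit 0) pn)))))))))))))))))))))))))) :=
  Cl.node (nat_lit 0xc9) (nat_lit 2) (by decide +kernel) (ClAll.succ (ClAll.succ ClAll.zero s110) s111)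

def n78 : Cl (O (nat_lit 3)) (R (nat_lit 104577))
    (p (nat_lit 0x89) (nat_lit 1) (p (nat_lit 0xc1) (nat_lit 0) (p (nat_lit 0x101) (nat_lit 1) (p (nat_lit 0x119) (nat_lit 0) (p (nat_lit 0xd1) (nat_lit 0) (p (nat_lit 0x81) (nat_lit 0) (p (nat_lit 0x41) (nat_lit 1) (p (nat_lit 0x8a090b098a9a) (nat_lit 0) (p (nat_lit 0x9888a890a1a) (nat_lit 0) (p (nat_lit 0x89080a08879a) (nat_lit 0) (p (nat_lit 0x8878988071a) (nat_lit 0) (p (nat_lit 0x80000800080907888a) (nat_lit 0) (p (nat_lit 0x80000800078887060a) (nat_lit 0) (p (nat_lit 0x8608068782) (nat_lit 0) (p (nat_lit 0x587860702) (nat_lit 0) (p (nat_lit 0x8507058482) (nat_lit 0) (p (nat_lit 0x486850402) (nat_lit 0) (p (nat_lit 0x160014) (nat_lit 0) (p (nat_lit 0x50612) (nat_lit 0) (p (nat_lit 0x38592) (nat_lit 0) (p (nat_lit 0x40492) (nat_lit 0) (p (nat_lit 0x28412) (nat_lit 0) (p (nat_lit 0x30292) (nat_lit 0) (p (nat_lit 0x18212) (nat_lit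 0) (p (nat_lit 0x20092) (nat_lit 0) (p (nat_lit 0x8012) (nat_lit 0) pn)))))))))))))))))))))))))) :=
  Cl.node (nat_lit 0xc9) (nat_lit 2) (by decide +kernel) (ClAll.succ (ClAll.succ ClAll.zero s113) s114)

def n79 : Cl (O (nat_lit 3)) (R (nat_lit 104577))
    (p (nat_lit 0x89) (nat_lit 0) (p (nat_lit 0xc1) (nat_lit 1) (p (nat_lit 0x101) (nat_lit 1) (p (nat_lit 0x119) (nat_lit 0) (p (nat_lit 0xd1) (nat_lit 0) (p (nat_lit 0x81) (nat_lit 0) (p (nat_lit 0x41) (nat_lit 1) (p (nat_lit 0x8a090b098a9a) (nat_lit 0) (p (nat_lit 0x9888a890a1a) (nat_lit 0) (p (nat_lit 0x89080a08879a) (nat_lit 0) (p (nat_lit 0x8878988071a) (nat_lit 0) (p (nat_lit 0x80000800080907888a) (nat_lit 0) (p (nat_lit 0x80000800078887060a) (nat_lit 0) (p (nat_lit 0x8608068782) (nat_lit 0) (p (nat_lit 0x587860702) (nat_lit 0) (p (nat_lit 0x8507058482) (nat_lit 0) (p (nat_lit 0x486850402) (nat_lit 0) (p (nat_lit 0x160014)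 (nat_lit 0) (p (nat_lit 0x50612) (nat_lit 0) (p (nat_lit 0x38592) (nat_lit 0) (p (nat_lit 0x40492) (nat_lit 0) (p (nat_lit 0x28412) (nat_lit 0) (p (nat_lit 0x30292) (nat_lit 0) (p (nat_lit 0x18212) (nat_lit 0) (p (nat_lit 0x20092) (nat_lit 0) (p (nat_lit 0x8012) (nat_lit 0) pn)))))))))))))))))))))))))) :=
  Cl.node (nat_lit 0x200004) (nat_lit 2) (by decide +kernel) (ClAll.succ (ClAll.succ ClAll.zero s115) s116)

def n80 : Cl (O (nat_lit 3)) (R (nat_lit 104577))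
    (p (nat_lit 0x89) (nat_lit 1) (p (nat_lit 0xc1) (nat_lit 1) (p (nat_lit 0x101) (nat_lit 1) (p (nat_lit 0x119) (nat_lit 0) (p (nat_lit 0xd1) (nat_lit 0) (p (nat_lit 0x81) (nat_lit 0) (p (nat_lit 0x41) (nat_lit 1) (p (nat_lit 0x8a090b098a9a) (nat_lit 0) (p (nat_lit 0x9888a890a1a) (nat_lit 0) (p (nat_lit 0x89080a08879a) (nat_lit 0) (p (nat_lit 0x8878988071a) (nat_lit 0) (p (nat_lit 0x80000800080907888a) (nat_lit 0) (p (nat_lit 0x80000800078887060a) (nat_lit 0) (p (nat_lit 0x8608068782) (nat_lit 0) (p (nat_lit 0x587860702) (nat_lit 0) (p (nat_lit 0x8507058482) (nat_lit 0) (p (nat_lit 0x486850402) (nat_lit 0) (p (nat_lit 0x160014) (nat_lit 0) (p (nat_lit 0x50612) (nat_lit 0) (p (nat_lit 0x38592) (nat_lit 0) (p (nat_lit 0x40492) (nat_lit 0) (p (nat_lit 0x28412) (nat_lit 0) (p (nat_lit 0x30292) (nat_lit 0) (p (nat_lit 0x18212) (nat_lit 0) (p (nat_lit 0x20092) (nat_lit 0) (p (nat_lit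 0x8012) (nat_lit 0) pn)))))))))))))))))))))))))) :=
  Cl.node (nat_lit 0x200004) (nat_lit 2) (by decide +kernel) (ClAll.succ (ClAll.succ ClAll.zero s117) n50)

def n81 : Cl (O (nat_lit 3)) (R (nat_lit 104577))
    (p (nat_lit 0x89) (nat_lit 1) (p (nat_lit 0x109) (nat_lit 1) (p (nat_lit 0x101) (nat_lit 0) (p (nat_lit 0x111) (nat_lit 0) (p (nat_lit 0xd1) (nat_lit 1) (p (nat_lit 0x81) (nat_lit 0) (p (nat_lit 0x41) (nat_lit 1) (p (nat_lit 0x8a090b098a9a) (nat_lit 0) (p (nat_lit 0x9888a890a1a) (nat_lit 0) (p (nat_lit 0x89080a08879a) (nat_lit 0) (p (nat_lit 0x8878988071a) (nat_lit 0) (p (nat_lit 0x80000800080907888a) (nat_lit 0) (p (nat_lit 0x80000800078887060a) (nat_lit 0) (p (nat_lit 0x8608068782) (nat_lit 0) (p (nat_lit 0x587860702) (nat_lit 0) (p (nat_lit 0x8507058482) (nat_lit 0) (p (nat_lit 0x486850402) (nat_lit 0) (p (nat_lit 0x160014) (nat_lit 0) (p (nat_lit 0x50612) (nat_lit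 0) (p (nat_lit 0x38592) (nat_lit 0) (p (nat_lit 0x40492) (nat_lit 0) (p (nat_lit 0x28412) (nat_lit 0) (p (nat_lit 0x30292) (nat_lit 0) (p (nat_lit 0x18212) (nat_lit 0) (p (nat_lit 0x20092) (nat_lit 0) (p (nat_lit 0x8012) (nat_lit 0) pn)))))))))))))))))))))))))) :=
  Cl.node (nat_lit 0xc9) (nat_lit 2) (by decide +kernel) (ClAll.succ (ClAll.succ ClAll.zero n51) s132)

def n82 : Cl (O (nat_lit 3)) (R (nat_lit 104577))
    (p (nat_lit 0x200004) (nat_lit 0) (p (nat_lit 0x89) (nat_lit 0) (p (nat_lit 0x101) (nat_lit 1) (p (nat_lit 0x111) (nat_lit 0) (p (nat_lit 0xd1) (nat_lit 1) (p (nat_lit 0x81) (nat_lit 0) (p (nat_lit 0x41) (nat_lit 1) (p (nat_lit 0x8a090b098a9a) (nat_lit 0) (p (nat_lit 0x9888a890a1a) (nat_lit 0) (p (nat_lit 0x89080a08879a) (nat_lit 0) (p (nat_lit 0x8878988071a) (nat_lit 0) (p (nat_lit 0x80000800080907888a) (nat_lit 0) (p (nat_lit 0x80000800078887060a) (nat_lit 0) (p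 (nat_lit 0x8608068782) (nat_lit 0) (p (nat_lit 0x587860702) (nat_lit 0) (p (nat_lit 0x8507058482) (nat_lit 0) (p (nat_lit 0x486850402) (nat_lit 0) (p (nat_lit 0x160014) (nat_lit 0) (p (nat_lit 0x50612) (nat_lit 0) (p (nat_lit 0x38592) (nat_lit 0) (p (nat_lit 0x40492) (nat_lit 0) (p (nat_lit 0x28412) (nat_lit 0) (p (nat_lit 0x30292) (nat_lit 0) (p (nat_lit 0x18212) (nat_lit 0) (p (nat_lit 0x20092) (nat_lit 0) (p (nat_lit 0x8012) (nat_lit 0) pn)))))))))))))))))))))))))) :=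
  Cl.node (nat_lit 0x20000c) (nat_lit 2) (by decide +kernel) (ClAll.succ (ClAll.succ ClAll.zero s133) s134)

def n83 : Cl (O (nat_lit 3)) (R (nat_lit 104577))
    (p (nat_lit 0x200004) (nat_lit 1) (p (nat_lit 0x89) (nat_lit 0) (p (nat_lit 0x101) (nat_lit 1) (p (nat_lit 0x111) (nat_lit 0) (p (nat_lit 0xd1) (nat_lit 1) (p (nat_lit 0x81) (nat_lit 0) (p (nat_lit 0x41) (nat_lit 1) (p (nat_lit 0x8a090b098a9a) (nat_lit 0) (p (nat_lit 0x9888a890a1a) (nat_lit 0) (p (nat_lit 0x89080a08879a) (nat_lit 0) (p (nat_lit 0x8878988071a) (nat_lit 0) (p (nat_lit 0x80000800080907888a) (nat_lit 0) (p (nat_lit 0x80000800078887060a) (nat_lit 0) (p (nat_lit 0x8608068782) (nat_lit 0) (p (nat_lit 0x587860702) (nat_lit 0) (p (nat_lit 0x8507058482) (nat_lit 0) (p (nat_lit 0x486850402) (nat_lit 0) (p (nat_lit 0x160014) (nat_lit 0) (p (nat_lit 0x50612) (nat_lit 0) (p (nat_lit 0x38592) (nat_lit 0) (p (nat_lit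 0x40492) (nat_lit 0) (p (nat_lit 0x28412) (nat_lit 0) (p (nat_lit 0x30292) (nat_lit 0) (p (nat_lit 0x18212) (nat_lit 0) (p (nat_lit 0x20092) (nat_lit 0) (p (nat_lit 0x8012) (nat_lit 0) pn)))))))))))))))))))))))))) :=
  Cl.node (nat_lit 0xb0014) (nat_lit 2) (by decide +kernel) (ClAll.succ (ClAll.succ ClAll.zero n52) s138)

def n84 : Cl (O (nat_lit 3)) (R (nat_lit 104577))
    (p (nat_lit 0xc9) (nat_lit 0) (p (nat_lit 0x89) (nat_lit 1) (p (nat_lit 0x101) (nat_lit 1) (p (nat_lit 0x111) (nat_lit 0) (p (nat_lit 0xd1) (nat_lit 1) (p (nat_lit 0x81) (nat_lit 0) (p (nat_lit 0x41) (nat_lit 1) (p (nat_lit 0x8a090b098a9a) (nat_lit 0) (p (nat_lit 0x9888a890a1a) (nat_lit 0) (p (nat_lit 0x89080a08879a) (nat_lit 0) (p (nat_lit 0x8878988071a) (nat_lit 0) (p (nat_lit 0x80000800080907888a) (nat_lit 0) (p (nat_lit 0x80000800078887060a) (nat_lit 0) (p (nat_lit 0x8608068782) (nat_lit 0) (p (nat_lit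 0x587860702) (nat_lit 0) (p (nat_lit 0x8507058482) (nat_lit 0) (p (nat_lit 0x486850402) (nat_lit 0) (p (nat_lit 0x160014) (nat_lit 0) (p (nat_lit 0x50612) (nat_lit 0) (p (nat_lit 0x38592) (nat_lit 0) (p (nat_lit 0x40492) (nat_lit 0) (p (nat_lit 0x28412) (nat_lit 0) (p (nat_lit 0x30292) (nat_lit 0) (p (nat_lit 0x18212) (nat_lit 0) (p (nat_lit 0x20092) (nat_lit 0) (p (nat_lit 0x8012) (nat_lit 0) pn)))))))))))))))))))))))))) :=
  Cl.node (nat_lit 0x200004) (nat_lit 2) (by decide +kernel) (ClAll.succ (ClAll.succ ClAll.zero s139) n53)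

def n85 : Cl (O (nat_lit 3)) (R (nat_lit 104577))
    (p (nat_lit 0x109) (nat_lit 0) (p (nat_lit 0xc9) (nat_lit 1) (p (nat_lit 0x89) (nat_lit 1) (p (nat_lit 0x111) (nat_lit 1) (p (nat_lit 0xd1) (nat_lit 1) (p (nat_lit 0x81) (nat_lit 0) (p (nat_lit 0x41) (nat_lit 1) (p (nat_lit 0x8a090b098a9a) (nat_lit 0) (p (nat_lit 0x9888a890a1a) (nat_lit 0) (p (nat_lit 0x89080a08879a) (nat_lit 0) (p (nat_lit 0x8878988071a) (nat_lit 0) (p (nat_lit 0x80000800080907888a) (nat_lit 0) (p (nat_lit 0x80000800078887060a) (nat_lit 0) (p (nat_lit 0x8608068782) (nat_lit 0) (p (nat_lit 0x587860702) (nat_lit 0) (p (nat_lit 0x8507058482) (nat_lit 0) (p (nat_lit 0x486850402) (nat_lit 0) (p (nat_lit 0x160014) (nat_lit 0) (p (nat_lit 0x50612) (nat_lit 0) (p (nat_lit 0x38592) (nat_lit 0) (p (nat_lit 0x40492) (nat_lit 0) (p (nat_lit 0x28412) (nat_lit 0) (p (nat_lit 0x30292) (nat_lit 0) (p (nat_lit 0x18212) (nat_lit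 0) (p (nat_lit 0x20092) (nat_lit 0) (p (nat_lit 0x8012) (nat_lit 0) pn)))))))))))))))))))))))))) :=
  Cl.node (nat_lit 0x200004) (nat_lit 2) (by decide +kernel) (ClAll.succ (ClAll.succ ClAll.zero s148) n54)

def n86 : Cl (O (nat_lit 3)) (R (nat_lit 104577))
    (p (nat_lit 0x109) (nat_lit 1) (p (nat_lit 0x101) (nat_lit 0) (p (nat_lit 0x119) (nat_lit 0) (p (nat_lit 0xd1) (nat_lit 0) (p (nat_lit 0x89) (nat_lit 0) (p (nat_lit 0x41) (nat_lit 0) (p (nat_lit 0x8a090b098a9a) (nat_lit 0) (p (nat_lit 0x9888a890a1a) (nat_lit 0) (p (nat_lit 0x89080a08879a) (nat_lit 0) (p (nat_lit 0x8878988071a) (nat_lit 0) (p (nat_lit 0x80000800080907888a) (nat_lit 0) (p (nat_lit 0x80000800078887060a) (nat_lit 0) (p (nat_lit 0x8608068782) (nat_lit 0) (p (nat_lit 0x587860702) (nat_lit 0) (p (nat_lit 0x8507058482) (nat_lit 0) (p (nat_lit 0x486850402) (nat_lit 0) (p (nat_lit 0x160014) (nat_lit 0) (p (nat_lit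 0x50612) (nat_lit 0) (p (nat_lit 0x38592) (nat_lit 0) (p (nat_lit 0x40492) (nat_lit 0) (p (nat_lit 0x28412) (nat_lit 0) (p (nat_lit 0x30292) (nat_lit 0) (p (nat_lit 0x18212) (nat_lit 0) (p (nat_lit 0x20092) (nat_lit 0) (p (nat_lit 0x8012) (nat_lit 0) pn))))))))))))))))))))))))) :=
  Cl.node (nat_lit 0xc9) (nat_lit 2) (by decide +kernel) (ClAll.succ (ClAll.succ ClAll.zero s1) n55)

def n87 : Cl (O (nat_lit 3)) (R (nat_lit 104577))
    (p (nat_lit 0x81) (nat_lit 0) (p (nat_lit 0x101) (nat_lit 1) (p (nat_lit 0x119) (nat_lit 0) (p (nat_lit 0xd1) (nat_lit 0) (p (nat_lit 0x89) (nat_lit 0) (p (nat_lit 0x41) (nat_lit 0) (p (nat_lit 0x8a090b098a9a) (nat_lit 0) (p (nat_lit 0x9888a890a1a) (nat_lit 0) (p (nat_lit 0x89080a08879a) (nat_lit 0) (p (nat_lit 0x8878988071a) (nat_lit 0) (p (nat_lit 0x80000800080907888a) (nat_lit 0) (p (nat_lit 0x80000800078887060a) (nat_lit 0) (p (nat_lit 0x8608068782)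 (nat_lit 0) (p (nat_lit 0x587860702) (nat_lit 0) (p (nat_lit 0x8507058482) (nat_lit 0) (p (nat_lit 0x486850402) (nat_lit 0) (p (nat_lit 0x160014) (nat_lit 0) (p (nat_lit 0x50612) (nat_lit 0) (p (nat_lit 0x38592) (nat_lit 0) (p (nat_lit 0x40492) (nat_lit 0) (p (nat_lit 0x28412) (nat_lit 0) (p (nat_lit 0x30292) (nat_lit 0) (p (nat_lit 0x18212) (nat_lit 0) (p (nat_lit 0x20092) (nat_lit 0) (p (nat_lit 0x8012) (nat_lit 0) pn))))))))))))))))))))))))) :=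
  Cl.node (nat_lit 0xc9) (nat_lit 2) (by decide +kernel) (ClAll.succ (ClAll.succ ClAll.zero n56) n57)

def n88 : Cl (O (nat_lit 3)) (R (nat_lit 104577))
    (p (nat_lit 0x81) (nat_lit 1) (p (nat_lit 0x101) (nat_lit 1) (p (nat_lit 0x119) (nat_lit 0) (p (nat_lit 0xd1) (nat_lit 0) (p (nat_lit 0x89) (nat_lit 0) (p (nat_lit 0x41) (nat_lit 0) (p (nat_lit 0x8a090b098a9a) (nat_lit 0) (p (nat_lit 0x9888a890a1a) (nat_lit 0) (p (nat_lit 0x89080a08879a) (nat_lit 0) (p (nat_lit 0x8878988071a) (nat_lit 0) (p (nat_lit 0x80000800080907888a) (nat_lit 0) (p (nat_lit 0x80000800078887060a) (nat_lit 0) (p (nat_lit 0x8608068782) (nat_lit 0) (p (nat_lit 0x587860702) (nat_lit 0) (p (nat_lit 0x8507058482) (nat_lit 0) (p (nat_lit 0x486850402) (nat_lit 0) (p (nat_lit 0x160014) (nat_lit 0) (p (nat_lit 0x50612) (nat_lit 0) (p (nat_lit 0x38592) (nat_lit 0) (p (nat_lit 0x40492) (nat_lit 0) (p (nat_lit 0x28412)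 (nat_lit 0) (p (nat_lit 0x30292) (nat_lit 0) (p (nat_lit 0x18212) (nat_lit 0) (p (nat_lit 0x20092) (nat_lit 0) (p (nat_lit 0x8012) (nat_lit 0) pn))))))))))))))))))))))))) :=
  Cl.node (nat_lit 0xc1) (nat_lit 2) (by decide +kernel) (ClAll.succ (ClAll.succ ClAll.zero n58) s20)

def n89 : Cl (O (nat_lit 3)) (R (nat_lit 104577))
    (p (nat_lit 0xc9) (nat_lit 1) (p (nat_lit 0xc1) (nat_lit 0) (p (nat_lit 0x119) (nat_lit 1) (p (nat_lit 0xd1) (nat_lit 0) (p (nat_lit 0x89) (nat_lit 0) (p (nat_lit 0x41) (nat_lit 0) (p (nat_lit 0x8a090b098a9a) (nat_lit 0) (p (nat_lit 0x9888a890a1a) (nat_lit 0) (p (nat_lit 0x89080a08879a) (nat_lit 0) (p (nat_lit 0x8878988071a) (nat_lit 0) (p (nat_lit 0x80000800080907888a) (nat_lit 0) (p (nat_lit 0x80000800078887060a) (nat_lit 0) (p (nat_lit 0x8608068782) (nat_lit 0) (p (nat_lit 0x587860702) (nat_lit 0) (p (nat_lit 0x8507058482) (nat_lit 0) (p (nat_lit 0x486850402)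 (nat_lit 0) (p (nat_lit 0x160014) (nat_lit 0) (p (nat_lit 0x50612) (nat_lit 0) (p (nat_lit 0x38592) (nat_lit 0) (p (nat_lit 0x40492) (nat_lit 0) (p (nat_lit 0x28412) (nat_lit 0) (p (nat_lit 0x30292) (nat_lit 0) (p (nat_lit 0x18212) (nat_lit 0) (p (nat_lit 0x20092) (nat_lit 0) (p (nat_lit 0x8012) (nat_lit 0) pn))))))))))))))))))))))))) :=
  Cl.node (nat_lit 0x109) (nat_lit 2) (by decide +kernel) (ClAll.succ (ClAll.succ ClAll.zero s22) n59)

def n90 : Cl (O (nat_lit 3)) (R (nat_lit 104577))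
    (p (nat_lit 0x81) (nat_lit 0) (p (nat_lit 0xc1) (nat_lit 1) (p (nat_lit 0x119) (nat_lit 1) (p (nat_lit 0xd1) (nat_lit 0) (p (nat_lit 0x89) (nat_lit 0) (p (nat_lit 0x41) (nat_lit 0) (p (nat_lit 0x8a090b098a9a) (nat_lit 0) (p (nat_lit 0x9888a890a1a) (nat_lit 0) (p (nat_lit 0x89080a08879a) (nat_lit 0) (p (nat_lit 0x8878988071a) (nat_lit 0) (p (nat_lit 0x80000800080907888a) (nat_lit 0) (p (nat_lit 0x80000800078887060a) (nat_lit 0) (p (nat_lit 0x8608068782) (nat_lit 0) (p (nat_lit 0x587860702) (nat_lit 0) (p (nat_lit 0x8507058482) (nat_lit 0) (p (nat_lit 0x486850402) (nat_lit 0) (p (nat_lit 0x160014) (nat_lit 0) (p (nat_lit 0x50612) (nat_lit 0) (p (nat_lit 0x38592) (nat_lit 0) (p (nat_lit 0x40492) (nat_lit 0) (p (nat_lit 0x28412) (nat_lit 0) (p (nat_lit 0x30292) (nat_lit 0) (p (nat_lit 0x18212) (nat_lit 0) (p (nat_lit 0x20092) (nat_lit 0) (p (nat_lit 0x8012) (nat_lit 0) pn)))))))))))))))))))))))))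 :=
  Cl.node (nat_lit 0x109) (nat_lit 2) (by decide +kernel) (ClAll.succ (ClAll.succ ClAll.zero s25) n60)

def n91 : Cl (O (nat_lit 3)) (R (nat_lit 104577))
    (p (nat_lit 0x81) (nat_lit 1) (p (nat_lit 0xc1) (nat_lit 1) (p (nat_lit 0x119) (nat_lit 1) (p (nat_lit 0xd1) (nat_lit 0) (p (nat_lit 0x89) (nat_lit 0) (p (nat_lit 0x41) (nat_lit 0) (p (nat_lit 0x8a090b098a9a) (nat_lit 0) (p (nat_lit 0x9888a890a1a) (nat_lit 0) (p (nat_lit 0x89080a08879a) (nat_lit 0) (p (nat_lit 0x8878988071a) (nat_lit 0) (p (nat_lit 0x80000800080907888a) (nat_lit 0) (p (nat_lit 0x80000800078887060a) (nat_lit 0) (p (nat_lit 0x8608068782) (nat_lit 0) (p (nat_lit 0x587860702) (nat_lit 0) (p (nat_lit 0x8507058482) (nat_lit 0) (p (nat_lit 0x486850402) (nat_lit 0) (p (nat_lit 0x160014) (nat_lit 0) (p (nat_lit 0x50612) (nat_lit 0) (p (nat_lit 0x38592) (nat_lit 0) (p (nat_lit 0x40492) (nat_lit 0) (p (nat_lit 0x28412)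 (nat_lit 0) (p (nat_lit 0x30292) (nat_lit 0) (p (nat_lit 0x18212) (nat_lit 0) (p (nat_lit 0x20092) (nat_lit 0) (p (nat_lit 0x8012) (nat_lit 0) pn))))))))))))))))))))))))) :=
  Cl.node (nat_lit 0x101) (nat_lit 2) (by decide +kernel) (ClAll.succ (ClAll.succ ClAll.zero n61) s32)

def n92 : Cl (O (nat_lit 3)) (R (nat_lit 104577))
    (p (nat_lit 0x109) (nat_lit 1) (p (nat_lit 0x101) (nat_lit 0) (p (nat_lit 0x111) (nat_lit 0) (p (nat_lit 0xd1) (nat_lit 1) (p (nat_lit 0x89) (nat_lit 0) (p (nat_lit 0x41) (nat_lit 0) (p (nat_lit 0x8a090b098a9a) (nat_lit 0) (p (nat_lit 0x9888a890a1a) (nat_lit 0) (p (nat_lit 0x89080a08879a) (nat_lit 0) (p (nat_lit 0x8878988071a) (nat_lit 0) (p (nat_lit 0x80000800080907888a) (nat_lit 0) (p (nat_lit 0x80000800078887060a) (nat_lit 0) (p (nat_lit 0x8608068782) (nat_lit 0) (p (nat_lit 0x587860702) (nat_lit 0) (p (nat_lit 0x8507058482) (nat_lit 0) (p (nat_lit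 0x486850402) (nat_lit 0) (p (nat_lit 0x160014) (nat_lit 0) (p (nat_lit 0x50612) (nat_lit 0) (p (nat_lit 0x38592) (nat_lit 0) (p (nat_lit 0x40492) (nat_lit 0) (p (nat_lit 0x28412) (nat_lit 0) (p (nat_lit 0x30292) (nat_lit 0) (p (nat_lit 0x18212) (nat_lit 0) (p (nat_lit 0x20092) (nat_lit 0) (p (nat_lit 0x8012) (nat_lit 0) pn))))))))))))))))))))))))) :=
  Cl.node (nat_lit 0x200004) (nat_lit 2) (by decide +kernel) (ClAll.succ (ClAll.succ ClAll.zero n62) n63)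

def n93 : Cl (O (nat_lit 3)) (R (nat_lit 104577))
    (p (nat_lit 0x81) (nat_lit 0) (p (nat_lit 0x101) (nat_lit 1) (p (nat_lit 0x111) (nat_lit 0) (p (nat_lit 0xd1) (nat_lit 1) (p (nat_lit 0x89) (nat_lit 0) (p (nat_lit 0x41) (nat_lit 0) (p (nat_lit 0x8a090b098a9a) (nat_lit 0) (p (nat_lit 0x9888a890a1a) (nat_lit 0) (p (nat_lit 0x89080a08879a) (nat_lit 0) (p (nat_lit 0x8878988071a) (nat_lit 0) (p (nat_lit 0x80000800080907888a) (nat_lit 0) (p (nat_lit 0x80000800078887060a) (nat_lit 0) (p (nat_lit 0x8608068782) (nat_lit 0) (p (nat_lit 0x587860702) (nat_lit 0) (p (nat_lit 0x8507058482) (nat_lit 0) (p (nat_lit 0x486850402) (nat_lit 0) (p (nat_lit 0x160014) (nat_lit 0) (p (nat_lit 0x50612) (nat_lit 0) (p (nat_lit 0x38592) (nat_lit 0) (p (nat_lit 0x40492) (nat_lit 0) (p (nat_lit 0x28412) (nat_lit 0) (p (nat_lit 0x30292) (nat_lit 0) (p (nat_lit 0x18212) (nat_lit 0) (p (nat_lit 0x20092)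 (nat_lit 0) (p (nat_lit 0x8012) (nat_lit 0) pn))))))))))))))))))))))))) :=
  Cl.node (nat_lit 0x200004) (nat_lit 2) (by decide +kernel) (ClAll.succ (ClAll.succ ClAll.zero n64) n65)

def n94 : Cl (O (nat_lit 3)) (R (nat_lit 104577))
    (p (nat_lit 0x81) (nat_lit 1) (p (nat_lit 0x101) (nat_lit 1) (p (nat_lit 0x111) (nat_lit 0) (p (nat_lit 0xd1) (nat_lit 1) (p (nat_lit 0x89) (nat_lit 0) (p (nat_lit 0x41) (nat_lit 0) (p (nat_lit 0x8a090b098a9a) (nat_lit 0) (p (nat_lit 0x9888a890a1a) (nat_lit 0) (p (nat_lit 0x89080a08879a) (nat_lit 0) (p (nat_lit 0x8878988071a) (nat_lit 0) (p (nat_lit 0x80000800080907888a) (nat_lit 0) (p (nat_lit 0x80000800078887060a) (nat_lit 0) (p (nat_lit 0x8608068782) (nat_lit 0) (p (nat_lit 0x587860702) (nat_lit 0) (p (nat_lit 0x8507058482) (nat_lit 0) (p (nat_lit 0x486850402) (nat_lit 0) (p (nat_lit 0x160014) (nat_lit 0) (p (nat_lit 0x50612) (nat_lit 0) (p (nat_lit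 0x38592) (nat_lit 0) (p (nat_lit 0x40492) (nat_lit 0) (p (nat_lit 0x28412) (nat_lit 0) (p (nat_lit 0x30292) (nat_lit 0) (p (nat_lit 0x18212) (nat_lit 0) (p (nat_lit 0x20092) (nat_lit 0) (p (nat_lit 0x8012) (nat_lit 0) pn))))))))))))))))))))))))) :=
  Cl.node (nat_lit 0xc1) (nat_lit 2) (by decide +kernel) (ClAll.succ (ClAll.succ ClAll.zero n66) s56)

def n95 : Cl (O (nat_lit 3)) (R (nat_lit 104577))
    (p (nat_lit 0xc1) (nat_lit 1) (p (nat_lit 0x81) (nat_lit 1) (p (nat_lit 0x111) (nat_lit 1) (p (nat_lit 0xd1) (nat_lit 1) (p (nat_lit 0x89) (nat_lit 0) (p (nat_lit 0x41) (nat_lit 0) (p (nat_lit 0x8a090b098a9a) (nat_lit 0) (p (nat_lit 0x9888a890a1a) (nat_lit 0) (p (nat_lit 0x89080a08879a) (nat_lit 0) (p (nat_lit 0x8878988071a) (nat_lit 0) (p (nat_lit 0x80000800080907888a) (nat_lit 0) (p (nat_lit 0x80000800078887060a) (nat_lit 0) (p (nat_lit 0x8608068782) (nat_lit 0) (p (nat_lit 0x587860702)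 (nat_lit 0) (p (nat_lit 0x8507058482) (nat_lit 0) (p (nat_lit 0x486850402) (nat_lit 0) (p (nat_lit 0x160014) (nat_lit 0) (p (nat_lit 0x50612) (nat_lit 0) (p (nat_lit 0x38592) (nat_lit 0) (p (nat_lit 0x40492) (nat_lit 0) (p (nat_lit 0x28412) (nat_lit 0) (p (nat_lit 0x30292) (nat_lit 0) (p (nat_lit 0x18212) (nat_lit 0) (p (nat_lit 0x20092) (nat_lit 0) (p (nat_lit 0x8012) (nat_lit 0) pn))))))))))))))))))))))))) :=
  Cl.node (nat_lit 0x101) (nat_lit 2) (by decide +kernel) (ClAll.succ (ClAll.succ ClAll.zero n67) s63)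

def n96 : Cl (O (nat_lit 3)) (R (nat_lit 104577))
    (p (nat_lit 0x109) (nat_lit 0) (p (nat_lit 0x101) (nat_lit 0) (p (nat_lit 0x119) (nat_lit 0) (p (nat_lit 0xc9) (nat_lit 0) (p (nat_lit 0x89) (nat_lit 1) (p (nat_lit 0x41) (nat_lit 0) (p (nat_lit 0x8a090b098a9a) (nat_lit 0) (p (nat_lit 0x9888a890a1a) (nat_lit 0) (p (nat_lit 0x89080a08879a) (nat_lit 0) (p (nat_lit 0x8878988071a) (nat_lit 0) (p (nat_lit 0x80000800080907888a) (nat_lit 0) (p (nat_lit 0x80000800078887060a) (nat_lit 0) (p (nat_lit 0x8608068782) (nat_lit 0) (p (nat_lit 0x587860702) (nat_lit 0) (p (nat_lit 0x8507058482) (nat_lit 0) (p (nat_lit 0x486850402) (nat_lit 0) (p (nat_lit 0x160014) (nat_lit 0) (p (nat_lit 0x50612) (nat_lit 0) (p (nat_lit 0x38592) (nat_lit 0) (p (nat_lit 0x40492) (nat_lit 0) (p (nat_lit 0x28412) (nat_lit 0) (p (nat_lit 0x30292) (nat_lit 0) (p (nat_lit 0x18212) (nat_lit 0) (p (nat_lit 0x20092)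 (nat_lit 0) (p (nat_lit 0x8012) (nat_lit 0) pn))))))))))))))))))))))))) :=
  Cl.node (nat_lit 0x111) (nat_lit 2) (by decide +kernel) (ClAll.succ (ClAll.succ ClAll.zero s64) n68)

def n97 : Cl (O (nat_lit 3)) (R (nat_lit 104577))
    (p (nat_lit 0x109) (nat_lit 1) (p (nat_lit 0x101) (nat_lit 0) (p (nat_lit 0x119) (nat_lit 0) (p (nat_lit 0xc9) (nat_lit 0) (p (nat_lit 0x89) (nat_lit 1) (p (nat_lit 0x41) (nat_lit 0) (p (nat_lit 0x8a090b098a9a) (nat_lit 0) (p (nat_lit 0x9888a890a1a) (nat_lit 0) (p (nat_lit 0x89080a08879a) (nat_lit 0) (p (nat_lit 0x8878988071a) (nat_lit 0) (p (nat_lit 0x80000800080907888a) (nat_lit 0) (p (nat_lit 0x80000800078887060a) (nat_lit 0) (p (nat_lit 0x8608068782) (nat_lit 0) (p (nat_lit 0x587860702) (nat_lit 0) (p (nat_lit 0x8507058482) (nat_lit 0) (p (nat_lit 0x486850402) (nat_lit 0) (p (nat_lit 0x160014) (nat_lit 0) (p (nat_lit 0x50612) (nat_lit 0) (p (nat_lit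 0x38592) (nat_lit 0) (p (nat_lit 0x40492) (nat_lit 0) (p (nat_lit 0x28412) (nat_lit 0) (p (nat_lit 0x30292) (nat_lit 0) (p (nat_lit 0x18212) (nat_lit 0) (p (nat_lit 0x20092) (nat_lit 0) (p (nat_lit 0x8012) (nat_lit 0) pn))))))))))))))))))))))))) :=
  Cl.node (nat_lit 0xd1) (nat_lit 2) (by decide +kernel) (ClAll.succ (ClAll.succ ClAll.zero n69) n70)

def n98 : Cl (O (nat_lit 3)) (R (nat_lit 104577))
    (p (nat_lit 0xc1) (nat_lit 0) (p (nat_lit 0x101) (nat_lit 1) (p (nat_lit 0x119) (nat_lit 0) (p (nat_lit 0xc9) (nat_lit 0) (p (nat_lit 0x89) (nat_lit 1) (p (nat_lit 0x41) (nat_lit 0) (p (nat_lit 0x8a090b098a9a) (nat_lit 0) (p (nat_lit 0x9888a890a1a) (nat_lit 0) (p (nat_lit 0x89080a08879a) (nat_lit 0) (p (nat_lit 0x8878988071a) (nat_lit 0) (p (nat_lit 0x80000800080907888a) (nat_lit 0) (p (nat_lit 0x80000800078887060a) (nat_lit 0) (p (nat_lit 0x8608068782) (nat_lit 0) (p (nat_lit 0x587860702)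 (nat_lit 0) (p (nat_lit 0x8507058482) (nat_lit 0) (p (nat_lit 0x486850402) (nat_lit 0) (p (nat_lit 0x160014) (nat_lit 0) (p (nat_lit 0x50612) (nat_lit 0) (p (nat_lit 0x38592) (nat_lit 0) (p (nat_lit 0x40492) (nat_lit 0) (p (nat_lit 0x28412) (nat_lit 0) (p (nat_lit 0x30292) (nat_lit 0) (p (nat_lit 0x18212) (nat_lit 0) (p (nat_lit 0x20092) (nat_lit 0) (p (nat_lit 0x8012) (nat_lit 0) pn))))))))))))))))))))))))) :=
  Cl.node (nat_lit 0xd1) (nat_lit 2) (by decide +kernel) (ClAll.succ (ClAll.succ ClAll.zero n71) n72)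

def n99 : Cl (O (nat_lit 3)) (R (nat_lit 104577))
    (p (nat_lit 0xd1) (nat_lit 1) (p (nat_lit 0xc1) (nat_lit 0) (p (nat_lit 0x119) (nat_lit 1) (p (nat_lit 0xc9) (nat_lit 0) (p (nat_lit 0x89) (nat_lit 1) (p (nat_lit 0x41) (nat_lit 0) (p (nat_lit 0x8a090b098a9a) (nat_lit 0) (p (nat_lit 0x9888a890a1a) (nat_lit 0) (p (nat_lit 0x89080a08879a) (nat_lit 0) (p (nat_lit 0x8878988071a) (nat_lit 0) (p (nat_lit 0x80000800080907888a) (nat_lit 0) (p (nat_lit 0x80000800078887060a) (nat_lit 0) (p (nat_lit 0x8608068782) (nat_lit 0) (p (nat_lit 0x587860702) (nat_lit 0) (p (nat_lit 0x8507058482) (nat_lit 0) (p (nat_lit 0x486850402) (nat_lit 0) (p (nat_lit 0x160014) (nat_lit 0) (p (nat_lit 0x50612) (nat_lit 0) (p (nat_lit 0x38592) (nat_lit 0) (p (nat_lit 0x40492) (nat_lit 0) (p (nat_lit 0x28412) (nat_lit 0) (p (nat_lit 0x30292) (nat_lit 0) (p (nat_lit 0x18212) (nat_lit 0) (p (nat_lit 0x20092) (nat_lit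 0) (p (nat_lit 0x8012) (nat_lit 0) pn))))))))))))))))))))))))) :=
  Cl.node (nat_lit 0x111) (nat_lit 2) (by decide +kernel) (ClAll.succ (ClAll.succ ClAll.zero s89) n73)

def n100 : Cl (O (nat_lit 3)) (R (nat_lit 104577))
    (p (nat_lit 0x101) (nat_lit 0) (p (nat_lit 0xc1) (nat_lit 1) (p (nat_lit 0x119) (nat_lit 1) (p (nat_lit 0xc9) (nat_lit 0) (p (nat_lit 0x89) (nat_lit 1) (p (nat_lit 0x41) (nat_lit 0) (p (nat_lit 0x8a090b098a9a) (nat_lit 0) (p (nat_lit 0x9888a890a1a) (nat_lit 0) (p (nat_lit 0x89080a08879a) (nat_lit 0) (p (nat_lit 0x8878988071a) (nat_lit 0) (p (nat_lit 0x80000800080907888a) (nat_lit 0) (p (nat_lit 0x80000800078887060a) (nat_lit 0) (p (nat_lit 0x8608068782) (nat_lit 0) (p (nat_lit 0x587860702) (nat_lit 0) (p (nat_lit 0x8507058482) (nat_lit 0) (p (nat_lit 0x486850402) (nat_lit 0) (p (nat_lit 0x160014) (nat_lit 0) (p (nat_lit 0x50612) (nat_lit 0) (p (nat_lit 0x38592)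 (nat_lit 0) (p (nat_lit 0x40492) (nat_lit 0) (p (nat_lit 0x28412) (nat_lit 0) (p (nat_lit 0x30292) (nat_lit 0) (p (nat_lit 0x18212) (nat_lit 0) (p (nat_lit 0x20092) (nat_lit 0) (p (nat_lit 0x8012) (nat_lit 0) pn))))))))))))))))))))))))) :=
  Cl.node (nat_lit 0x111) (nat_lit 2) (by decide +kernel) (ClAll.succ (ClAll.succ ClAll.zero s93) n74)

def n101 : Cl (O (nat_lit 3)) (R (nat_lit 104577))
    (p (nat_lit 0x111) (nat_lit 0) (p (nat_lit 0x101) (nat_lit 0) (p (nat_lit 0x109) (nat_lit 0) (p (nat_lit 0xc9) (nat_lit 1) (p (nat_lit 0x89) (nat_lit 1) (p (nat_lit 0x41) (nat_lit 0) (p (nat_lit 0x8a090b098a9a) (nat_lit 0) (p (nat_lit 0x9888a890a1a) (nat_lit 0) (p (nat_lit 0x89080a08879a) (nat_lit 0) (p (nat_lit 0x8878988071a) (nat_lit 0) (p (nat_lit 0x80000800080907888a) (nat_lit 0) (p (nat_lit 0x80000800078887060a) (nat_lit 0) (p (nat_lit 0x8608068782) (nat_lit 0) (p (nat_lit 0x587860702)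 (nat_lit 0) (p (nat_lit 0x8507058482) (nat_lit 0) (p (nat_lit 0x486850402) (nat_lit 0) (p (nat_lit 0x160014) (nat_lit 0) (p (nat_lit 0x50612) (nat_lit 0) (p (nat_lit 0x38592) (nat_lit 0) (p (nat_lit 0x40492) (nat_lit 0) (p (nat_lit 0x28412) (nat_lit 0) (p (nat_lit 0x30292) (nat_lit 0) (p (nat_lit 0x18212) (nat_lit 0) (p (nat_lit 0x20092) (nat_lit 0) (p (nat_lit 0x8012) (nat_lit 0) pn))))))))))))))))))))))))) :=
  Cl.node (nat_lit 0x119) (nat_lit 2) (by decide +kernel) (ClAll.succ (ClAll.succ ClAll.zero s100) n75)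

def n102 : Cl (O (nat_lit 3)) (R (nat_lit 104577))
    (p (nat_lit 0x109) (nat_lit 1) (p (nat_lit 0x101) (nat_lit 0) (p (nat_lit 0x119) (nat_lit 0) (p (nat_lit 0xd1) (nat_lit 0) (p (nat_lit 0x81) (nat_lit 0) (p (nat_lit 0x41) (nat_lit 1) (p (nat_lit 0x8a090b098a9a) (nat_lit 0) (p (nat_lit 0x9888a890a1a) (nat_lit 0) (p (nat_lit 0x89080a08879a) (nat_lit 0) (p (nat_lit 0x8878988071a) (nat_lit 0) (p (nat_lit 0x80000800080907888a) (nat_lit 0) (p (nat_lit 0x80000800078887060a) (nat_lit 0) (p (nat_lit 0x8608068782) (nat_lit 0) (p (nat_lit 0x587860702) (nat_lit 0) (p (nat_lit 0x8507058482) (nat_lit 0) (p (nat_lit 0x486850402) (nat_lit 0) (p (nat_lit 0x160014) (nat_lit 0) (p (nat_lit 0x50612) (nat_lit 0) (p (nat_lit 0x38592) (nat_lit 0) (p (nat_lit 0x40492) (nat_lit 0) (p (nat_lit 0x28412) (nat_lit 0) (p (nat_lit 0x30292) (nat_lit 0) (p (nat_lit 0x18212) (nat_lit 0) (p (nat_lit 0x20092)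 (nat_lit 0) (p (nat_lit 0x8012) (nat_lit 0) pn))))))))))))))))))))))))) :=
  Cl.node (nat_lit 0x89) (nat_lit 2) (by decide +kernel) (ClAll.succ (ClAll.succ ClAll.zero n76) n77)

def n103 : Cl (O (nat_lit 3)) (R (nat_lit 104577))
    (p (nat_lit 0xc1) (nat_lit 0) (p (nat_lit 0x101) (nat_lit 1) (p (nat_lit 0x119) (nat_lit 0) (p (nat_lit 0xd1) (nat_lit 0) (p (nat_lit 0x81) (nat_lit 0) (p (nat_lit 0x41) (nat_lit 1) (p (nat_lit 0x8a090b098a9a) (nat_lit 0) (p (nat_lit 0x9888a890a1a) (nat_lit 0) (p (nat_lit 0x89080a08879a) (nat_lit 0) (p (nat_lit 0x8878988071a) (nat_lit 0) (p (nat_lit 0x80000800080907888a) (nat_lit 0) (p (nat_lit 0x80000800078887060a) (nat_lit 0) (p (nat_lit 0x8608068782) (nat_lit 0) (p (nat_lit 0x587860702) (nat_lit 0) (p (nat_lit 0x8507058482) (nat_lit 0) (p (nat_lit 0x486850402) (nat_lit 0) (p (nat_lit 0x160014) (nat_lit 0) (p (nat_lit 0x50612) (nat_lit 0) (p (nat_lit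 0x38592) (nat_lit 0) (p (nat_lit 0x40492) (nat_lit 0) (p (nat_lit 0x28412) (nat_lit 0) (p (nat_lit 0x30292) (nat_lit 0) (p (nat_lit 0x18212) (nat_lit 0) (p (nat_lit 0x20092) (nat_lit 0) (p (nat_lit 0x8012) (nat_lit 0) pn))))))))))))))))))))))))) :=
  Cl.node (nat_lit 0x89) (nat_lit 2) (by decide +kernel) (ClAll.succ (ClAll.succ ClAll.zero s112) n78)

def n104 : Cl (O (nat_lit 3)) (R (nat_lit 104577))
    (p (nat_lit 0xc1) (nat_lit 1) (p (nat_lit 0x101) (nat_lit 1) (p (nat_lit 0x119) (nat_lit 0) (p (nat_lit 0xd1) (nat_lit 0) (p (nat_lit 0x81) (nat_lit 0) (p (nat_lit 0x41) (nat_lit 1) (p (nat_lit 0x8a090b098a9a) (nat_lit 0) (p (nat_lit 0x9888a890a1a) (nat_lit 0) (p (nat_lit 0x89080a08879a) (nat_lit 0) (p (nat_lit 0x8878988071a) (nat_lit 0) (p (nat_lit 0x80000800080907888a) (nat_lit 0) (p (nat_lit 0x80000800078887060a) (nat_lit 0) (p (nat_lit 0x8608068782) (nat_lit 0) (p (nat_lit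 0x587860702) (nat_lit 0) (p (nat_lit 0x8507058482) (nat_lit 0) (p (nat_lit 0x486850402) (nat_lit 0) (p (nat_lit 0x160014) (nat_lit 0) (p (nat_lit 0x50612) (nat_lit 0) (p (nat_lit 0x38592) (nat_lit 0) (p (nat_lit 0x40492) (nat_lit 0) (p (nat_lit 0x28412) (nat_lit 0) (p (nat_lit 0x30292) (nat_lit 0) (p (nat_lit 0x18212) (nat_lit 0) (p (nat_lit 0x20092) (nat_lit 0) (p (nat_lit 0x8012) (nat_lit 0) pn))))))))))))))))))))))))) :=
  Cl.node (nat_lit 0x89) (nat_lit 2) (by decide +kernel) (ClAll.succ (ClAll.succ ClAll.zero n79) n80)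

def n105 : Cl (O (nat_lit 3)) (R (nat_lit 104577))
    (p (nat_lit 0xc9) (nat_lit 1) (p (nat_lit 0xc1) (nat_lit 0) (p (nat_lit 0x119) (nat_lit 1) (p (nat_lit 0xd1) (nat_lit 0) (p (nat_lit 0x81) (nat_lit 0) (p (nat_lit 0x41) (nat_lit 1) (p (nat_lit 0x8a090b098a9a) (nat_lit 0) (p (nat_lit 0x9888a890a1a) (nat_lit 0) (p (nat_lit 0x89080a08879a) (nat_lit 0) (p (nat_lit 0x8878988071a) (nat_lit 0) (p (nat_lit 0x80000800080907888a) (nat_lit 0) (p (nat_lit 0x80000800078887060a) (nat_lit 0) (p (nat_lit 0x8608068782) (nat_lit 0) (p (nat_lit 0x587860702) (nat_lit 0) (p (nat_lit 0x8507058482) (nat_lit 0) (p (nat_lit 0x486850402) (nat_lit 0) (p (nat_lit 0x160014) (nat_lit 0) (p (nat_lit 0x50612) (nat_lit 0) (p (nat_lit 0x38592) (nat_lit 0) (p (nat_lit 0x40492) (nat_lit 0) (p (nat_lit 0x28412) (nat_lit 0) (p (nat_lit 0x30292) (nat_lit 0) (p (nat_lit 0x18212) (nat_lit 0) (p (nat_lit 0x20092)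 (nat_lit 0) (p (nat_lit 0x8012) (nat_lit 0) pn))))))))))))))))))))))))) :=
  Cl.node (nat_lit 0x89) (nat_lit 2) (by decide +kernel) (ClAll.succ (ClAll.succ ClAll.zero s122) s123)

def n106 : Cl (O (nat_lit 3)) (R (nat_lit 104577))
    (p (nat_lit 0x101) (nat_lit 0) (p (nat_lit 0xc1) (nat_lit 1) (p (nat_lit 0x119) (nat_lit 1) (p (nat_lit 0xd1) (nat_lit 0) (p (nat_lit 0x81) (nat_lit 0) (p (nat_lit 0x41) (nat_lit 1) (p (nat_lit 0x8a090b098a9a) (nat_lit 0) (p (nat_lit 0x9888a890a1a) (nat_lit 0) (p (nat_lit 0x89080a08879a) (nat_lit 0) (p (nat_lit 0x8878988071a) (nat_lit 0) (p (nat_lit 0x80000800080907888a) (nat_lit 0) (p (nat_lit 0x80000800078887060a) (nat_lit 0) (p (nat_lit 0x8608068782) (nat_lit 0) (p (nat_lit 0x587860702) (nat_lit 0) (p (nat_lit 0x8507058482) (nat_lit 0) (p (nat_lit 0x486850402) (nat_lit 0) (p (nat_lit 0x160014) (nat_lit 0) (p (nat_lit 0x50612) (nat_lit 0) (p (nat_lit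 0x38592) (nat_lit 0) (p (nat_lit 0x40492) (nat_lit 0) (p (nat_lit 0x28412) (nat_lit 0) (p (nat_lit 0x30292) (nat_lit 0) (p (nat_lit 0x18212) (nat_lit 0) (p (nat_lit 0x20092) (nat_lit 0) (p (nat_lit 0x8012) (nat_lit 0) pn))))))))))))))))))))))))) :=
  Cl.node (nat_lit 0x89) (nat_lit 2) (by decide +kernel) (ClAll.succ (ClAll.succ ClAll.zero s124) s125)

def n107 : Cl (O (nat_lit 3)) (R (nat_lit 104577))
    (p (nat_lit 0x101) (nat_lit 1) (p (nat_lit 0xc1) (nat_lit 1) (p (nat_lit 0x119) (nat_lit 1) (p (nat_lit 0xd1) (nat_lit 0) (p (nat_lit 0x81) (nat_lit 0) (p (nat_lit 0x41) (nat_lit 1) (p (nat_lit 0x8a090b098a9a) (nat_lit 0) (p (nat_lit 0x9888a890a1a) (nat_lit 0) (p (nat_lit 0x89080a08879a) (nat_lit 0) (p (nat_lit 0x8878988071a) (nat_lit 0) (p (nat_lit 0x80000800080907888a) (nat_lit 0) (p (nat_lit 0x80000800078887060a) (nat_lit 0) (p (nat_lit 0x8608068782) (nat_lit 0) (p (nat_lit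 0x587860702) (nat_lit 0) (p (nat_lit 0x8507058482) (nat_lit 0) (p (nat_lit 0x486850402) (nat_lit 0) (p (nat_lit 0x160014) (nat_lit 0) (p (nat_lit 0x50612) (nat_lit 0) (p (nat_lit 0x38592) (nat_lit 0) (p (nat_lit 0x40492) (nat_lit 0) (p (nat_lit 0x28412) (nat_lit 0) (p (nat_lit 0x30292) (nat_lit 0) (p (nat_lit 0x18212) (nat_lit 0) (p (nat_lit 0x20092) (nat_lit 0) (p (nat_lit 0x8012) (nat_lit 0) pn))))))))))))))))))))))))) :=
  Cl.node (nat_lit 0x89) (nat_lit 2) (by decide +kernel) (ClAll.succ (ClAll.succ ClAll.zero s126) s127)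

def n108 : Cl (O (nat_lit 3)) (R (nat_lit 104577))
    (p (nat_lit 0x109) (nat_lit 1) (p (nat_lit 0x101) (nat_lit 0) (p (nat_lit 0x111) (nat_lit 0) (p (nat_lit 0xd1) (nat_lit 1) (p (nat_lit 0x81) (nat_lit 0) (p (nat_lit 0x41) (nat_lit 1) (p (nat_lit 0x8a090b098a9a) (nat_lit 0) (p (nat_lit 0x9888a890a1a) (nat_lit 0) (p (nat_lit 0x89080a08879a) (nat_lit 0) (p (nat_lit 0x8878988071a) (nat_lit 0) (p (nat_lit 0x80000800080907888a) (nat_lit 0) (p (nat_lit 0x80000800078887060a) (nat_lit 0) (p (nat_lit 0x8608068782) (nat_lit 0) (p (nat_lit 0x587860702) (nat_lit 0) (p (nat_lit 0x8507058482) (nat_lit 0) (p (nat_lit 0x486850402) (nat_lit 0) (p (nat_lit 0x160014) (nat_lit 0) (p (nat_lit 0x50612) (nat_lit 0) (p (nat_lit 0x38592) (nat_lit 0) (p (nat_lit 0x40492) (nat_lit 0) (p (nat_lit 0x28412) (nat_lit 0) (p (nat_lit 0x30292) (nat_lit 0) (p (nat_lit 0x18212) (nat_lit 0) (p (nat_lit 0x20092)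 (nat_lit 0) (p (nat_lit 0x8012) (nat_lit 0) pn))))))))))))))))))))))))) :=
  Cl.node (nat_lit 0x89) (nat_lit 2) (by decide +kernel) (ClAll.succ (ClAll.succ ClAll.zero s129) n81)

def n109 : Cl (O (nat_lit 3)) (R (nat_lit 104577))
    (p (nat_lit 0x89) (nat_lit 0) (p (nat_lit 0x101) (nat_lit 1) (p (nat_lit 0x111) (nat_lit 0) (p (nat_lit 0xd1) (nat_lit 1) (p (nat_lit 0x81) (nat_lit 0) (p (nat_lit 0x41) (nat_lit 1) (p (nat_lit 0x8a090b098a9a) (nat_lit 0) (p (nat_lit 0x9888a890a1a) (nat_lit 0) (p (nat_lit 0x89080a08879a) (nat_lit 0) (p (nat_lit 0x8878988071a) (nat_lit 0) (p (nat_lit 0x80000800080907888a) (nat_lit 0) (p (nat_lit 0x80000800078887060a) (nat_lit 0) (p (nat_lit 0x8608068782) (nat_lit 0) (p (nat_lit 0x587860702) (nat_lit 0) (p (nat_lit 0x8507058482) (nat_lit 0) (p (nat_lit 0x486850402) (nat_lit 0) (p (nat_lit 0x160014) (nat_lit 0) (p (nat_lit 0x50612) (nat_lit 0) (p (nat_lit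 0x38592) (nat_lit 0) (p (nat_lit 0x40492) (nat_lit 0) (p (nat_lit 0x28412) (nat_lit 0) (p (nat_lit 0x30292) (nat_lit 0) (p (nat_lit 0x18212) (nat_lit 0) (p (nat_lit 0x20092) (nat_lit 0) (p (nat_lit 0x8012) (nat_lit 0) pn))))))))))))))))))))))))) :=
  Cl.node (nat_lit 0x200004) (nat_lit 2) (by decide +kernel) (ClAll.succ (ClAll.succ ClAll.zero n82) n83)

def n110 : Cl (O (nat_lit 3)) (R (nat_lit 104577))
    (p (nat_lit 0x89) (nat_lit 1) (p (nat_lit 0x101) (nat_lit 1) (p (nat_lit 0x111) (nat_lit 0) (p (nat_lit 0xd1) (nat_lit 1) (p (nat_lit 0x81) (nat_lit 0) (p (nat_lit 0x41) (nat_lit 1) (p (nat_lit 0x8a090b098a9a) (nat_lit 0) (p (nat_lit 0x9888a890a1a) (nat_lit 0) (p (nat_lit 0x89080a08879a) (nat_lit 0) (p (nat_lit 0x8878988071a) (nat_lit 0) (p (nat_lit 0x80000800080907888a) (nat_lit 0) (p (nat_lit 0x80000800078887060a) (nat_lit 0) (p (nat_lit 0x8608068782) (nat_lit 0) (p (nat_lit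 0x587860702) (nat_lit 0) (p (nat_lit 0x8507058482) (nat_lit 0) (p (nat_lit 0x486850402) (nat_lit 0) (p (nat_lit 0x160014) (nat_lit 0) (p (nat_lit 0x50612) (nat_lit 0) (p (nat_lit 0x38592) (nat_lit 0) (p (nat_lit 0x40492) (nat_lit 0) (p (nat_lit 0x28412) (nat_lit 0) (p (nat_lit 0x30292) (nat_lit 0) (p (nat_lit 0x18212) (nat_lit 0) (p (nat_lit 0x20092) (nat_lit 0) (p (nat_lit 0x8012) (nat_lit 0) pn))))))))))))))))))))))))) :=
  Cl.node (nat_lit 0xc9) (nat_lit 2) (by decide +kernel) (ClAll.succ (ClAll.succ ClAll.zero n84) s145)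

def n111 : Cl (O (nat_lit 3)) (R (nat_lit 104577))
    (p (nat_lit 0xc9) (nat_lit 1) (p (nat_lit 0x89) (nat_lit 1) (p (nat_lit 0x111) (nat_lit 1) (p (nat_lit 0xd1) (nat_lit 1) (p (nat_lit 0x81) (nat_lit 0) (p (nat_lit 0x41) (nat_lit 1) (p (nat_lit 0x8a090b098a9a) (nat_lit 0) (p (nat_lit 0x9888a890a1a) (nat_lit 0) (p (nat_lit 0x89080a08879a) (nat_lit 0) (p (nat_lit 0x8878988071a) (nat_lit 0) (p (nat_lit 0x80000800080907888a) (nat_lit 0) (p (nat_lit 0x80000800078887060a) (nat_lit 0) (p (nat_lit 0x8608068782) (nat_lit 0) (p (nat_lit 0x587860702) (nat_lit 0) (p (nat_lit 0x8507058482) (nat_lit 0) (p (nat_lit 0x486850402) (nat_lit 0) (p (nat_lit 0x160014) (nat_lit 0) (p (nat_lit 0x50612) (nat_lit 0) (p (nat_lit 0x38592) (nat_lit 0) (p (nat_lit 0x40492) (nat_lit 0) (p (nat_lit 0x28412) (nat_lit 0) (p (nat_lit 0x30292) (nat_lit 0) (p (nat_lit 0x18212) (nat_lit 0) (p (nat_lit 0x20092)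 (nat_lit 0) (p (nat_lit 0x8012) (nat_lit 0) pn))))))))))))))))))))))))) :=
  Cl.node (nat_lit 0x109) (nat_lit 2) (by decide +kernel) (ClAll.succ (ClAll.succ ClAll.zero n85) s153)

def n112 : Cl (O (nat_lit 3)) (R (nat_lit 104577))
    (p (nat_lit 0xc9) (nat_lit 0) (p (nat_lit 0x101) (nat_lit 1) (p (nat_lit 0x119) (nat_lit 0) (p (nat_lit 0xc1) (nat_lit 0) (p (nat_lit 0x81) (nat_lit 1) (p (nat_lit 0x41) (nat_lit 1) (p (nat_lit 0x8a090b098a9a) (nat_lit 0) (p (nat_lit 0x9888a890a1a) (nat_lit 0) (p (nat_lit 0x89080a08879a) (nat_lit 0) (p (nat_lit 0x8878988071a) (nat_lit 0) (p (nat_lit 0x80000800080907888a) (nat_lit 0) (p (nat_lit 0x80000800078887060a) (nat_lit 0) (p (nat_lit 0x8608068782) (nat_lit 0) (p (nat_lit 0x587860702) (nat_lit 0) (p (nat_lit 0x8507058482) (nat_lit 0) (p (nat_lit 0x486850402) (nat_lit 0) (p (nat_lit 0x160014) (nat_lit 0) (p (nat_lit 0x50612) (nat_lit 0) (p (nat_lit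 0x38592) (nat_lit 0) (p (nat_lit 0x40492) (nat_lit 0) (p (nat_lit 0x28412) (nat_lit 0) (p (nat_lit 0x30292) (nat_lit 0) (p (nat_lit 0x18212) (nat_lit 0) (p (nat_lit 0x20092) (nat_lit 0) (p (nat_lit 0x8012) (nat_lit 0) pn))))))))))))))))))))))))) :=
  Cl.node (nat_lit 0xd1) (nat_lit 2) (by decide +kernel) (ClAll.succ (ClAll.succ ClAll.zero s156) s157)

def n113 : Cl (O (nat_lit 3)) (R (nat_lit 104577))
    (p (nat_lit 0x101) (nat_lit 0) (p (nat_lit 0x119) (nat_lit 0) (p (nat_lit 0xd1) (nat_lit 0) (p (nat_lit 0x89) (nat_lit 0) (p (nat_lit 0x41) (nat_lit 0) (p (nat_lit 0x8a090b098a9a) (nat_lit 0) (p (nat_lit 0x9888a890a1a) (nat_lit 0) (p (nat_lit 0x89080a08879a) (nat_lit 0) (p (nat_lit 0x8878988071a) (nat_lit 0) (p (nat_lit 0x80000800080907888a) (nat_lit 0) (p (nat_lit 0x80000800078887060a) (nat_lit 0) (p (nat_lit 0x8608068782) (nat_lit 0) (p (nat_lit 0x587860702) (nat_lit 0) (p (nat_lit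 0x8507058482) (nat_lit 0) (p (nat_lit 0x486850402) (nat_lit 0) (p (nat_lit 0x160014) (nat_lit 0) (p (nat_lit 0x50612) (nat_lit 0) (p (nat_lit 0x38592) (nat_lit 0) (p (nat_lit 0x40492) (nat_lit 0) (p (nat_lit 0x28412) (nat_lit 0) (p (nat_lit 0x30292) (nat_lit 0) (p (nat_lit 0x18212) (nat_lit 0) (p (nat_lit 0x20092) (nat_lit 0) (p (nat_lit 0x8012) (nat_lit 0) pn)))))))))))))))))))))))) :=
  Cl.node (nat_lit 0x109) (nat_lit 2) (by decide +kernel) (ClAll.succ (ClAll.succ ClAll.zero s0) n86)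

def n114 : Cl (O (nat_lit 3)) (R (nat_lit 104577))
    (p (nat_lit 0x101) (nat_lit 1) (p (nat_lit 0x119) (nat_lit 0) (p (nat_lit 0xd1) (nat_lit 0) (p (nat_lit 0x89) (nat_lit 0) (p (nat_lit 0x41) (nat_lit 0) (p (nat_lit 0x8a090b098a9a) (nat_lit 0) (p (nat_lit 0x9888a890a1a) (nat_lit 0) (p (nat_lit 0x89080a08879a) (nat_lit 0) (p (nat_lit 0x8878988071a) (nat_lit 0) (p (nat_lit 0x80000800080907888a) (nat_lit 0) (p (nat_lit 0x80000800078887060a) (nat_lit 0) (p (nat_lit 0x8608068782) (nat_lit 0) (p (nat_lit 0x587860702) (nat_lit 0) (p (nat_lit 0x8507058482) (nat_lit 0) (p (nat_lit 0x486850402) (nat_lit 0) (p (nat_lit 0x160014) (nat_lit 0) (p (nat_lit 0x50612) (nat_lit 0) (p (nat_lit 0x38592) (nat_lit 0) (p (nat_lit 0x40492) (nat_lit 0) (p (nat_lit 0x28412) (nat_lit 0) (p (nat_lit 0x30292) (nat_lit 0) (p (nat_lit 0x18212) (nat_lit 0) (p (nat_lit 0x20092) (nat_lit 0) (p (nat_lit 0x8012)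 (nat_lit 0) pn)))))))))))))))))))))))) :=
  Cl.node (nat_lit 0x81) (nat_lit 2) (by decide +kernel) (ClAll.succ (ClAll.succ ClAll.zero n87) n88)

def n115 : Cl (O (nat_lit 3)) (R (nat_lit 104577))
    (p (nat_lit 0xc1) (nat_lit 0) (p (nat_lit 0x119) (nat_lit 1) (p (nat_lit 0xd1) (nat_lit 0) (p (nat_lit 0x89) (nat_lit 0) (p (nat_lit 0x41) (nat_lit 0) (p (nat_lit 0x8a090b098a9a) (nat_lit 0) (p (nat_lit 0x9888a890a1a) (nat_lit 0) (p (nat_lit 0x89080a08879a) (nat_lit 0) (p (nat_lit 0x8878988071a) (nat_lit 0) (p (nat_lit 0x80000800080907888a) (nat_lit 0) (p (nat_lit 0x80000800078887060a) (nat_lit 0) (p (nat_lit 0x8608068782) (nat_lit 0) (p (nat_lit 0x587860702) (nat_lit 0) (p (nat_lit 0x8507058482) (nat_lit 0) (p (nat_lit 0x486850402) (nat_lit 0) (p (nat_lit 0x160014) (nat_lit 0) (p (nat_lit 0x50612) (nat_lit 0) (p (nat_lit 0x38592) (nat_lit 0) (p (nat_lit 0x40492) (nat_lit 0) (p (nat_lit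 0x28412) (nat_lit 0) (p (nat_lit 0x30292) (nat_lit 0) (p (nat_lit 0x18212) (nat_lit 0) (p (nat_lit 0x20092) (nat_lit 0) (p (nat_lit 0x8012) (nat_lit 0) pn)))))))))))))))))))))))) :=
  Cl.node (nat_lit 0xc9) (nat_lit 2) (by decide +kernel) (ClAll.succ (ClAll.succ ClAll.zero s21) n89)

def n116 : Cl (O (nat_lit 3)) (R (nat_lit 104577))
    (p (nat_lit 0xc1) (nat_lit 1) (p (nat_lit 0x119) (nat_lit 1) (p (nat_lit 0xd1) (nat_lit 0) (p (nat_lit 0x89) (nat_lit 0) (p (nat_lit 0x41) (nat_lit 0) (p (nat_lit 0x8a090b098a9a) (nat_lit 0) (p (nat_lit 0x9888a890a1a) (nat_lit 0) (p (nat_lit 0x89080a08879a) (nat_lit 0) (p (nat_lit 0x8878988071a) (nat_lit 0) (p (nat_lit 0x80000800080907888a) (nat_lit 0) (p (nat_lit 0x80000800078887060a) (nat_lit 0) (p (nat_lit 0x8608068782) (nat_lit 0) (p (nat_lit 0x587860702) (nat_lit 0) (p (nat_lit 0x8507058482) (nat_lit 0) (p (nat_lit 0x486850402) (nat_lit 0)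 (p (nat_lit 0x160014) (nat_lit 0) (p (nat_lit 0x50612) (nat_lit 0) (p (nat_lit 0x38592) (nat_lit 0) (p (nat_lit 0x40492) (nat_lit 0) (p (nat_lit 0x28412) (nat_lit 0) (p (nat_lit 0x30292) (nat_lit 0) (p (nat_lit 0x18212) (nat_lit 0) (p (nat_lit 0x20092) (nat_lit 0) (p (nat_lit 0x8012) (nat_lit 0) pn)))))))))))))))))))))))) :=
  Cl.node (nat_lit 0x81) (nat_lit 2) (by decide +kernel) (ClAll.succ (ClAll.succ ClAll.zero n90) n91)

def n117 : Cl (O (nat_lit 3)) (R (nat_lit 104577))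
    (p (nat_lit 0x101) (nat_lit 0) (p (nat_lit 0x111) (nat_lit 0) (p (nat_lit 0xd1) (nat_lit 1) (p (nat_lit 0x89) (nat_lit 0) (p (nat_lit 0x41) (nat_lit 0) (p (nat_lit 0x8a090b098a9a) (nat_lit 0) (p (nat_lit 0x9888a890a1a) (nat_lit 0) (p (nat_lit 0x89080a08879a) (nat_lit 0) (p (nat_lit 0x8878988071a) (nat_lit 0) (p (nat_lit 0x80000800080907888a) (nat_lit 0) (p (nat_lit 0x80000800078887060a) (nat_lit 0) (p (nat_lit 0x8608068782) (nat_lit 0) (p (nat_lit 0x587860702) (nat_lit 0) (p (nat_lit 0x8507058482) (nat_lit 0) (p (nat_lit 0x486850402) (nat_lit 0) (p (nat_lit 0x160014) (nat_lit 0) (p (nat_lit 0x50612) (nat_lit 0) (p (nat_lit 0x38592) (nat_lit 0) (p (nat_lit 0x40492) (nat_lit 0) (p (nat_lit 0x28412) (nat_lit 0) (p (nat_lit 0x30292) (nat_lit 0) (p (nat_lit 0x18212) (nat_lit 0) (p (nat_lit 0x20092) (nat_lit 0) (p (nat_lit 0x8012) (nat_lit 0) pn)))))))))))))))))))))))) :=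
  Cl.node (nat_lit 0x109) (nat_lit 2) (by decide +kernel) (ClAll.succ (ClAll.succ ClAll.zero s33) n92)

def n118 : Cl (O (nat_lit 3)) (R (nat_lit 104577))
    (p (nat_lit 0x101) (nat_lit 1) (p (nat_lit 0x111) (nat_lit 0) (p (nat_lit 0xd1) (nat_lit 1) (p (nat_lit 0x89) (nat_lit 0) (p (nat_lit 0x41) (nat_lit 0) (p (nat_lit 0x8a090b098a9a) (nat_lit 0) (p (nat_lit 0x9888a890a1a) (nat_lit 0) (p (nat_lit 0x89080a08879a) (nat_lit 0) (p (nat_lit 0x8878988071a) (nat_lit 0) (p (nat_lit 0x80000800080907888a) (nat_lit 0) (p (nat_lit 0x80000800078887060a) (nat_lit 0) (p (nat_lit 0x8608068782) (nat_lit 0) (p (nat_lit 0x587860702) (nat_lit 0) (p (nat_lit 0x8507058482) (nat_lit 0) (p (nat_lit 0x486850402) (nat_lit 0) (p (nat_lit 0x160014) (nat_lit 0) (p (nat_lit 0x50612) (nat_lit 0) (p (nat_lit 0x38592) (nat_lit 0) (p (nat_lit 0x40492) (nat_lit 0) (p (nat_lit 0x28412) (nat_lit 0) (p (nat_lit 0x30292)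 (nat_lit 0) (p (nat_lit 0x18212) (nat_lit 0) (p (nat_lit 0x20092) (nat_lit 0) (p (nat_lit 0x8012) (nat_lit 0) pn)))))))))))))))))))))))) :=
  Cl.node (nat_lit 0x81) (nat_lit 2) (by decide +kernel) (ClAll.succ (ClAll.succ ClAll.zero n93) n94)

def n119 : Cl (O (nat_lit 3)) (R (nat_lit 104577))
    (p (nat_lit 0x81) (nat_lit 1) (p (nat_lit 0x111) (nat_lit 1) (p (nat_lit 0xd1) (nat_lit 1) (p (nat_lit 0x89) (nat_lit 0) (p (nat_lit 0x41) (nat_lit 0) (p (nat_lit 0x8a090b098a9a) (nat_lit 0) (p (nat_lit 0x9888a890a1a) (nat_lit 0) (p (nat_lit 0x89080a08879a) (nat_lit 0) (p (nat_lit 0x8878988071a) (nat_lit 0) (p (nat_lit 0x80000800080907888a) (nat_lit 0) (p (nat_lit 0x80000800078887060a) (nat_lit 0) (p (nat_lit 0x8608068782) (nat_lit 0) (p (nat_lit 0x587860702) (nat_lit 0) (p (nat_lit 0x8507058482) (nat_lit 0) (p (nat_lit 0x486850402) (nat_lit 0) (p (nat_lit 0x160014) (nat_lit 0) (p (nat_lit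 0x50612) (nat_lit 0) (p (nat_lit 0x38592) (nat_lit 0) (p (nat_lit 0x40492) (nat_lit 0) (p (nat_lit 0x28412) (nat_lit 0) (p (nat_lit 0x30292) (nat_lit 0) (p (nat_lit 0x18212) (nat_lit 0) (p (nat_lit 0x20092) (nat_lit 0) (p (nat_lit 0x8012) (nat_lit 0) pn)))))))))))))))))))))))) :=
  Cl.node (nat_lit 0xc1) (nat_lit 2) (by decide +kernel) (ClAll.succ (ClAll.succ ClAll.zero s58) n95)

def n120 : Cl (O (nat_lit 3)) (R (nat_lit 104577))
    (p (nat_lit 0x101) (nat_lit 0) (p (nat_lit 0x119) (nat_lit 0) (p (nat_lit 0xc9) (nat_lit 0) (p (nat_lit 0x89) (nat_lit 1) (p (nat_lit 0x41) (nat_lit 0) (p (nat_lit 0x8a090b098a9a) (nat_lit 0) (p (nat_lit 0x9888a890a1a) (nat_lit 0) (p (nat_lit 0x89080a08879a) (nat_lit 0) (p (nat_lit 0x8878988071a) (nat_lit 0) (p (nat_lit 0x80000800080907888a) (nat_lit 0) (p (nat_lit 0x80000800078887060a) (nat_lit 0) (p (nat_lit 0x8608068782) (nat_lit 0) (p (nat_lit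 0x587860702) (nat_lit 0) (p (nat_lit 0x8507058482) (nat_lit 0) (p (nat_lit 0x486850402) (nat_lit 0) (p (nat_lit 0x160014) (nat_lit 0) (p (nat_lit 0x50612) (nat_lit 0) (p (nat_lit 0x38592) (nat_lit 0) (p (nat_lit 0x40492) (nat_lit 0) (p (nat_lit 0x28412) (nat_lit 0) (p (nat_lit 0x30292) (nat_lit 0) (p (nat_lit 0x18212) (nat_lit 0) (p (nat_lit 0x20092) (nat_lit 0) (p (nat_lit 0x8012) (nat_lit 0) pn)))))))))))))))))))))))) :=
  Cl.node (nat_lit 0x109) (nat_lit 2) (by decide +kernel) (ClAll.succ (ClAll.succ ClAll.zero n96) n97)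

def n121 : Cl (O (nat_lit 3)) (R (nat_lit 104577))
    (p (nat_lit 0x101) (nat_lit 1) (p (nat_lit 0x119) (nat_lit 0) (p (nat_lit 0xc9) (nat_lit 0) (p (nat_lit 0x89) (nat_lit 1) (p (nat_lit 0x41) (nat_lit 0) (p (nat_lit 0x8a090b098a9a) (nat_lit 0) (p (nat_lit 0x9888a890a1a) (nat_lit 0) (p (nat_lit 0x89080a08879a) (nat_lit 0) (p (nat_lit 0x8878988071a) (nat_lit 0) (p (nat_lit 0x80000800080907888a) (nat_lit 0) (p (nat_lit 0x80000800078887060a) (nat_lit 0) (p (nat_lit 0x8608068782) (nat_lit 0) (p (nat_lit 0x587860702) (nat_lit 0) (p (nat_lit 0x8507058482) (nat_lit 0) (p (nat_lit 0x486850402) (nat_lit 0) (p (nat_lit 0x160014) (nat_lit 0) (p (nat_lit 0x50612) (nat_lit 0) (p (nat_lit 0x38592) (nat_lit 0) (p (nat_lit 0x40492) (nat_lit 0) (p (nat_lit 0x28412) (nat_lit 0) (p (nat_lit 0x30292) (nat_lit 0) (p (nat_lit 0x18212) (nat_lit 0) (p (nat_lit 0x20092) (nat_lit 0) (p (nat_lit 0x8012)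 (nat_lit 0) pn)))))))))))))))))))))))) :=
  Cl.node (nat_lit 0xc1) (nat_lit 2) (by decide +kernel) (ClAll.succ (ClAll.succ ClAll.zero n98) s87)

def n122 : Cl (O (nat_lit 3)) (R (nat_lit 104577))
    (p (nat_lit 0xc1) (nat_lit 0) (p (nat_lit 0x119) (nat_lit 1) (p (nat_lit 0xc9) (nat_lit 0) (p (nat_lit 0x89) (nat_lit 1) (p (nat_lit 0x41) (nat_lit 0) (p (nat_lit 0x8a090b098a9a) (nat_lit 0) (p (nat_lit 0x9888a890a1a) (nat_lit 0) (p (nat_lit 0x89080a08879a) (nat_lit 0) (p (nat_lit 0x8878988071a) (nat_lit 0) (p (nat_lit 0x80000800080907888a) (nat_lit 0) (p (nat_lit 0x80000800078887060a) (nat_lit 0) (p (nat_lit 0x8608068782) (nat_lit 0) (p (nat_lit 0x587860702) (nat_lit 0) (p (nat_lit 0x8507058482) (nat_lit 0) (p (nat_lit 0x486850402) (nat_lit 0) (p (nat_lit 0x160014) (nat_lit 0) (p (nat_lit 0x50612) (nat_lit 0) (p (nat_lit 0x38592) (nat_lit 0) (p (nat_lit 0x40492) (nat_lit 0) (p (nat_lit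 0x28412) (nat_lit 0) (p (nat_lit 0x30292) (nat_lit 0) (p (nat_lit 0x18212) (nat_lit 0) (p (nat_lit 0x20092) (nat_lit 0) (p (nat_lit 0x8012) (nat_lit 0) pn)))))))))))))))))))))))) :=
  Cl.node (nat_lit 0xd1) (nat_lit 2) (by decide +kernel) (ClAll.succ (ClAll.succ ClAll.zero s88) n99)

def n123 : Cl (O (nat_lit 3)) (R (nat_lit 104577))
    (p (nat_lit 0xc1) (nat_lit 1) (p (nat_lit 0x119) (nat_lit 1) (p (nat_lit 0xc9) (nat_lit 0) (p (nat_lit 0x89) (nat_lit 1) (p (nat_lit 0x41) (nat_lit 0) (p (nat_lit 0x8a090b098a9a) (nat_lit 0) (p (nat_lit 0x9888a890a1a) (nat_lit 0) (p (nat_lit 0x89080a08879a) (nat_lit 0) (p (nat_lit 0x8878988071a) (nat_lit 0) (p (nat_lit 0x80000800080907888a) (nat_lit 0) (p (nat_lit 0x80000800078887060a) (nat_lit 0) (p (nat_lit 0x8608068782) (nat_lit 0) (p (nat_lit 0x587860702) (nat_lit 0) (p (nat_lit 0x8507058482) (nat_lit 0) (p (nat_lit 0x486850402) (nat_lit 0)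 (p (nat_lit 0x160014) (nat_lit 0) (p (nat_lit 0x50612) (nat_lit 0) (p (nat_lit 0x38592) (nat_lit 0) (p (nat_lit 0x40492) (nat_lit 0) (p (nat_lit 0x28412) (nat_lit 0) (p (nat_lit 0x30292) (nat_lit 0) (p (nat_lit 0x18212) (nat_lit 0) (p (nat_lit 0x20092) (nat_lit 0) (p (nat_lit 0x8012) (nat_lit 0) pn)))))))))))))))))))))))) :=
  Cl.node (nat_lit 0x101) (nat_lit 2) (by decide +kernel) (ClAll.succ (ClAll.succ ClAll.zero n100) s99)

def n124 : Cl (O (nat_lit 3)) (R (nat_lit 104577))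
    (p (nat_lit 0x101) (nat_lit 0) (p (nat_lit 0x109) (nat_lit 0) (p (nat_lit 0xc9) (nat_lit 1) (p (nat_lit 0x89) (nat_lit 1) (p (nat_lit 0x41) (nat_lit 0) (p (nat_lit 0x8a090b098a9a) (nat_lit 0) (p (nat_lit 0x9888a890a1a) (nat_lit 0) (p (nat_lit 0x89080a08879a) (nat_lit 0) (p (nat_lit 0x8878988071a) (nat_lit 0) (p (nat_lit 0x80000800080907888a) (nat_lit 0) (p (nat_lit 0x80000800078887060a) (nat_lit 0) (p (nat_lit 0x8608068782) (nat_lit 0) (p (nat_lit 0x587860702) (nat_lit 0) (p (nat_lit 0x8507058482) (nat_lit 0) (p (nat_lit 0x486850402) (nat_lit 0) (p (nat_lit 0x160014) (nat_lit 0) (p (nat_lit 0x50612) (nat_lit 0) (p (nat_lit 0x38592) (nat_lit 0) (p (nat_lit 0x40492) (nat_lit 0) (p (nat_lit 0x28412) (nat_lit 0) (p (nat_lit 0x30292) (nat_lit 0) (p (nat_lit 0x18212) (nat_lit 0) (p (nat_lit 0x20092) (nat_lit 0) (p (nat_lit 0x8012) (nat_lit 0) pn)))))))))))))))))))))))) :=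
  Cl.node (nat_lit 0x111) (nat_lit 2) (by decide +kernel) (ClAll.succ (ClAll.succ ClAll.zero n101) s103)

def n125 : Cl (O (nat_lit 3)) (R (nat_lit 104577))
    (p (nat_lit 0x101) (nat_lit 0) (p (nat_lit 0x119) (nat_lit 0) (p (nat_lit 0xd1) (nat_lit 0) (p (nat_lit 0x81) (nat_lit 0) (p (nat_lit 0x41) (nat_lit 1) (p (nat_lit 0x8a090b098a9a) (nat_lit 0) (p (nat_lit 0x9888a890a1a) (nat_lit 0) (p (nat_lit 0x89080a08879a) (nat_lit 0) (p (nat_lit 0x8878988071a) (nat_lit 0) (p (nat_lit 0x80000800080907888a) (nat_lit 0) (p (nat_lit 0x80000800078887060a) (nat_lit 0) (p (nat_lit 0x8608068782) (nat_lit 0) (p (nat_lit 0x587860702) (nat_lit 0) (p (nat_lit 0x8507058482) (nat_lit 0) (p (nat_lit 0x486850402) (nat_lit 0) (p (nat_lit 0x160014) (nat_lit 0) (p (nat_lit 0x50612) (nat_lit 0) (p (nat_lit 0x38592) (nat_lit 0) (p (nat_lit 0x40492) (nat_lit 0) (p (nat_lit 0x28412) (nat_lit 0) (p (nat_lit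 0x30292) (nat_lit 0) (p (nat_lit 0x18212) (nat_lit 0) (p (nat_lit 0x20092) (nat_lit 0) (p (nat_lit 0x8012) (nat_lit 0) pn)))))))))))))))))))))))) :=
  Cl.node (nat_lit 0x109) (nat_lit 2) (by decide +kernel) (ClAll.succ (ClAll.succ ClAll.zero s106) n102)

def n126 : Cl (O (nat_lit 3)) (R (nat_lit 104577))
    (p (nat_lit 0x101) (nat_lit 1) (p (nat_lit 0x119) (nat_lit 0) (p (nat_lit 0xd1) (nat_lit 0) (p (nat_lit 0x81) (nat_lit 0) (p (nat_lit 0x41) (nat_lit 1) (p (nat_lit 0x8a090b098a9a) (nat_lit 0) (p (nat_lit 0x9888a890a1a) (nat_lit 0) (p (nat_lit 0x89080a08879a) (nat_lit 0) (p (nat_lit 0x8878988071a) (nat_lit 0) (p (nat_lit 0x80000800080907888a) (nat_lit 0) (p (nat_lit 0x80000800078887060a) (nat_lit 0) (p (nat_lit 0x8608068782) (nat_lit 0) (p (nat_lit 0x587860702) (nat_lit 0) (p (nat_lit 0x8507058482) (nat_lit 0) (p (nat_lit 0x486850402) (nat_lit 0) (p (nat_lit 0x160014) (nat_lit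 0) (p (nat_lit 0x50612) (nat_lit 0) (p (nat_lit 0x38592) (nat_lit 0) (p (nat_lit 0x40492) (nat_lit 0) (p (nat_lit 0x28412) (nat_lit 0) (p (nat_lit 0x30292) (nat_lit 0) (p (nat_lit 0x18212) (nat_lit 0) (p (nat_lit 0x20092) (nat_lit 0) (p (nat_lit 0x8012) (nat_lit 0) pn)))))))))))))))))))))))) :=
  Cl.node (nat_lit 0xc1) (nat_lit 2) (by decide +kernel) (ClAll.succ (ClAll.succ ClAll.zero n103) n104)

def n127 : Cl (O (nat_lit 3)) (R (nat_lit 104577))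
    (p (nat_lit 0xc1) (nat_lit 0) (p (nat_lit 0x119) (nat_lit 1) (p (nat_lit 0xd1) (nat_lit 0) (p (nat_lit 0x81) (nat_lit 0) (p (nat_lit 0x41) (nat_lit 1) (p (nat_lit 0x8a090b098a9a) (nat_lit 0) (p (nat_lit 0x9888a890a1a) (nat_lit 0) (p (nat_lit 0x89080a08879a) (nat_lit 0) (p (nat_lit 0x8878988071a) (nat_lit 0) (p (nat_lit 0x80000800080907888a) (nat_lit 0) (p (nat_lit 0x80000800078887060a) (nat_lit 0) (p (nat_lit 0x8608068782) (nat_lit 0) (p (nat_lit 0x587860702) (nat_lit 0) (p (nat_lit 0x8507058482) (nat_lit 0) (p (nat_lit 0x486850402) (nat_lit 0) (p (nat_lit 0x160014) (nat_lit 0) (p (nat_lit 0x50612) (nat_lit 0) (p (nat_lit 0x38592) (nat_lit 0) (p (nat_lit 0x40492) (nat_lit 0) (p (nat_lit 0x28412) (nat_lit 0) (p (nat_lit 0x30292) (nat_lit 0) (p (nat_lit 0x18212) (nat_lit 0) (p (nat_lit 0x20092) (nat_lit 0) (p (nat_lit 0x8012) (nat_lit 0) pn)))))))))))))))))))))))) :=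
  Cl.node (nat_lit 0xc9) (nat_lit 2) (by decide +kernel) (ClAll.succ (ClAll.succ ClAll.zero s121) n105)

def n128 : Cl (O (nat_lit 3)) (R (nat_lit 104577))
    (p (nat_lit 0xc1) (nat_lit 1) (p (nat_lit 0x119) (nat_lit 1) (p (nat_lit 0xd1) (nat_lit 0) (p (nat_lit 0x81) (nat_lit 0) (p (nat_lit 0x41) (nat_lit 1) (p (nat_lit 0x8a090b098a9a) (nat_lit 0) (p (nat_lit 0x9888a890a1a) (nat_lit 0) (p (nat_lit 0x89080a08879a) (nat_lit 0) (p (nat_lit 0x8878988071a) (nat_lit 0) (p (nat_lit 0x80000800080907888a) (nat_lit 0) (p (nat_lit 0x80000800078887060a) (nat_lit 0) (p (nat_lit 0x8608068782) (nat_lit 0) (p (nat_lit 0x587860702) (nat_lit 0) (p (nat_lit 0x8507058482) (nat_lit 0) (p (nat_lit 0x486850402) (nat_lit 0) (p (nat_lit 0x160014) (nat_lit 0) (p (nat_lit 0x50612) (nat_lit 0) (p (nat_lit 0x38592) (nat_lit 0) (p (nat_lit 0x40492) (nat_lit 0) (p (nat_lit 0x28412) (nat_lit 0) (p (nat_lit 0x30292)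 (nat_lit 0) (p (nat_lit 0x18212) (nat_lit 0) (p (nat_lit 0x20092) (nat_lit 0) (p (nat_lit 0x8012) (nat_lit 0) pn)))))))))))))))))))))))) :=
  Cl.node (nat_lit 0x101) (nat_lit 2) (by decide +kernel) (ClAll.succ (ClAll.succ ClAll.zero n106) n107)

def n129 : Cl (O (nat_lit 3)) (R (nat_lit 104577))
    (p (nat_lit 0x101) (nat_lit 0) (p (nat_lit 0x111) (nat_lit 0) (p (nat_lit 0xd1) (nat_lit 1) (p (nat_lit 0x81) (nat_lit 0) (p (nat_lit 0x41) (nat_lit 1) (p (nat_lit 0x8a090b098a9a) (nat_lit 0) (p (nat_lit 0x9888a890a1a) (nat_lit 0) (p (nat_lit 0x89080a08879a) (nat_lit 0) (p (nat_lit 0x8878988071a) (nat_lit 0) (p (nat_lit 0x80000800080907888a) (nat_lit 0) (p (nat_lit 0x80000800078887060a) (nat_lit 0) (p (nat_lit 0x8608068782) (nat_lit 0) (p (nat_lit 0x587860702) (nat_lit 0) (p (nat_lit 0x8507058482) (nat_lit 0) (p (nat_lit 0x486850402) (nat_lit 0) (p (nat_lit 0x160014) (nat_lit 0) (p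 (nat_lit 0x50612) (nat_lit 0) (p (nat_lit 0x38592) (nat_lit 0) (p (nat_lit 0x40492) (nat_lit 0) (p (nat_lit 0x28412) (nat_lit 0) (p (nat_lit 0x30292) (nat_lit 0) (p (nat_lit 0x18212) (nat_lit 0) (p (nat_lit 0x20092) (nat_lit 0) (p (nat_lit 0x8012) (nat_lit 0) pn)))))))))))))))))))))))) :=
  Cl.node (nat_lit 0x109) (nat_lit 2) (by decide +kernel) (ClAll.succ (ClAll.succ ClAll.zero s128) n108)

def n130 : Cl (O (nat_lit 3)) (R (nat_lit 104577))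
    (p (nat_lit 0x101) (nat_lit 1) (p (nat_lit 0x111) (nat_lit 0) (p (nat_lit 0xd1) (nat_lit 1) (p (nat_lit 0x81) (nat_lit 0) (p (nat_lit 0x41) (nat_lit 1) (p (nat_lit 0x8a090b098a9a) (nat_lit 0) (p (nat_lit 0x9888a890a1a) (nat_lit 0) (p (nat_lit 0x89080a08879a) (nat_lit 0) (p (nat_lit 0x8878988071a) (nat_lit 0) (p (nat_lit 0x80000800080907888a) (nat_lit 0) (p (nat_lit 0x80000800078887060a) (nat_lit 0) (p (nat_lit 0x8608068782) (nat_lit 0) (p (nat_lit 0x587860702) (nat_lit 0) (p (nat_lit 0x8507058482) (nat_lit 0) (p (nat_lit 0x486850402) (nat_lit 0) (p (nat_lit 0x160014) (nat_lit 0) (p (nat_lit 0x50612) (nat_lit 0) (p (nat_lit 0x38592) (nat_lit 0) (p (nat_lit 0x40492) (nat_lit 0) (p (nat_lit 0x28412) (nat_lit 0) (p (nat_lit 0x30292) (nat_lit 0) (p (nat_lit 0x18212) (nat_lit 0) (p (nat_lit 0x20092) (nat_lit 0) (p (nat_lit 0x8012) (nat_lit 0) pn)))))))))))))))))))))))) :=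
  Cl.node (nat_lit 0x89) (nat_lit 2) (by decide +kernel) (ClAll.succ (ClAll.succ ClAll.zero n109) n110)

def n131 : Cl (O (nat_lit 3)) (R (nat_lit 104577))
    (p (nat_lit 0x89) (nat_lit 1) (p (nat_lit 0x111) (nat_lit 1) (p (nat_lit 0xd1) (nat_lit 1) (p (nat_lit 0x81) (nat_lit 0) (p (nat_lit 0x41) (nat_lit 1) (p (nat_lit 0x8a090b098a9a) (nat_lit 0) (p (nat_lit 0x9888a890a1a) (nat_lit 0) (p (nat_lit 0x89080a08879a) (nat_lit 0) (p (nat_lit 0x8878988071a) (nat_lit 0) (p (nat_lit 0x80000800080907888a) (nat_lit 0) (p (nat_lit 0x80000800078887060a) (nat_lit 0) (p (nat_lit 0x8608068782) (nat_lit 0) (p (nat_lit 0x587860702) (nat_lit 0) (p (nat_lit 0x8507058482) (nat_lit 0) (p (nat_lit 0x486850402) (nat_lit 0) (p (nat_lit 0x160014) (nat_lit 0) (p (nat_lit 0x50612) (nat_lit 0) (p (nat_lit 0x38592) (nat_lit 0) (p (nat_lit 0x40492) (nat_lit 0) (p (nat_lit 0x28412) (nat_lit 0) (p (nat_lit 0x30292)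 (nat_lit 0) (p (nat_lit 0x18212) (nat_lit 0) (p (nat_lit 0x20092) (nat_lit 0) (p (nat_lit 0x8012) (nat_lit 0) pn)))))))))))))))))))))))) :=
  Cl.node (nat_lit 0xc9) (nat_lit 2) (by decide +kernel) (ClAll.succ (ClAll.succ ClAll.zero s147) n111)

def n132 : Cl (O (nat_lit 3)) (R (nat_lit 104577))
    (p (nat_lit 0x101) (nat_lit 0) (p (nat_lit 0x119) (nat_lit 0) (p (nat_lit 0xc1) (nat_lit 0) (p (nat_lit 0x81) (nat_lit 1) (p (nat_lit 0x41) (nat_lit 1) (p (nat_lit 0x8a090b098a9a) (nat_lit 0) (p (nat_lit 0x9888a890a1a) (nat_lit 0) (p (nat_lit 0x89080a08879a) (nat_lit 0) (p (nat_lit 0x8878988071a) (nat_lit 0) (p (nat_lit 0x80000800080907888a) (nat_lit 0) (p (nat_lit 0x80000800078887060a) (nat_lit 0) (p (nat_lit 0x8608068782) (nat_lit 0) (p (nat_lit 0x587860702) (nat_lit 0) (p (nat_lit 0x8507058482) (nat_lit 0) (p (nat_lit 0x486850402) (nat_lit 0) (p (nat_lit 0x160014) (nat_lit 0) (p (nat_lit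 0x50612) (nat_lit 0) (p (nat_lit 0x38592) (nat_lit 0) (p (nat_lit 0x40492) (nat_lit 0) (p (nat_lit 0x28412) (nat_lit 0) (p (nat_lit 0x30292) (nat_lit 0) (p (nat_lit 0x18212) (nat_lit 0) (p (nat_lit 0x20092) (nat_lit 0) (p (nat_lit 0x8012) (nat_lit 0) pn)))))))))))))))))))))))) :=
  Cl.node (nat_lit 0x109) (nat_lit 2) (by decide +kernel) (ClAll.succ (ClAll.succ ClAll.zero s154) s155)

def n133 : Cl (O (nat_lit 3)) (R (nat_lit 104577))
    (p (nat_lit 0x101) (nat_lit 1) (p (nat_lit 0x119) (nat_lit 0) (p (nat_lit 0xc1) (nat_lit 0) (p (nat_lit 0x81) (nat_lit 1) (p (nat_lit 0x41) (nat_lit 1) (p (nat_lit 0x8a090b098a9a) (nat_lit 0) (p (nat_lit 0x9888a890a1a) (nat_lit 0) (p (nat_lit 0x89080a08879a) (nat_lit 0) (p (nat_lit 0x8878988071a) (nat_lit 0) (p (nat_lit 0x80000800080907888a) (nat_lit 0) (p (nat_lit 0x80000800078887060a) (nat_lit 0) (p (nat_lit 0x8608068782) (nat_lit 0) (p (nat_lit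 0x587860702) (nat_lit 0) (p (nat_lit 0x8507058482) (nat_lit 0) (p (nat_lit 0x486850402) (nat_lit 0) (p (nat_lit 0x160014) (nat_lit 0) (p (nat_lit 0x50612) (nat_lit 0) (p (nat_lit 0x38592) (nat_lit 0) (p (nat_lit 0x40492) (nat_lit 0) (p (nat_lit 0x28412) (nat_lit 0) (p (nat_lit 0x30292) (nat_lit 0) (p (nat_lit 0x18212) (nat_lit 0) (p (nat_lit 0x20092) (nat_lit 0) (p (nat_lit 0x8012) (nat_lit 0) pn)))))))))))))))))))))))) :=
  Cl.node (nat_lit 0xc9) (nat_lit 2) (by decide +kernel) (ClAll.succ (ClAll.succ ClAll.zero n112) s158)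

def n134 : Cl (O (nat_lit 3)) (R (nat_lit 104577))
    (p (nat_lit 0x119) (nat_lit 0) (p (nat_lit 0xd1) (nat_lit 0) (p (nat_lit 0x89) (nat_lit 0) (p (nat_lit 0x41) (nat_lit 0) (p (nat_lit 0x8a090b098a9a) (nat_lit 0) (p (nat_lit 0x9888a890a1a) (nat_lit 0) (p (nat_lit 0x89080a08879a) (nat_lit 0) (p (nat_lit 0x8878988071a) (nat_lit 0) (p (nat_lit 0x80000800080907888a) (nat_lit 0) (p (nat_lit 0x80000800078887060a) (nat_lit 0) (p (nat_lit 0x8608068782) (nat_lit 0) (p (nat_lit 0x587860702) (nat_lit 0) (p (nat_lit 0x8507058482) (nat_lit 0) (p (nat_lit 0x486850402) (nat_lit 0) (p (nat_lit 0x160014) (nat_lit 0) (p (nat_lit 0x50612) (nat_lit 0) (p (nat_lit 0x38592) (nat_lit 0) (p (nat_lit 0x40492) (nat_lit 0) (p (nat_lit 0x28412) (nat_lit 0) (p (nat_lit 0x30292) (nat_lit 0) (p (nat_lit 0x18212) (nat_lit 0) (p (nat_lit 0x20092) (nat_lit 0) (p (nat_lit 0x8012) (nat_lit 0) pn)))))))))))))))))))))))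 :=
  Cl.node (nat_lit 0x101) (nat_lit 2) (by decide +kernel) (ClAll.succ (ClAll.succ ClAll.zero n113) n114)

def n135 : Cl (O (nat_lit 3)) (R (nat_lit 104577))
    (p (nat_lit 0x119) (nat_lit 1) (p (nat_lit 0xd1) (nat_lit 0) (p (nat_lit 0x89) (nat_lit 0) (p (nat_lit 0x41) (nat_lit 0) (p (nat_lit 0x8a090b098a9a) (nat_lit 0) (p (nat_lit 0x9888a890a1a) (nat_lit 0) (p (nat_lit 0x89080a08879a) (nat_lit 0) (p (nat_lit 0x8878988071a) (nat_lit 0) (p (nat_lit 0x80000800080907888a) (nat_lit 0) (p (nat_lit 0x80000800078887060a) (nat_lit 0) (p (nat_lit 0x8608068782) (nat_lit 0) (p (nat_lit 0x587860702) (nat_lit 0) (p (nat_lit 0x8507058482) (nat_lit 0) (p (nat_lit 0x486850402) (nat_lit 0) (p (nat_lit 0x160014) (nat_lit 0) (p (nat_lit 0x50612) (nat_lit 0) (p (nat_lit 0x38592) (nat_lit 0) (p (nat_lit 0x40492) (nat_lit 0) (p (nat_lit 0x28412) (nat_lit 0) (p (nat_lit 0x30292) (nat_lit 0) (p (nat_lit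 0x18212) (nat_lit 0) (p (nat_lit 0x20092) (nat_lit 0) (p (nat_lit 0x8012) (nat_lit 0) pn))))))))))))))))))))))) :=
  Cl.node (nat_lit 0xc1) (nat_lit 2) (by decide +kernel) (ClAll.succ (ClAll.succ ClAll.zero n115) n116)

def n136 : Cl (O (nat_lit 3)) (R (nat_lit 104577))
    (p (nat_lit 0x111) (nat_lit 0) (p (nat_lit 0xd1) (nat_lit 1) (p (nat_lit 0x89) (nat_lit 0) (p (nat_lit 0x41) (nat_lit 0) (p (nat_lit 0x8a090b098a9a) (nat_lit 0) (p (nat_lit 0x9888a890a1a) (nat_lit 0) (p (nat_lit 0x89080a08879a) (nat_lit 0) (p (nat_lit 0x8878988071a) (nat_lit 0) (p (nat_lit 0x80000800080907888a) (nat_lit 0) (p (nat_lit 0x80000800078887060a) (nat_lit 0) (p (nat_lit 0x8608068782) (nat_lit 0) (p (nat_lit 0x587860702) (nat_lit 0) (p (nat_lit 0x8507058482) (nat_lit 0) (p (nat_lit 0x486850402) (nat_lit 0) (p (nat_lit 0x160014) (nat_lit 0) (p (nat_lit 0x50612) (nat_lit 0) (p (nat_lit 0x38592) (nat_lit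 0) (p (nat_lit 0x40492) (nat_lit 0) (p (nat_lit 0x28412) (nat_lit 0) (p (nat_lit 0x30292) (nat_lit 0) (p (nat_lit 0x18212) (nat_lit 0) (p (nat_lit 0x20092) (nat_lit 0) (p (nat_lit 0x8012) (nat_lit 0) pn))))))))))))))))))))))) :=
  Cl.node (nat_lit 0x101) (nat_lit 2) (by decide +kernel) (ClAll.succ (ClAll.succ ClAll.zero n117) n118)

def n137 : Cl (O (nat_lit 3)) (R (nat_lit 104577))
    (p (nat_lit 0x111) (nat_lit 1) (p (nat_lit 0xd1) (nat_lit 1) (p (nat_lit 0x89) (nat_lit 0) (p (nat_lit 0x41) (nat_lit 0) (p (nat_lit 0x8a090b098a9a) (nat_lit 0) (p (nat_lit 0x9888a890a1a) (nat_lit 0) (p (nat_lit 0x89080a08879a) (nat_lit 0) (p (nat_lit 0x8878988071a) (nat_lit 0) (p (nat_lit 0x80000800080907888a) (nat_lit 0) (p (nat_lit 0x80000800078887060a) (nat_lit 0) (p (nat_lit 0x8608068782) (nat_lit 0) (p (nat_lit 0x587860702) (nat_lit 0) (p (nat_lit 0x8507058482) (nat_lit 0) (p (nat_lit 0x486850402)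 (nat_lit 0) (p (nat_lit 0x160014) (nat_lit 0) (p (nat_lit 0x50612) (nat_lit 0) (p (nat_lit 0x38592) (nat_lit 0) (p (nat_lit 0x40492) (nat_lit 0) (p (nat_lit 0x28412) (nat_lit 0) (p (nat_lit 0x30292) (nat_lit 0) (p (nat_lit 0x18212) (nat_lit 0) (p (nat_lit 0x20092) (nat_lit 0) (p (nat_lit 0x8012) (nat_lit 0) pn))))))))))))))))))))))) :=
  Cl.node (nat_lit 0x81) (nat_lit 2) (by decide +kernel) (ClAll.succ (ClAll.succ ClAll.zero s57) n119)

def n138 : Cl (O (nat_lit 3)) (R (nat_lit 104577))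
    (p (nat_lit 0x119) (nat_lit 0) (p (nat_lit 0xc9) (nat_lit 0) (p (nat_lit 0x89) (nat_lit 1) (p (nat_lit 0x41) (nat_lit 0) (p (nat_lit 0x8a090b098a9a) (nat_lit 0) (p (nat_lit 0x9888a890a1a) (nat_lit 0) (p (nat_lit 0x89080a08879a) (nat_lit 0) (p (nat_lit 0x8878988071a) (nat_lit 0) (p (nat_lit 0x80000800080907888a) (nat_lit 0) (p (nat_lit 0x80000800078887060a) (nat_lit 0) (p (nat_lit 0x8608068782) (nat_lit 0) (p (nat_lit 0x587860702) (nat_lit 0) (p (nat_lit 0x8507058482) (nat_lit 0) (p (nat_lit 0x486850402) (nat_lit 0) (p (nat_lit 0x160014) (nat_lit 0) (p (nat_lit 0x50612) (nat_lit 0) (p (nat_lit 0x38592) (nat_lit 0) (p (nat_lit 0x40492) (nat_lit 0) (p (nat_lit 0x28412) (nat_lit 0) (p (nat_lit 0x30292) (nat_lit 0) (p (nat_lit 0x18212) (nat_lit 0) (p (nat_lit 0x20092) (nat_lit 0) (p (nat_lit 0x8012) (nat_lit 0) pn))))))))))))))))))))))) :=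
  Cl.node (nat_lit 0x101) (nat_lit 2) (by decide +kernel) (ClAll.succ (ClAll.succ ClAll.zero n120) n121)

def n139 : Cl (O (nat_lit 3)) (R (nat_lit 104577))
    (p (nat_lit 0x119) (nat_lit 1) (p (nat_lit 0xc9) (nat_lit 0) (p (nat_lit 0x89) (nat_lit 1) (p (nat_lit 0x41) (nat_lit 0) (p (nat_lit 0x8a090b098a9a) (nat_lit 0) (p (nat_lit 0x9888a890a1a) (nat_lit 0) (p (nat_lit 0x89080a08879a) (nat_lit 0) (p (nat_lit 0x8878988071a) (nat_lit 0) (p (nat_lit 0x80000800080907888a) (nat_lit 0) (p (nat_lit 0x80000800078887060a) (nat_lit 0) (p (nat_lit 0x8608068782) (nat_lit 0) (p (nat_lit 0x587860702) (nat_lit 0) (p (nat_lit 0x8507058482) (nat_lit 0) (p (nat_lit 0x486850402) (nat_lit 0) (p (nat_lit 0x160014) (nat_lit 0) (p (nat_lit 0x50612) (nat_lit 0) (p (nat_lit 0x38592) (nat_lit 0) (p (nat_lit 0x40492) (nat_lit 0) (p (nat_lit 0x28412) (nat_lit 0) (p (nat_lit 0x30292) (nat_lit 0) (p (nat_lit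 0x18212) (nat_lit 0) (p (nat_lit 0x20092) (nat_lit 0) (p (nat_lit 0x8012) (nat_lit 0) pn))))))))))))))))))))))) :=
  Cl.node (nat_lit 0xc1) (nat_lit 2) (by decide +kernel) (ClAll.succ (ClAll.succ ClAll.zero n122) n123)

def n140 : Cl (O (nat_lit 3)) (R (nat_lit 104577))
    (p (nat_lit 0x109) (nat_lit 0) (p (nat_lit 0xc9) (nat_lit 1) (p (nat_lit 0x89) (nat_lit 1) (p (nat_lit 0x41) (nat_lit 0) (p (nat_lit 0x8a090b098a9a) (nat_lit 0) (p (nat_lit 0x9888a890a1a) (nat_lit 0) (p (nat_lit 0x89080a08879a) (nat_lit 0) (p (nat_lit 0x8878988071a) (nat_lit 0) (p (nat_lit 0x80000800080907888a) (nat_lit 0) (p (nat_lit 0x80000800078887060a) (nat_lit 0) (p (nat_lit 0x8608068782) (nat_lit 0) (p (nat_lit 0x587860702) (nat_lit 0) (p (nat_lit 0x8507058482) (nat_lit 0) (p (nat_lit 0x486850402) (nat_lit 0) (p (nat_lit 0x160014) (nat_lit 0) (p (nat_lit 0x50612) (nat_lit 0) (p (nat_lit 0x38592) (nat_lit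 0) (p (nat_lit 0x40492) (nat_lit 0) (p (nat_lit 0x28412) (nat_lit 0) (p (nat_lit 0x30292) (nat_lit 0) (p (nat_lit 0x18212) (nat_lit 0) (p (nat_lit 0x20092) (nat_lit 0) (p (nat_lit 0x8012) (nat_lit 0) pn))))))))))))))))))))))) :=
  Cl.node (nat_lit 0x101) (nat_lit 2) (by decide +kernel) (ClAll.succ (ClAll.succ ClAll.zero n124) s104)

def n141 : Cl (O (nat_lit 3)) (R (nat_lit 104577))
    (p (nat_lit 0x119) (nat_lit 0) (p (nat_lit 0xd1) (nat_lit 0) (p (nat_lit 0x81) (nat_lit 0) (p (nat_lit 0x41) (nat_lit 1) (p (nat_lit 0x8a090b098a9a) (nat_lit 0) (p (nat_lit 0x9888a890a1a) (nat_lit 0) (p (nat_lit 0x89080a08879a) (nat_lit 0) (p (nat_lit 0x8878988071a) (nat_lit 0) (p (nat_lit 0x80000800080907888a) (nat_lit 0) (p (nat_lit 0x80000800078887060a) (nat_lit 0) (p (nat_lit 0x8608068782) (nat_lit 0) (p (nat_lit 0x587860702) (nat_lit 0) (p (nat_lit 0x8507058482) (nat_lit 0) (p (nat_lit 0x486850402)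 (nat_lit 0) (p (nat_lit 0x160014) (nat_lit 0) (p (nat_lit 0x50612) (nat_lit 0) (p (nat_lit 0x38592) (nat_lit 0) (p (nat_lit 0x40492) (nat_lit 0) (p (nat_lit 0x28412) (nat_lit 0) (p (nat_lit 0x30292) (nat_lit 0) (p (nat_lit 0x18212) (nat_lit 0) (p (nat_lit 0x20092) (nat_lit 0) (p (nat_lit 0x8012) (nat_lit 0) pn))))))))))))))))))))))) :=
  Cl.node (nat_lit 0x101) (nat_lit 2) (by decide +kernel) (ClAll.succ (ClAll.succ ClAll.zero n125) n126)

def n142 : Cl (O (nat_lit 3)) (R (nat_lit 104577))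
    (p (nat_lit 0x119) (nat_lit 1) (p (nat_lit 0xd1) (nat_lit 0) (p (nat_lit 0x81) (nat_lit 0) (p (nat_lit 0x41) (nat_lit 1) (p (nat_lit 0x8a090b098a9a) (nat_lit 0) (p (nat_lit 0x9888a890a1a) (nat_lit 0) (p (nat_lit 0x89080a08879a) (nat_lit 0) (p (nat_lit 0x8878988071a) (nat_lit 0) (p (nat_lit 0x80000800080907888a) (nat_lit 0) (p (nat_lit 0x80000800078887060a) (nat_lit 0) (p (nat_lit 0x8608068782) (nat_lit 0) (p (nat_lit 0x587860702) (nat_lit 0) (p (nat_lit 0x8507058482) (nat_lit 0) (p (nat_lit 0x486850402) (nat_lit 0) (p (nat_lit 0x160014) (nat_lit 0) (p (nat_lit 0x50612) (nat_lit 0) (p (nat_lit 0x38592) (nat_lit 0) (p (nat_lit 0x40492) (nat_lit 0) (p (nat_lit 0x28412) (nat_lit 0) (p (nat_lit 0x30292) (nat_lit 0) (p (nat_lit 0x18212) (nat_lit 0) (p (nat_lit 0x20092) (nat_lit 0) (p (nat_lit 0x8012) (nat_lit 0) pn))))))))))))))))))))))) :=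
  Cl.node (nat_lit 0xc1) (nat_lit 2) (by decide +kernel) (ClAll.succ (ClAll.succ ClAll.zero n127) n128)

def n143 : Cl (O (nat_lit 3)) (R (nat_lit 104577))
    (p (nat_lit 0x111) (nat_lit 0) (p (nat_lit 0xd1) (nat_lit 1) (p (nat_lit 0x81) (nat_lit 0) (p (nat_lit 0x41) (nat_lit 1) (p (nat_lit 0x8a090b098a9a) (nat_lit 0) (p (nat_lit 0x9888a890a1a) (nat_lit 0) (p (nat_lit 0x89080a08879a) (nat_lit 0) (p (nat_lit 0x8878988071a) (nat_lit 0) (p (nat_lit 0x80000800080907888a) (nat_lit 0) (p (nat_lit 0x80000800078887060a) (nat_lit 0) (p (nat_lit 0x8608068782) (nat_lit 0) (p (nat_lit 0x587860702) (nat_lit 0) (p (nat_lit 0x8507058482) (nat_lit 0) (p (nat_lit 0x486850402) (nat_lit 0) (p (nat_lit 0x160014) (nat_lit 0) (p (nat_lit 0x50612) (nat_lit 0) (p (nat_lit 0x38592) (nat_lit 0) (p (nat_lit 0x40492) (nat_lit 0) (p (nat_lit 0x28412) (nat_lit 0) (p (nat_lit 0x30292) (nat_lit 0) (p (nat_lit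 0x18212) (nat_lit 0) (p (nat_lit 0x20092) (nat_lit 0) (p (nat_lit 0x8012) (nat_lit 0) pn))))))))))))))))))))))) :=
  Cl.node (nat_lit 0x101) (nat_lit 2) (by decide +kernel) (ClAll.succ (ClAll.succ ClAll.zero n129) n130)

def n144 : Cl (O (nat_lit 3)) (R (nat_lit 104577))
    (p (nat_lit 0x111) (nat_lit 1) (p (nat_lit 0xd1) (nat_lit 1) (p (nat_lit 0x81) (nat_lit 0) (p (nat_lit 0x41) (nat_lit 1) (p (nat_lit 0x8a090b098a9a) (nat_lit 0) (p (nat_lit 0x9888a890a1a) (nat_lit 0) (p (nat_lit 0x89080a08879a) (nat_lit 0) (p (nat_lit 0x8878988071a) (nat_lit 0) (p (nat_lit 0x80000800080907888a) (nat_lit 0) (p (nat_lit 0x80000800078887060a) (nat_lit 0) (p (nat_lit 0x8608068782) (nat_lit 0) (p (nat_lit 0x587860702) (nat_lit 0) (p (nat_lit 0x8507058482) (nat_lit 0) (p (nat_lit 0x486850402) (nat_lit 0) (p (nat_lit 0x160014) (nat_lit 0) (p (nat_lit 0x50612) (nat_lit 0) (p (nat_lit 0x38592) (nat_lit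 0) (p (nat_lit 0x40492) (nat_lit 0) (p (nat_lit 0x28412) (nat_lit 0) (p (nat_lit 0x30292) (nat_lit 0) (p (nat_lit 0x18212) (nat_lit 0) (p (nat_lit 0x20092) (nat_lit 0) (p (nat_lit 0x8012) (nat_lit 0) pn))))))))))))))))))))))) :=
  Cl.node (nat_lit 0x89) (nat_lit 2) (by decide +kernel) (ClAll.succ (ClAll.succ ClAll.zero s146) n131)

def n145 : Cl (O (nat_lit 3)) (R (nat_lit 104577))
    (p (nat_lit 0x119) (nat_lit 0) (p (nat_lit 0xc1) (nat_lit 0) (p (nat_lit 0x81) (nat_lit 1) (p (nat_lit 0x41) (nat_lit 1) (p (nat_lit 0x8a090b098a9a) (nat_lit 0) (p (nat_lit 0x9888a890a1a) (nat_lit 0) (p (nat_lit 0x89080a08879a) (nat_lit 0) (p (nat_lit 0x8878988071a) (nat_lit 0) (p (nat_lit 0x80000800080907888a) (nat_lit 0) (p (nat_lit 0x80000800078887060a) (nat_lit 0) (p (nat_lit 0x8608068782) (nat_lit 0) (p (nat_lit 0x587860702) (nat_lit 0) (p (nat_lit 0x8507058482) (nat_lit 0) (p (nat_lit 0x486850402)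 (nat_lit 0) (p (nat_lit 0x160014) (nat_lit 0) (p (nat_lit 0x50612) (nat_lit 0) (p (nat_lit 0x38592) (nat_lit 0) (p (nat_lit 0x40492) (nat_lit 0) (p (nat_lit 0x28412) (nat_lit 0) (p (nat_lit 0x30292) (nat_lit 0) (p (nat_lit 0x18212) (nat_lit 0) (p (nat_lit 0x20092) (nat_lit 0) (p (nat_lit 0x8012) (nat_lit 0) pn))))))))))))))))))))))) :=
  Cl.node (nat_lit 0x101) (nat_lit 2) (by decide +kernel) (ClAll.succ (ClAll.succ ClAll.zero n132) n133)

def n146 : Cl (O (nat_lit 3)) (R (nat_lit 104577))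
    (p (nat_lit 0x119) (nat_lit 1) (p (nat_lit 0xc1) (nat_lit 0) (p (nat_lit 0x81) (nat_lit 1) (p (nat_lit 0x41) (nat_lit 1) (p (nat_lit 0x8a090b098a9a) (nat_lit 0) (p (nat_lit 0x9888a890a1a) (nat_lit 0) (p (nat_lit 0x89080a08879a) (nat_lit 0) (p (nat_lit 0x8878988071a) (nat_lit 0) (p (nat_lit 0x80000800080907888a) (nat_lit 0) (p (nat_lit 0x80000800078887060a) (nat_lit 0) (p (nat_lit 0x8608068782) (nat_lit 0) (p (nat_lit 0x587860702) (nat_lit 0) (p (nat_lit 0x8507058482) (nat_lit 0) (p (nat_lit 0x486850402) (nat_lit 0) (p (nat_lit 0x160014) (nat_lit 0) (p (nat_lit 0x50612) (nat_lit 0) (p (nat_lit 0x38592) (nat_lit 0) (p (nat_lit 0x40492) (nat_lit 0) (p (nat_lit 0x28412) (nat_lit 0) (p (nat_lit 0x30292) (nat_lit 0) (p (nat_lit 0x18212) (nat_lit 0) (p (nat_lit 0x20092) (nat_lit 0) (p (nat_lit 0x8012) (nat_lit 0) pn))))))))))))))))))))))) :=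
  Cl.node (nat_lit 0xc9) (nat_lit 2) (by decide +kernel) (ClAll.succ (ClAll.succ ClAll.zero s159) s160)

def n147 : Cl (O (nat_lit 3)) (R (nat_lit 104577))
    (p (nat_lit 0xd1) (nat_lit 0) (p (nat_lit 0x89) (nat_lit 0) (p (nat_lit 0x41) (nat_lit 0) (p (nat_lit 0x8a090b098a9a) (nat_lit 0) (p (nat_lit 0x9888a890a1a) (nat_lit 0) (p (nat_lit 0x89080a08879a) (nat_lit 0) (p (nat_lit 0x8878988071a) (nat_lit 0) (p (nat_lit 0x80000800080907888a) (nat_lit 0) (p (nat_lit 0x80000800078887060a) (nat_lit 0) (p (nat_lit 0x8608068782) (nat_lit 0) (p (nat_lit 0x587860702) (nat_lit 0) (p (nat_lit 0x8507058482) (nat_lit 0) (p (nat_lit 0x486850402) (nat_lit 0) (p (nat_lit 0x160014) (nat_lit 0) (p (nat_lit 0x50612) (nat_lit 0) (p (nat_lit 0x38592) (nat_lit 0) (p (nat_lit 0x40492) (nat_lit 0) (p (nat_lit 0x28412) (nat_lit 0) (p (nat_lit 0x30292) (nat_lit 0) (p (nat_lit 0x18212) (nat_lit 0) (p (nat_lit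 0x20092) (nat_lit 0) (p (nat_lit 0x8012) (nat_lit 0) pn)))))))))))))))))))))) :=
  Cl.node (nat_lit 0x119) (nat_lit 2) (by decide +kernel) (ClAll.succ (ClAll.succ ClAll.zero n134) n135)

def n148 : Cl (O (nat_lit 3)) (R (nat_lit 104577))
    (p (nat_lit 0xd1) (nat_lit 1) (p (nat_lit 0x89) (nat_lit 0) (p (nat_lit 0x41) (nat_lit 0) (p (nat_lit 0x8a090b098a9a) (nat_lit 0) (p (nat_lit 0x9888a890a1a) (nat_lit 0) (p (nat_lit 0x89080a08879a) (nat_lit 0) (p (nat_lit 0x8878988071a) (nat_lit 0) (p (nat_lit 0x80000800080907888a) (nat_lit 0) (p (nat_lit 0x80000800078887060a) (nat_lit 0) (p (nat_lit 0x8608068782) (nat_lit 0) (p (nat_lit 0x587860702) (nat_lit 0) (p (nat_lit 0x8507058482) (nat_lit 0) (p (nat_lit 0x486850402) (nat_lit 0) (p (nat_lit 0x160014) (nat_lit 0) (p (nat_lit 0x50612) (nat_lit 0) (p (nat_lit 0x38592) (nat_lit 0) (p (nat_lit 0x40492) (nat_lit 0) (p (nat_lit 0x28412) (nat_lit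 0) (p (nat_lit 0x30292) (nat_lit 0) (p (nat_lit 0x18212) (nat_lit 0) (p (nat_lit 0x20092) (nat_lit 0) (p (nat_lit 0x8012) (nat_lit 0) pn)))))))))))))))))))))) :=
  Cl.node (nat_lit 0x111) (nat_lit 2) (by decide +kernel) (ClAll.succ (ClAll.succ ClAll.zero n136) n137)

def n149 : Cl (O (nat_lit 3)) (R (nat_lit 104577))
    (p (nat_lit 0xc9) (nat_lit 0) (p (nat_lit 0x89) (nat_lit 1) (p (nat_lit 0x41) (nat_lit 0) (p (nat_lit 0x8a090b098a9a) (nat_lit 0) (p (nat_lit 0x9888a890a1a) (nat_lit 0) (p (nat_lit 0x89080a08879a) (nat_lit 0) (p (nat_lit 0x8878988071a) (nat_lit 0) (p (nat_lit 0x80000800080907888a) (nat_lit 0) (p (nat_lit 0x80000800078887060a) (nat_lit 0) (p (nat_lit 0x8608068782) (nat_lit 0) (p (nat_lit 0x587860702) (nat_lit 0) (p (nat_lit 0x8507058482) (nat_lit 0) (p (nat_lit 0x486850402) (nat_lit 0) (p (nat_lit 0x160014) (nat_lit 0) (p (nat_lit 0x50612) (nat_lit 0) (p (nat_lit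 0x38592) (nat_lit 0) (p (nat_lit 0x40492) (nat_lit 0) (p (nat_lit 0x28412) (nat_lit 0) (p (nat_lit 0x30292) (nat_lit 0) (p (nat_lit 0x18212) (nat_lit 0) (p (nat_lit 0x20092) (nat_lit 0) (p (nat_lit 0x8012) (nat_lit 0) pn)))))))))))))))))))))) :=
  Cl.node (nat_lit 0x119) (nat_lit 2) (by decide +kernel) (ClAll.succ (ClAll.succ ClAll.zero n138) n139)

def n150 : Cl (O (nat_lit 3)) (R (nat_lit 104577))
    (p (nat_lit 0xc9) (nat_lit 1) (p (nat_lit 0x89) (nat_lit 1) (p (nat_lit 0x41) (nat_lit 0) (p (nat_lit 0x8a090b098a9a) (nat_lit 0) (p (nat_lit 0x9888a890a1a) (nat_lit 0) (p (nat_lit 0x89080a08879a) (nat_lit 0) (p (nat_lit 0x8878988071a) (nat_lit 0) (p (nat_lit 0x80000800080907888a) (nat_lit 0) (p (nat_lit 0x80000800078887060a) (nat_lit 0) (p (nat_lit 0x8608068782) (nat_lit 0) (p (nat_lit 0x587860702) (nat_lit 0) (p (nat_lit 0x8507058482) (nat_lit 0) (p (nat_lit 0x486850402) (nat_lit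 0) (p (nat_lit 0x160014) (nat_lit 0) (p (nat_lit 0x50612) (nat_lit 0) (p (nat_lit 0x38592) (nat_lit 0) (p (nat_lit 0x40492) (nat_lit 0) (p (nat_lit 0x28412) (nat_lit 0) (p (nat_lit 0x30292) (nat_lit 0) (p (nat_lit 0x18212) (nat_lit 0) (p (nat_lit 0x20092) (nat_lit 0) (p (nat_lit 0x8012) (nat_lit 0) pn)))))))))))))))))))))) :=
  Cl.node (nat_lit 0x109) (nat_lit 2) (by decide +kernel) (ClAll.succ (ClAll.succ ClAll.zero n140) s105)

def n151 : Cl (O (nat_lit 3)) (R (nat_lit 104577))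
    (p (nat_lit 0xd1) (nat_lit 0) (p (nat_lit 0x81) (nat_lit 0) (p (nat_lit 0x41) (nat_lit 1) (p (nat_lit 0x8a090b098a9a) (nat_lit 0) (p (nat_lit 0x9888a890a1a) (nat_lit 0) (p (nat_lit 0x89080a08879a) (nat_lit 0) (p (nat_lit 0x8878988071a) (nat_lit 0) (p (nat_lit 0x80000800080907888a) (nat_lit 0) (p (nat_lit 0x80000800078887060a) (nat_lit 0) (p (nat_lit 0x8608068782) (nat_lit 0) (p (nat_lit 0x587860702) (nat_lit 0) (p (nat_lit 0x8507058482) (nat_lit 0) (p (nat_lit 0x486850402) (nat_lit 0) (p (nat_lit 0x160014) (nat_lit 0) (p (nat_lit 0x50612) (nat_lit 0) (p (nat_lit 0x38592) (nat_lit 0) (p (nat_lit 0x40492) (nat_lit 0) (p (nat_lit 0x28412) (nat_lit 0) (p (nat_lit 0x30292) (nat_lit 0) (p (nat_lit 0x18212) (nat_lit 0) (p (nat_lit 0x20092) (nat_lit 0) (p (nat_lit 0x8012) (nat_lit 0) pn)))))))))))))))))))))) :=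
  Cl.node (nat_lit 0x119) (nat_lit 2) (by decide +kernel) (ClAll.succ (ClAll.succ ClAll.zero n141) n142)

def n152 : Cl (O (nat_lit 3)) (R (nat_lit 104577))
    (p (nat_lit 0xd1) (nat_lit 1) (p (nat_lit 0x81) (nat_lit 0) (p (nat_lit 0x41) (nat_lit 1) (p (nat_lit 0x8a090b098a9a) (nat_lit 0) (p (nat_lit 0x9888a890a1a) (nat_lit 0) (p (nat_lit 0x89080a08879a) (nat_lit 0) (p (nat_lit 0x8878988071a) (nat_lit 0) (p (nat_lit 0x80000800080907888a) (nat_lit 0) (p (nat_lit 0x80000800078887060a) (nat_lit 0) (p (nat_lit 0x8608068782) (nat_lit 0) (p (nat_lit 0x587860702) (nat_lit 0) (p (nat_lit 0x8507058482) (nat_lit 0) (p (nat_lit 0x486850402) (nat_lit 0) (p (nat_lit 0x160014) (nat_lit 0) (p (nat_lit 0x50612) (nat_lit 0) (p (nat_lit 0x38592) (nat_lit 0) (p (nat_lit 0x40492) (nat_lit 0) (p (nat_lit 0x28412) (nat_lit 0) (p (nat_lit 0x30292) (nat_lit 0) (p (nat_lit 0x18212) (nat_lit 0) (p (nat_lit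 0x20092) (nat_lit 0) (p (nat_lit 0x8012) (nat_lit 0) pn)))))))))))))))))))))) :=
  Cl.node (nat_lit 0x111) (nat_lit 2) (by decide +kernel) (ClAll.succ (ClAll.succ ClAll.zero n143) n144)

def n153 : Cl (O (nat_lit 3)) (R (nat_lit 104577))
    (p (nat_lit 0xc1) (nat_lit 0) (p (nat_lit 0x81) (nat_lit 1) (p (nat_lit 0x41) (nat_lit 1) (p (nat_lit 0x8a090b098a9a) (nat_lit 0) (p (nat_lit 0x9888a890a1a) (nat_lit 0) (p (nat_lit 0x89080a08879a) (nat_lit 0) (p (nat_lit 0x8878988071a) (nat_lit 0) (p (nat_lit 0x80000800080907888a) (nat_lit 0) (p (nat_lit 0x80000800078887060a) (nat_lit 0) (p (nat_lit 0x8608068782) (nat_lit 0) (p (nat_lit 0x587860702) (nat_lit 0) (p (nat_lit 0x8507058482) (nat_lit 0) (p (nat_lit 0x486850402) (nat_lit 0) (p (nat_lit 0x160014) (nat_lit 0) (p (nat_lit 0x50612) (nat_lit 0) (p (nat_lit 0x38592) (nat_lit 0) (p (nat_lit 0x40492) (nat_lit 0) (p (nat_lit 0x28412) (nat_lit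 0) (p (nat_lit 0x30292) (nat_lit 0) (p (nat_lit 0x18212) (nat_lit 0) (p (nat_lit 0x20092) (nat_lit 0) (p (nat_lit 0x8012) (nat_lit 0) pn)))))))))))))))))))))) :=
  Cl.node (nat_lit 0x119) (nat_lit 2) (by decide +kernel) (ClAll.succ (ClAll.succ ClAll.zero n145) n146)

def n154 : Cl (O (nat_lit 3)) (R (nat_lit 104577))
    (p (nat_lit 0x89) (nat_lit 0) (p (nat_lit 0x41) (nat_lit 0) (p (nat_lit 0x8a090b098a9a) (nat_lit 0) (p (nat_lit 0x9888a890a1a) (nat_lit 0) (p (nat_lit 0x89080a08879a) (nat_lit 0) (p (nat_lit 0x8878988071a) (nat_lit 0) (p (nat_lit 0x80000800080907888a) (nat_lit 0) (p (nat_lit 0x80000800078887060a) (nat_lit 0) (p (nat_lit 0x8608068782) (nat_lit 0) (p (nat_lit 0x587860702) (nat_lit 0) (p (nat_lit 0x8507058482) (nat_lit 0) (p (nat_lit 0x486850402) (nat_lit 0) (p (nat_lit 0x160014) (nat_lit 0) (p (nat_lit 0x50612) (nat_lit 0) (p (nat_lit 0x38592) (nat_lit 0) (p (nat_lit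 0x40492) (nat_lit 0) (p (nat_lit 0x28412) (nat_lit 0) (p (nat_lit 0x30292) (nat_lit 0) (p (nat_lit 0x18212) (nat_lit 0) (p (nat_lit 0x20092) (nat_lit 0) (p (nat_lit 0x8012) (nat_lit 0) pn))))))))))))))))))))) :=
  Cl.node (nat_lit 0xd1) (nat_lit 2) (by decide +kernel) (ClAll.succ (ClAll.succ ClAll.zero n147) n148)

def n155 : Cl (O (nat_lit 3)) (R (nat_lit 104577))
    (p (nat_lit 0x89) (nat_lit 1) (p (nat_lit 0x41) (nat_lit 0) (p (nat_lit 0x8a090b098a9a) (nat_lit 0) (p (nat_lit 0x9888a890a1a) (nat_lit 0) (p (nat_lit 0x89080a08879a) (nat_lit 0) (p (nat_lit 0x8878988071a) (nat_lit 0) (p (nat_lit 0x80000800080907888a) (nat_lit 0) (p (nat_lit 0x80000800078887060a) (nat_lit 0) (p (nat_lit 0x8608068782) (nat_lit 0) (p (nat_lit 0x587860702) (nat_lit 0) (p (nat_lit 0x8507058482) (nat_lit 0) (p (nat_lit 0x486850402) (nat_lit 0) (p (nat_lit 0x160014) (nat_lit 0) (p (nat_lit 0x50612) (nat_lit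 0) (p (nat_lit 0x38592) (nat_lit 0) (p (nat_lit 0x40492) (nat_lit 0) (p (nat_lit 0x28412) (nat_lit 0) (p (nat_lit 0x30292) (nat_lit 0) (p (nat_lit 0x18212) (nat_lit 0) (p (nat_lit 0x20092) (nat_lit 0) (p (nat_lit 0x8012) (nat_lit 0) pn))))))))))))))))))))) :=
  Cl.node (nat_lit 0xc9) (nat_lit 2) (by decide +kernel) (ClAll.succ (ClAll.succ ClAll.zero n149) n150)

def n156 : Cl (O (nat_lit 3)) (R (nat_lit 104577))
    (p (nat_lit 0x81) (nat_lit 0) (p (nat_lit 0x41) (nat_lit 1) (p (nat_lit 0x8a090b098a9a) (nat_lit 0) (p (nat_lit 0x9888a890a1a) (nat_lit 0) (p (nat_lit 0x89080a08879a) (nat_lit 0) (p (nat_lit 0x8878988071a) (nat_lit 0) (p (nat_lit 0x80000800080907888a) (nat_lit 0) (p (nat_lit 0x80000800078887060a) (nat_lit 0) (p (nat_lit 0x8608068782) (nat_lit 0) (p (nat_lit 0x587860702) (nat_lit 0) (p (nat_lit 0x8507058482) (nat_lit 0) (p (nat_lit 0x486850402) (nat_lit 0) (p (nat_lit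 0x160014) (nat_lit 0) (p (nat_lit 0x50612) (nat_lit 0) (p (nat_lit 0x38592) (nat_lit 0) (p (nat_lit 0x40492) (nat_lit 0) (p (nat_lit 0x28412) (nat_lit 0) (p (nat_lit 0x30292) (nat_lit 0) (p (nat_lit 0x18212) (nat_lit 0) (p (nat_lit 0x20092) (nat_lit 0) (p (nat_lit 0x8012) (nat_lit 0) pn))))))))))))))))))))) :=
  Cl.node (nat_lit 0xd1) (nat_lit 2) (by decide +kernel) (ClAll.succ (ClAll.succ ClAll.zero n151) n152)

def n157 : Cl (O (nat_lit 3)) (R (nat_lit 104577))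
    (p (nat_lit 0x81) (nat_lit 1) (p (nat_lit 0x41) (nat_lit 1) (p (nat_lit 0x8a090b098a9a) (nat_lit 0) (p (nat_lit 0x9888a890a1a) (nat_lit 0) (p (nat_lit 0x89080a08879a) (nat_lit 0) (p (nat_lit 0x8878988071a) (nat_lit 0) (p (nat_lit 0x80000800080907888a) (nat_lit 0) (p (nat_lit 0x80000800078887060a) (nat_lit 0) (p (nat_lit 0x8608068782) (nat_lit 0) (p (nat_lit 0x587860702) (nat_lit 0) (p (nat_lit 0x8507058482) (nat_lit 0) (p (nat_lit 0x486850402) (nat_lit 0) (p (nat_lit 0x160014) (nat_lit 0) (p (nat_lit 0x50612) (nat_lit 0) (p (nat_lit 0x38592) (nat_lit 0) (p (nat_lit 0x40492) (nat_lit 0) (p (nat_lit 0x28412) (nat_lit 0) (p (nat_lit 0x30292) (nat_lit 0) (p (nat_lit 0x18212) (nat_lit 0) (p (nat_lit 0x20092) (nat_lit 0) (p (nat_lit 0x8012) (nat_lit 0) pn))))))))))))))))))))) :=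
  Cl.node (nat_lit 0xc1) (nat_lit 2) (by decide +kernel) (ClAll.succ (ClAll.succ ClAll.zero n153) s161)

def n158 : Cl (O (nat_lit 3)) (R (nat_lit 104577))
    (p (nat_lit 0x41) (nat_lit 0) (p (nat_lit 0x8a090b098a9a) (nat_lit 0) (p (nat_lit 0x9888a890a1a) (nat_lit 0) (p (nat_lit 0x89080a08879a) (nat_lit 0) (p (nat_lit 0x8878988071a) (nat_lit 0) (p (nat_lit 0x80000800080907888a) (nat_lit 0) (p (nat_lit 0x80000800078887060a) (nat_lit 0) (p (nat_lit 0x8608068782) (nat_lit 0) (p (nat_lit 0x587860702) (nat_lit 0) (p (nat_lit 0x8507058482) (nat_lit 0) (p (nat_lit 0x486850402) (nat_lit 0) (p (nat_lit 0x160014) (nat_lit 0) (p (nat_lit 0x50612) (nat_lit 0) (p (nat_lit 0x38592) (nat_lit 0) (p (nat_lit 0x40492) (nat_lit 0) (p (nat_lit 0x28412) (nat_lit 0) (p (nat_lit 0x30292) (nat_lit 0) (p (nat_lit 0x18212) (nat_lit 0) (p (nat_lit 0x20092) (nat_lit 0) (p (nat_lit 0x8012) (nat_lit 0) pn))))))))))))))))))))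 :=
  Cl.node (nat_lit 0x89) (nat_lit 2) (by decide +kernel) (ClAll.succ (ClAll.succ ClAll.zero n154) n155)

def n159 : Cl (O (nat_lit 3)) (R (nat_lit 104577))
    (p (nat_lit 0x41) (nat_lit 1) (p (nat_lit 0x8a090b098a9a) (nat_lit 0) (p (nat_lit 0x9888a890a1a) (nat_lit 0) (p (nat_lit 0x89080a08879a) (nat_lit 0) (p (nat_lit 0x8878988071a) (nat_lit 0) (p (nat_lit 0x80000800080907888a) (nat_lit 0) (p (nat_lit 0x80000800078887060a) (nat_lit 0) (p (nat_lit 0x8608068782) (nat_lit 0) (p (nat_lit 0x587860702) (nat_lit 0) (p (nat_lit 0x8507058482) (nat_lit 0) (p (nat_lit 0x486850402) (nat_lit 0) (p (nat_lit 0x160014) (nat_lit 0) (p (nat_lit 0x50612) (nat_lit 0) (p (nat_lit 0x38592) (nat_lit 0) (p (nat_lit 0x40492) (nat_lit 0) (p (nat_lit 0x28412) (nat_lit 0) (p (nat_lit 0x30292) (nat_lit 0) (p (nat_lit 0x18212) (nat_lit 0) (p (nat_lit 0x20092) (nat_lit 0) (p (nat_lit 0x8012) (nat_lit 0)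 pn)))))))))))))))))))) :=
  Cl.node (nat_lit 0x81) (nat_lit 2) (by decide +kernel) (ClAll.succ (ClAll.succ ClAll.zero n156) n157)

def n160 : Cl (O (nat_lit 3)) (R (nat_lit 104577))
    (p (nat_lit 0x8a090b098a9a) (nat_lit 0) (p (nat_lit 0x9888a890a1a) (nat_lit 0) (p (nat_lit 0x89080a08879a) (nat_lit 0) (p (nat_lit 0x8878988071a) (nat_lit 0) (p (nat_lit 0x80000800080907888a) (nat_lit 0) (p (nat_lit 0x80000800078887060a) (nat_lit 0) (p (nat_lit 0x8608068782) (nat_lit 0) (p (nat_lit 0x587860702) (nat_lit 0) (p (nat_lit 0x8507058482) (nat_lit 0) (p (nat_lit 0x486850402) (nat_lit 0) (p (nat_lit 0x160014) (nat_lit 0) (p (nat_lit 0x50612) (nat_lit 0) (p (nat_lit 0x38592) (nat_lit 0) (p (nat_lit 0x40492) (nat_lit 0) (p (nat_lit 0x28412) (nat_lit 0) (p (nat_lit 0x30292) (nat_lit 0) (p (nat_lit 0x18212) (nat_lit 0) (p (nat_lit 0x20092) (nat_lit 0) (p (nat_lit 0x8012) (nat_lit 0) pn)))))))))))))))))))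 :=
  Cl.node (nat_lit 0x41) (nat_lit 2) (by decide +kernel) (ClAll.succ (ClAll.succ ClAll.zero n158) n159)

def n161 : Cl (O (nat_lit 3)) (R (nat_lit 104577))
    (p (nat_lit 0x9888a890a1a) (nat_lit 0) (p (nat_lit 0x89080a08879a) (nat_lit 0) (p (nat_lit 0x8878988071a) (nat_lit 0) (p (nat_lit 0x80000800080907888a) (nat_lit 0) (p (nat_lit 0x80000800078887060a) (nat_lit 0) (p (nat_lit 0x8608068782) (nat_lit 0) (p (nat_lit 0x587860702) (nat_lit 0) (p (nat_lit 0x8507058482) (nat_lit 0) (p (nat_lit 0x486850402) (nat_lit 0) (p (nat_lit 0x160014) (nat_lit 0) (p (nat_lit 0x50612) (nat_lit 0) (p (nat_lit 0x38592) (nat_lit 0) (p (nat_lit 0x40492) (nat_lit 0) (p (nat_lit 0x28412) (nat_lit 0) (p (nat_lit 0x30292) (nat_lit 0) (p (nat_lit 0x18212) (nat_lit 0) (p (nat_lit 0x20092) (nat_lit 0) (p (nat_lit 0x8012) (nat_lit 0) pn)))))))))))))))))) :=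
  Cl.node (nat_lit 0x8a090b098a9a) (nat_lit 1) (by decide +kernel) (ClAll.succ ClAll.zero n160)

def n162 : Cl (O (nat_lit 3)) (R (nat_lit 104577))
    (p (nat_lit 0x89080a08879a) (nat_lit 0) (p (nat_lit 0x8878988071a) (nat_lit 0) (p (nat_lit 0x80000800080907888a) (nat_lit 0) (p (nat_lit 0x80000800078887060a) (nat_lit 0) (p (nat_lit 0x8608068782) (nat_lit 0) (p (nat_lit 0x587860702) (nat_lit 0) (p (nat_lit 0x8507058482) (nat_lit 0) (p (nat_lit 0x486850402) (nat_lit 0) (p (nat_lit 0x160014) (nat_lit 0) (p (nat_lit 0x50612) (nat_lit 0) (p (nat_lit 0x38592) (nat_lit 0) (p (nat_lit 0x40492) (nat_lit 0) (p (nat_lit 0x28412) (nat_lit 0) (p (nat_lit 0x30292) (nat_lit 0) (p (nat_lit 0x18212) (nat_lit 0) (p (nat_lit 0x20092) (nat_lit 0) (p (nat_lit 0x8012) (nat_lit 0) pn))))))))))))))))) :=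
  Cl.node (nat_lit 0x9888a890a1a) (nat_lit 1) (by decide +kernel) (ClAll.succ ClAll.zero n161)

def n163 : Cl (O (nat_lit 3)) (R (nat_lit 104577))
    (p (nat_lit 0x8878988071a) (nat_lit 0) (p (nat_lit 0x80000800080907888a) (nat_lit 0) (p (nat_lit 0x80000800078887060a) (nat_lit 0) (p (nat_lit 0x8608068782) (nat_lit 0) (p (nat_lit 0x587860702) (nat_lit 0) (p (nat_lit 0x8507058482) (nat_lit 0) (p (nat_lit 0x486850402) (nat_lit 0) (p (nat_lit 0x160014) (nat_lit 0) (p (nat_lit 0x50612) (nat_lit 0) (p (nat_lit 0x38592) (nat_lit 0) (p (nat_lit 0x40492) (nat_lit 0) (p (nat_lit 0x28412) (nat_lit 0) (p (nat_lit 0x30292) (nat_lit 0) (p (nat_lit 0x18212) (nat_lit 0) (p (nat_lit 0x20092) (nat_lit 0) (p (nat_lit 0x8012) (nat_lit 0) pn)))))))))))))))) :=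
  Cl.node (nat_lit 0x89080a08879a) (nat_lit 1) (by decide +kernel) (ClAll.succ ClAll.zero n162)

def n164 : Cl (O (nat_lit 3)) (R (nat_lit 104577))
    (p (nat_lit 0x80000800080907888a) (nat_lit 0) (p (nat_lit 0x80000800078887060a) (nat_lit 0) (p (nat_lit 0x8608068782) (nat_lit 0) (p (nat_lit 0x587860702) (nat_lit 0) (p (nat_lit 0x8507058482) (nat_lit 0) (p (nat_lit 0x486850402) (nat_lit 0) (p (nat_lit 0x160014) (nat_lit 0) (p (nat_lit 0x50612) (nat_lit 0) (p (nat_lit 0x38592) (nat_lit 0) (p (nat_lit 0x40492) (nat_lit 0) (p (nat_lit 0x28412) (nat_lit 0) (p (nat_lit 0x30292) (nat_lit 0) (p (nat_lit 0x18212) (nat_lit 0) (p (nat_lit 0x20092) (nat_lit 0) (p (nat_lit 0x8012) (nat_lit 0) pn))))))))))))))) :=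
  Cl.node (nat_lit 0x8878988071a) (nat_lit 1) (by decide +kernel) (ClAll.succ ClAll.zero n163)

def n165 : Cl (O (nat_lit 3)) (R (nat_lit 104577))
    (p (nat_lit 0x80000800078887060a) (nat_lit 0) (p (nat_lit 0x8608068782) (nat_lit 0) (p (nat_lit 0x587860702) (nat_lit 0) (p (nat_lit 0x8507058482) (nat_lit 0) (p (nat_lit 0x486850402) (nat_lit 0) (p (nat_lit 0x160014) (nat_lit 0) (p (nat_lit 0x50612) (nat_lit 0) (p (nat_lit 0x38592) (nat_lit 0) (p (nat_lit 0x40492) (nat_lit 0) (p (nat_lit 0x28412) (nat_lit 0) (p (nat_lit 0x30292) (nat_lit 0) (p (nat_lit 0x18212) (nat_lit 0) (p (nat_lit 0x20092) (nat_lit 0) (p (nat_lit 0x8012) (nat_lit 0) pn)))))))))))))) :=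
  Cl.node (nat_lit 0x80000800080907888a) (nat_lit 1) (by decide +kernel) (ClAll.succ ClAll.zero n164)

def n166 : Cl (O (nat_lit 3)) (R (nat_lit 104577))
    (p (nat_lit 0x8608068782) (nat_lit 0) (p (nat_lit 0x587860702) (nat_lit 0) (p (nat_lit 0x8507058482) (nat_lit 0) (p (nat_lit 0x486850402) (nat_lit 0) (p (nat_lit 0x160014) (nat_lit 0) (p (nat_lit 0x50612) (nat_lit 0) (p (nat_lit 0x38592) (nat_lit 0) (p (nat_lit 0x40492) (nat_lit 0) (p (nat_lit 0x28412) (nat_lit 0) (p (nat_lit 0x30292) (nat_lit 0) (p (nat_lit 0x18212) (nat_lit 0) (p (nat_lit 0x20092) (nat_lit 0) (p (nat_lit 0x8012) (nat_lit 0) pn))))))))))))) :=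
  Cl.node (nat_lit 0x80000800078887060a) (nat_lit 1) (by decide +kernel) (ClAll.succ ClAll.zero n165)

def n167 : Cl (O (nat_lit 3)) (R (nat_lit 104577))
    (p (nat_lit 0x587860702) (nat_lit 0) (p (nat_lit 0x8507058482) (nat_lit 0) (p (nat_lit 0x486850402) (nat_lit 0) (p (nat_lit 0x160014) (nat_lit 0) (p (nat_lit 0x50612) (nat_lit 0) (p (nat_lit 0x38592) (nat_lit 0) (p (nat_lit 0x40492) (nat_lit 0) (p (nat_lit 0x28412) (nat_lit 0) (p (nat_lit 0x30292) (nat_lit 0) (p (nat_lit 0x18212) (nat_lit 0) (p (nat_lit 0x20092) (nat_lit 0) (p (nat_lit 0x8012) (nat_lit 0) pn)))))))))))) :=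
  Cl.node (nat_lit 0x8608068782) (nat_lit 1) (by decide +kernel) (ClAll.succ ClAll.zero n166)

def n168 : Cl (O (nat_lit 3)) (R (nat_lit 104577))
    (p (nat_lit 0x8507058482) (nat_lit 0) (p (nat_lit 0x486850402) (nat_lit 0) (p (nat_lit 0x160014) (nat_lit 0) (p (nat_lit 0x50612) (nat_lit 0) (p (nat_lit 0x38592) (nat_lit 0) (p (nat_lit 0x40492) (nat_lit 0) (p (nat_lit 0x28412) (nat_lit 0) (p (nat_lit 0x30292) (nat_lit 0) (p (nat_lit 0x18212) (nat_lit 0) (p (nat_lit 0x20092) (nat_lit 0) (p (nat_lit 0x8012) (nat_lit 0) pn))))))))))) :=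
  Cl.node (nat_lit 0x587860702) (nat_lit 1) (by decide +kernel) (ClAll.succ ClAll.zero n167)

def n169 : Cl (O (nat_lit 3)) (R (nat_lit 104577))
    (p (nat_lit 0x486850402) (nat_lit 0) (p (nat_lit 0x160014) (nat_lit 0) (p (nat_lit 0x50612) (nat_lit 0) (p (nat_lit 0x38592) (nat_lit 0) (p (nat_lit 0x40492) (nat_lit 0) (p (nat_lit 0x28412) (nat_lit 0) (p (nat_lit 0x30292) (nat_lit 0) (p (nat_lit 0x18212) (nat_lit 0) (p (nat_lit 0x20092) (nat_lit 0) (p (nat_lit 0x8012) (nat_lit 0) pn)))))))))) :=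
  Cl.node (nat_lit 0x8507058482) (nat_lit 1) (by decide +kernel) (ClAll.succ ClAll.zero n168)

def n170 : Cl (O (nat_lit 3)) (R (nat_lit 104577))
    (p (nat_lit 0x160014) (nat_lit 0) (p (nat_lit 0x50612) (nat_lit 0) (p (nat_lit 0x38592) (nat_lit 0) (p (nat_lit 0x40492) (nat_lit 0) (p (nat_lit 0x28412) (nat_lit 0) (p (nat_lit 0x30292) (nat_lit 0) (p (nat_lit 0x18212) (nat_lit 0) (p (nat_lit 0x20092) (nat_lit 0) (p (nat_lit 0x8012) (nat_lit 0) pn))))))))) :=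
  Cl.node (nat_lit 0x486850402) (nat_lit 1) (by decide +kernel) (ClAll.succ ClAll.zero n169)

def n171 : Cl (O (nat_lit 3)) (R (nat_lit 104577))
    (p (nat_lit 0x50612) (nat_lit 0) (p (nat_lit 0x38592) (nat_lit 0) (p (nat_lit 0x40492) (nat_lit 0) (p (nat_lit 0x28412) (nat_lit 0) (p (nat_lit 0x30292) (nat_lit 0) (p (nat_lit 0x18212) (nat_lit 0) (p (nat_lit 0x20092) (nat_lit 0) (p (nat_lit 0x8012) (nat_lit 0) pn)))))))) :=
  Cl.node (nat_lit 0x160014) (nat_lit 2) (by decide +kernel) (ClAll.succ (ClAll.succ ClAll.zero n170) s162)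

def n172 : Cl (O (nat_lit 3)) (R (nat_lit 104577))
    (p (nat_lit 0x38592) (nat_lit 0) (p (nat_lit 0x40492) (nat_lit 0) (p (nat_lit 0x28412) (nat_lit 0) (p (nat_lit 0x30292) (nat_lit 0) (p (nat_lit 0x18212) (nat_lit 0) (p (nat_lit 0x20092) (nat_lit 0) (p (nat_lit 0x8012) (nat_lit 0) pn))))))) :=
  Cl.node (nat_lit 0x50612) (nat_lit 1) (by decide +kernel) (ClAll.succ ClAll.zero n171)

def n173 : Cl (O (nat_lit 3)) (R (nat_lit 104577))
    (p (nat_lit 0x40492) (nat_lit 0) (p (nat_lit 0x28412) (nat_lit 0) (p (nat_lit 0x30292) (nat_lit 0) (p (nat_lit 0x18212) (nat_lit 0) (p (nat_lit 0x20092) (nat_lit 0) (p (nat_lit 0x8012) (nat_lit 0) pn)))))) :=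
  Cl.node (nat_lit 0x38592) (nat_lit 1) (by decide +kernel) (ClAll.succ ClAll.zero n172)

def n174 : Cl (O (nat_lit 3)) (R (nat_lit 104577))
    (p (nat_lit 0x28412) (nat_lit 0) (p (nat_lit 0x30292) (nat_lit 0) (p (nat_lit 0x18212) (nat_lit 0) (p (nat_lit 0x20092) (nat_lit 0) (p (nat_lit 0x8012) (nat_lit 0) pn))))) :=
  Cl.node (nat_lit 0x40492) (nat_lit 1) (by decide +kernel) (ClAll.succ ClAll.zero n173)

def n175 : Cl (O (nat_lit 3)) (R (nat_lit 104577))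
    (p (nat_lit 0x30292) (nat_lit 0) (p (nat_lit 0x18212) (nat_lit 0) (p (nat_lit 0x20092) (nat_lit 0) (p (nat_lit 0x8012) (nat_lit 0) pn)))) :=
  Cl.node (nat_lit 0x28412) (nat_lit 1) (by decide +kernel) (ClAll.succ ClAll.zero n174)

def n176 : Cl (O (nat_lit 3)) (R (nat_lit 104577))
    (p (nat_lit 0x18212) (nat_lit 0) (p (nat_lit 0x20092) (nat_lit 0) (p (nat_lit 0x8012) (nat_lit 0) pn))) :=
  Cl.node (nat_lit 0x30292) (nat_lit 1) (by decide +kernel) (ClAll.succ ClAll.zero n175)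

def n177 : Cl (O (nat_lit 3)) (R (nat_lit 104577))
    (p (nat_lit 0x20092) (nat_lit 0) (p (nat_lit 0x8012) (nat_lit 0) pn)) :=
  Cl.node (nat_lit 0x18212) (nat_lit 1) (by decide +kernel) (ClAll.succ ClAll.zero n176)

def n178 : Cl (O (nat_lit 3)) (R (nat_lit 104577))
    (p (nat_lit 0x8012) (nat_lit 0) pn) :=
  Cl.node (nat_lit 0x20092) (nat_lit 1) (by decide +kernel) (ClAll.succ ClAll.zero n177)

def n179 : Cl (O (nat_lit 3)) (R (nat_lit 104577))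
    pn :=
  Cl.node (nat_lit 0x8012) (nat_lit 1) (by decide +kernel) (ClAll.succ ClAll.zero n178)

theorem top : Cl (O (nat_lit 3)) (R (nat_lit 104577)) pn := n179

end Pool.Agent.Gen.F5.X1C2D13m3
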